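import Pool.Agent.Helper91K9.EP.Stm

/-! # EP: [MOM] -/

set_option autoImplicit false

namespace Pool.Agent.Helper91K9.EP

open Set MeasureTheory
open Pool.Agent.Y933.KI

namespace MomL

/-- the unit square -/
def Sq : Set (ℝ × ℝ) := (Icc (0 : ℝ) 1) ×ˢ (Icc (0 : ℝ) 1)

theorem Sq_compact : IsCompact Sq := isCompact_Icc.prod isCompact_Icc

theorem Sq_vol : volume Sq = 1 := by
  rw [Sq, Measure.volume_eq_prod, Measure.prod_prod, Real.volume_Icc]
  simp

theorem Sq_meas : MeasurableSet Sq := Sq_compact.isClosed.measurableSet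

/-- the phases of the power -/
noncomputable def th2 (N : ℝ) (f : ℝ → ℝ) (q : ℕ → ℝ) {k : ℕ} (x : Fin k → ℕ) (p : ℝ × ℝ) : ℝ :=
  2 * Real.pi * ∑ l, (f (wv N (x l) p.1 p.2) + q (x l))

theorem ES2_pow (N : ℝ) (f : ℝ → ℝ) (q : ℕ → ℝ) (I : Finset ℕ) (k : ℕ) (p : ℝ × ℝ) :
    ‖ES2 N f q I p‖ ^ (2 * k) = ∑ x ∈ Fintype.piFinset (fun _ : Fin k => I),
      ∑ y ∈ Fintype.piFinset (fun _ : Fin k => I), Real.cos (th2 N f q x p - th2 N f q y p) := by
  have h1 : (ES2 N f q I p) ^ k = ∑ x ∈ Fintype.piFinset (fun _ : Fin k => I),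
      Complex.exp (((th2 N f q x p : ℝ) : ℂ) * Complex.I) := by
    rw [ES2, Finset.sum_pow']
    refine Finset.sum_congr rfl (fun x _ => ?_)
    rw [← Complex.exp_sum, th2]
    congr 1
    push_cast
    rw [Finset.mul_sum, Finset.sum_mul]
    refine Finset.sum_congr rfl (fun l _ => ?_)
    ring
  rw [mul_comm 2 k, pow_mul, ← norm_pow, Complex.sq_norm, Complex.normSq_apply, h1,
    Complex.re_sum, Complex.im_sum]
  simp only [Complex.exp_ofReal_mul_I_re, Complex.exp_ofReal_mul_I_im]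
  rw [Finset.sum_mul_sum, Finset.sum_mul_sum, ← Finset.sum_add_distrib]
  refine Finset.sum_congr rfl (fun x _ => ?_)
  rw [← Finset.sum_add_distrib]
  refine Finset.sum_congr rfl (fun y _ => ?_)
  rw [Real.cos_sub]

theorem wv_cont (N : ℝ) (n : ℕ) : Continuous fun p : ℝ × ℝ => wv N n p.1 p.2 := by
  unfold wv
  fun_prop

theorem th2_cont (N : ℝ) {f : ℝ → ℝ} (hf : Continuous f) (q : ℕ → ℝ) {k : ℕ} (x : Fin k → ℕ) :
    Continuous (th2 N f q x) := by
  unfold th2
  refine continuous_const.mul (continuous_finsetSum _ fun l _ => ?_)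
  exact (hf.comp (wv_cont N (x l))).add continuous_const

theorem ES2_cont (N : ℝ) {f : ℝ → ℝ} (hf : Continuous f) (q : ℕ → ℝ) (I : Finset ℕ) :
    Continuous (ES2 N f q I) := by
  unfold ES2
  refine continuous_finsetSum _ fun n _ => ?_
  refine Complex.continuous_exp.comp (continuous_const.mul (Complex.continuous_ofReal.comp ?_))
  exact (hf.comp (wv_cont N n)).add continuous_const

theorem triv_cos (θ : ℝ × ℝ → ℝ) : ∫ p in Sq, Real.cos (θ p) ≤ 1 := by
  have h1 : ‖∫ p in Sq, Real.cos (θ p)‖ ≤ 1 * volume.real Sq :=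
    norm_setIntegral_le_of_norm_le_const (by rw [Sq_vol]; exact ENNReal.one_lt_top)
      fun p _ => Real.abs_cos_le_one _
  rw [Real.norm_eq_abs] at h1
  have h2 : volume.real Sq = 1 := by rw [Measure.real, Sq_vol, ENNReal.toReal_one]
  rw [h2, mul_one] at h1
  exact (le_abs_self _).trans h1

end MomL

open MomL in
theorem mom (hoff0 : S_OFF) : S_MOM := by
  intro k hk
  obtain ⟨A, hA⟩ := hoff0 k hk
  refine ⟨A, fun c C hc hC => ?_⟩
  obtain ⟨K, hK, hoff⟩ := hA c C hc hC
  refine ⟨k ^ k + 2 ^ k * K, by positivity, fun F N φ hN hF hφ q N1 N2 hN1 hN2 => ?_⟩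
  have hN0 : (0 : ℝ) < N := by linarith
  set I := Finset.Icc N1 N2 with hI
  set P' := Fintype.piFinset (fun _ : Fin k => I) with hP
  have hmem : ∀ x ∈ P', Ok N x := by
    intro x hx l
    have h1 := Fintype.mem_piFinset.mp hx l
    obtain ⟨h2, h3⟩ := Finset.mem_Icc.mp h1
    have h2' : (N1 : ℝ) ≤ x l := by exact_mod_cast h2
    have h3' : (x l : ℝ) ≤ N2 := by exact_mod_cast h3
    exact ⟨by linarith, by linarith⟩
  have hcardI : (I.card : ℝ) ≤ 2 * N := by
    have h1 : I.card ≤ N2 + 1 := by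
      rw [hI, Nat.card_Icc]
      omega
    have h2 : (I.card : ℝ) ≤ (N2 : ℝ) + 1 := by exact_mod_cast h1
    linarith
  have hcardP : (P'.card : ℝ) = (I.card : ℝ) ^ k := by
    rw [hP, Fintype.card_piFinset_const]
    push_cast
    rfl
  have hcardP2 : (P'.card : ℝ) ≤ (2 * N) ^ k := by
    rw [hcardP]
    exact pow_le_pow_left₀ (Nat.cast_nonneg _) hcardI k
  have hcc : ∀ x y : Fin k → ℕ, Continuous (fun p => Real.cos (th2 N (φ 0) q x p - th2 N (φ 0) q y p)) :=
    fun x y => Real.continuous_cos.comp ((th2_cont N hφ.cont q x).sub (th2_cont N hφ.cont q y))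
  have hii : ∀ x y : Fin k → ℕ,
      IntegrableOn (fun p => Real.cos (th2 N (φ 0) q x p - th2 N (φ 0) q y p)) Sq volume :=
    fun x y => (hcc x y).continuousOn.integrableOn_compact Sq_compact
  show ∫ p in Sq, ‖ES2 N (φ 0) q I p‖ ^ (2 * k) ≤ _
  simp only [ES2_pow]
  rw [integral_finsetSum P' (fun x _ => integrable_finsetSum P' (fun y _ => hii x y))]
  have hone : ∀ x ∈ P', ∫ p in Sq, ∑ y ∈ P', Real.cos (th2 N (φ 0) q x p - th2 N (φ 0) q y p) ≤
      k ^ k + (2 * N) ^ k * (K / N ^ k) := by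
    intro x hx
    rw [integral_finsetSum P' (fun y _ => hii x y)]
    classical
    set Dg := P'.filter (fun y => ∀ j, mu x y j = 0) with hDg
    set Of := P'.filter (fun y => ¬ ∀ j, mu x y j = 0) with hOf
    rw [← Finset.sum_filter_add_sum_filter_not P' (fun y => ∀ j, mu x y j = 0)]
    have hDgc : Dg.card ≤ k ^ k := by
      have h1 : Dg ⊆ Fintype.piFinset (fun _ : Fin k => Finset.univ.image x) := by
        intro y hy
        rw [Fintype.mem_piFinset]
        intro l
        have h2 := (Finset.mem_filter.mp hy).2 (y l)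
        rw [mu, sub_eq_zero] at h2
        have h3 : 0 < (Finset.univ.filter (fun m => y m = y l)).card :=
          Finset.card_pos.mpr ⟨l, Finset.mem_filter.mpr ⟨Finset.mem_univ l, rfl⟩⟩
        have h4 : 0 < (Finset.univ.filter (fun m => x m = y l)).card := by
          have : ((Finset.univ.filter (fun m => x m = y l)).card : ℤ) =
              (Finset.univ.filter (fun m => y m = y l)).card := h2
          omega
        obtain ⟨m, hm⟩ := Finset.card_pos.mp h4
        exact Finset.mem_image.mpr ⟨m, Finset.mem_univ m, (Finset.mem_filter.mp hm).2⟩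
      refine (Finset.card_le_card h1).trans ?_
      rw [Fintype.card_piFinset_const]
      apply Nat.pow_le_pow_left
      exact Finset.card_image_le.trans (by rw [Finset.card_univ, Fintype.card_fin])
    have hA : ∑ y ∈ Dg, ∫ p in Sq, Real.cos (th2 N (φ 0) q x p - th2 N (φ 0) q y p) ≤
        (k : ℝ) ^ k := by
      calc ∑ y ∈ Dg, ∫ p in Sq, Real.cos (th2 N (φ 0) q x p - th2 N (φ 0) q y p)
          ≤ ∑ y ∈ Dg, (1 : ℝ) := Finset.sum_le_sum (fun y _ => triv_cos _)
        _ = Dg.card := by simp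
        _ ≤ (k : ℝ) ^ k := by exact_mod_cast hDgc
    have hB : ∑ y ∈ Of, ∫ p in Sq, Real.cos (th2 N (φ 0) q x p - th2 N (φ 0) q y p) ≤
        (2 * N : ℝ) ^ k * (K / N ^ k) := by
      calc ∑ y ∈ Of, ∫ p in Sq, Real.cos (th2 N (φ 0) q x p - th2 N (φ 0) q y p)
          ≤ ∑ y ∈ Of, (K / N ^ k) := by
            refine Finset.sum_le_sum (fun y hy => ?_)
            obtain ⟨hyP, hy2⟩ := Finset.mem_filter.mp hy
            push Not at hy2
            exact (le_abs_self _).trans (hoff F N φ hN hF hφ q x y (hmem x hx) (hmem y hyP) hy2)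
        _ = Of.card * (K / N ^ k) := by rw [Finset.sum_const, nsmul_eq_mul]
        _ ≤ P'.card * (K / N ^ k) := by
            have : (Of.card : ℝ) ≤ P'.card := by exact_mod_cast Finset.card_filter_le _ _
            gcongr
        _ ≤ _ := by gcongr
    exact add_le_add hA hB
  refine (Finset.sum_le_sum hone).trans ?_
  rw [Finset.sum_const, nsmul_eq_mul, hcardP]
  apply le_of_eq
  have hNk : N ^ k ≠ 0 := by positivity
  rw [mul_pow]
  field_simp

end Pool.Agent.Helper91K9.EP
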