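import Pool.Agent.Helper91K9.EP.Stm2
import Pool.Agent.Helper91K9.EP.Mom

/-! # EP: [ASY] -/

set_option autoImplicit false

namespace Pool.Agent.Helper91K9.EP

open Set MeasureTheory
open Pool.Agent.Y933.KI

namespace AsyL

open MomL

theorem th_eq (N : ℝ) (f : ℝ → ℝ) (q : ℕ → ℝ) {k : ℕ} {I : Finset ℕ} (x y : Fin k → ℕ)
    (hx : ∀ l, x l ∈ I) (hy : ∀ l, y l ∈ I) (h : ∀ j ∈ I, mu x y j = 0) (p : ℝ × ℝ) :
    th2 N f q x p = th2 N f q y p := by
  unfold th2
  have h1 := sum_fib x I hx (fun n => f (wv N n p.1 p.2) + q n)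
  have h2 := sum_fib y I hy (fun n => f (wv N n p.1 p.2) + q n)
  rw [h1, h2]
  congr 1
  refine Finset.sum_congr rfl (fun j hj => ?_)
  have h3 := h j hj
  rw [mu, sub_eq_zero] at h3
  have h4 : ((Finset.univ.filter (fun l => x l = j)).card : ℤ) =
      (Finset.univ.filter (fun l => y l = j)).card := h3
  have h5 : (Finset.univ.filter (fun l => x l = j)).card =
      (Finset.univ.filter (fun l => y l = j)).card := by exact_mod_cast h4
  rw [h5]

theorem one_int : ∫ p in Sq, Real.cos ((0 : ℝ × ℝ → ℝ) p) = 1 := by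
  have h2 : volume.real Sq = 1 := by rw [Measure.real, Sq_vol, ENNReal.toReal_one]
  simp [h2]

end AsyL

open MomL AsyL in
theorem asy (hoff0 : S_OFFB) (hcnt0 : S_CNT) : S_ASY := by
  intro k hk
  obtain ⟨A, hA⟩ := hoff0 k hk (2 * k)
  obtain ⟨K', hK', hcnt⟩ := hcnt0 k hk
  refine ⟨A, fun c C hc hC => ?_⟩
  obtain ⟨K, hK, hoff⟩ := hA c C hc hC
  refine ⟨K' + 2 ^ (2 * k) * K, by positivity, fun F N φ hN hF hφ q N1 N2 hN1 hN12 hN2 => ?_⟩
  have hN0 : (0 : ℝ) < N := by linarith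
  set I := Finset.Icc N1 N2 with hI
  have hIne : I.Nonempty := Finset.nonempty_Icc.mpr hN12
  set P' := Fintype.piFinset (fun _ : Fin k => I) with hP
  have hmem : ∀ x ∈ P', Ok N x := by
    intro x hx l
    have h1 := Fintype.mem_piFinset.mp hx l
    obtain ⟨h2, h3⟩ := Finset.mem_Icc.mp h1
    have h2' : (N1 : ℝ) ≤ x l := by exact_mod_cast h2
    have h3' : (x l : ℝ) ≤ N2 := by exact_mod_cast h3
    exact ⟨by linarith, by linarith⟩
  have hcardI : (I.card : ℝ) ≤ 2 * N := by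
    have h1 : I.card ≤ N2 + 1 := by
      rw [hI, Nat.card_Icc]
      omega
    have h2 : (I.card : ℝ) ≤ (N2 : ℝ) + 1 := by exact_mod_cast h1
    linarith
  have hcard1 : (1 : ℝ) ≤ (I.card : ℝ) := by
    have h1 : 1 ≤ I.card := Finset.card_pos.mpr hIne
    exact_mod_cast h1
  have hcardP : (P'.card : ℝ) = (I.card : ℝ) ^ k := by
    rw [hP, Fintype.card_piFinset_const]
    push_cast
    rfl
  have hcardP2 : (P'.card : ℝ) ≤ (2 * N) ^ k := by
    rw [hcardP]
    exact pow_le_pow_left₀ (Nat.cast_nonneg _) hcardI k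
  have hcc : ∀ x y : Fin k → ℕ, Continuous (fun p => Real.cos (th2 N (φ 0) q x p - th2 N (φ 0) q y p)) :=
    fun x y => Real.continuous_cos.comp ((th2_cont N hφ.cont q x).sub (th2_cont N hφ.cont q y))
  have hii : ∀ x y : Fin k → ℕ,
      IntegrableOn (fun p => Real.cos (th2 N (φ 0) q x p - th2 N (φ 0) q y p)) Sq volume :=
    fun x y => (hcc x y).continuousOn.integrableOn_compact Sq_compact
  have hmain : ∫ p in Sq, ‖ES2 N (φ 0) q I p‖ ^ (2 * k) =
      ∑ x ∈ P', ∑ y ∈ P', ∫ p in Sq, Real.cos (th2 N (φ 0) q x p - th2 N (φ 0) q y p) := by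
    simp only [ES2_pow]
    rw [integral_finsetSum P' (fun x _ => integrable_finsetSum P' (fun y _ => hii x y))]
    refine Finset.sum_congr rfl (fun x _ => ?_)
    rw [integral_finsetSum P' (fun y _ => hii x y)]
  show |(∫ p in Sq, ‖ES2 N (φ 0) q I p‖ ^ (2 * k)) - _| ≤ _
  rw [hmain]
  have hpair : ∀ x ∈ P', ∀ y ∈ P',
      |(∫ p in Sq, Real.cos (th2 N (φ 0) q x p - th2 N (φ 0) q y p)) -
        (if (∀ j ∈ I, mu x y j = 0) then (1 : ℝ) else 0)| ≤ K / N ^ (2 * k) := by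
    intro x hx y hy
    have hxI : ∀ l, x l ∈ I := fun l => Fintype.mem_piFinset.mp hx l
    have hyI : ∀ l, y l ∈ I := fun l => Fintype.mem_piFinset.mp hy l
    by_cases h : ∀ j ∈ I, mu x y j = 0
    · rw [if_pos h]
      have h1 : (fun p => Real.cos (th2 N (φ 0) q x p - th2 N (φ 0) q y p)) =
          fun p => Real.cos ((0 : ℝ × ℝ → ℝ) p) := by
        funext p
        rw [th_eq N (φ 0) q x y hxI hyI h p, sub_self]
        rfl
      rw [h1, one_int, sub_self, abs_zero]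
      positivity
    · rw [if_neg h, sub_zero]
      push Not at h
      obtain ⟨j, _, hj⟩ := h
      exact hoff F N φ hN hF hφ q x y (hmem x hx) (hmem y hy) ⟨j, hj⟩
  have hdiff : |(∑ x ∈ P', ∑ y ∈ P', ∫ p in Sq, Real.cos (th2 N (φ 0) q x p - th2 N (φ 0) q y p)) -
      ∑ x ∈ P', ∑ y ∈ P', (if (∀ j ∈ I, mu x y j = 0) then (1 : ℝ) else 0)| ≤
      2 ^ (2 * k) * K := by
    rw [← Finset.sum_sub_distrib]
    refine (Finset.abs_sum_le_sum_abs _ _).trans ?_
    have h1 : ∀ x ∈ P', |(∑ y ∈ P', ∫ p in Sq, Real.cos (th2 N (φ 0) q x p - th2 N (φ 0) q y p)) -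
        ∑ y ∈ P', (if (∀ j ∈ I, mu x y j = 0) then (1 : ℝ) else 0)| ≤
        P'.card * (K / N ^ (2 * k)) := by
      intro x hx
      rw [← Finset.sum_sub_distrib]
      refine (Finset.abs_sum_le_sum_abs _ _).trans ?_
      refine (Finset.sum_le_sum (fun y hy => hpair x hx y hy)).trans ?_
      rw [Finset.sum_const, nsmul_eq_mul]
    refine (Finset.sum_le_sum h1).trans ?_
    rw [Finset.sum_const, nsmul_eq_mul]
    have h2 : (P'.card : ℝ) * (P'.card * (K / N ^ (2 * k))) ≤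
        (2 * N) ^ k * ((2 * N) ^ k * (K / N ^ (2 * k))) := by
      gcongr
    refine h2.trans (le_of_eq ?_)
    have hNk : N ^ k ≠ 0 := by positivity
    rw [two_mul k, pow_add, pow_add, mul_pow]
    field_simp
  have hc := hcnt I hIne
  have hp1 : (1 : ℝ) ≤ (I.card : ℝ) ^ (k - 1) := one_le_pow₀ hcard1
  rw [abs_le] at hdiff hc ⊢
  obtain ⟨a1, a2⟩ := hdiff
  obtain ⟨b1, b2⟩ := hc
  have h3 : (2 : ℝ) ^ (2 * k) * K ≤ 2 ^ (2 * k) * K * (I.card : ℝ) ^ (k - 1) :=
    le_mul_of_one_le_right (by positivity) hp1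
  constructor
  · nlinarith
  · nlinarith

end Pool.Agent.Helper91K9.EP
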