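import Pool.Agent.Helper91K9.EP.Stm2

/-!
# CNT: pairs of tuples which are permutations of each other
-/

set_option autoImplicit false

namespace Pool.Agent.Helper91K9.EP

open Set MeasureTheory
open Pool.Agent.Y933.KI

namespace CntL

lemma desc_le (n k : ℕ) : n ^ k ≤ n.descFactorial k + k ^ 2 * n ^ (k - 1) := by
  induction k with
  | zero => simp
  | succ k ih =>
    have h1 : n * n.descFactorial k ≤ (n - k) * n.descFactorial k + k * n ^ k := by
      calc n * n.descFactorial k ≤ ((n - k) + k) * n.descFactorial k :=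
            Nat.mul_le_mul_right _ (by omega)
        _ = (n - k) * n.descFactorial k + k * n.descFactorial k := by ring
        _ ≤ _ := Nat.add_le_add_left (Nat.mul_le_mul_left _ (Nat.descFactorial_le_pow _ _)) _
    have h2 : k ^ 2 * (n * n ^ (k - 1)) ≤ k ^ 2 * n ^ k := by
      rcases Nat.eq_zero_or_pos k with rfl | hk
      · simp
      · rw [← pow_succ', Nat.sub_add_cancel hk]
    rw [Nat.descFactorial_succ, pow_succ', Nat.add_sub_cancel]
    calc n * n ^ k ≤ n * (n.descFactorial k + k ^ 2 * n ^ (k - 1)) := Nat.mul_le_mul_left _ ih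
      _ = n * n.descFactorial k + k ^ 2 * (n * n ^ (k - 1)) := by ring
      _ ≤ ((n - k) * n.descFactorial k + k * n ^ k) + k ^ 2 * n ^ k := add_le_add h1 h2
      _ ≤ (n - k) * n.descFactorial k + (k + 1) ^ 2 * n ^ k := by nlinarith [Nat.zero_le (n ^ k)]

variable {k : ℕ} {I : Finset ℕ} {x y : Fin k → ℕ}

lemma exists_eq (hy : ∀ l, y l ∈ I) (h : ∀ j ∈ I, mu x y j = 0) (l : Fin k) :
    ∃ m, x m = y l := by
  have h1 := h (y l) (hy l)
  unfold mu at h1
  have hpos : 0 < (Finset.univ.filter (fun m => y m = y l)).card :=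
    Finset.card_pos.2 ⟨l, by simp⟩
  have hpos' : 0 < (Finset.univ.filter (fun m => x m = y l)).card := by omega
  obtain ⟨m, hm⟩ := Finset.card_pos.1 hpos'
  exact ⟨m, (Finset.mem_filter.1 hm).2⟩

lemma inj_of (hx : Function.Injective x) (hy : ∀ l, y l ∈ I) (h : ∀ j ∈ I, mu x y j = 0) :
    Function.Injective y := by
  intro l l' hll
  by_contra hne
  have h1 := h (y l) (hy l)
  unfold mu at h1
  have h2 : (Finset.univ.filter (fun m => x m = y l)).card ≤ 1 := by
    refine Finset.card_le_one.2 fun a ha b hb => hx ?_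
    rw [(Finset.mem_filter.1 ha).2, (Finset.mem_filter.1 hb).2]
  have h3 : 1 < (Finset.univ.filter (fun m => y m = y l)).card :=
    Finset.one_lt_card.2 ⟨l, by simp, l', by simp [hll], hne⟩
  omega

lemma mu_comp (x : Fin k → ℕ) (π : Equiv.Perm (Fin k)) (j : ℕ) : mu x (x ∘ π) j = 0 := by
  unfold mu
  have h : (Finset.univ.filter (fun l => (x ∘ π) l = j)).card =
      (Finset.univ.filter (fun l => x l = j)).card :=
    Finset.card_equiv π (by simp)
  rw [h, sub_self]

end CntL

/-- The number of pairs of tuples which are permutations of each other. -/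
theorem cnt : S_CNT := by
  intro k hk
  refine ⟨(k : ℝ) ^ 2 * ((k : ℝ) ^ k + k.factorial), by positivity, fun I hI => ?_⟩
  classical
  set S := Fintype.piFinset (fun _ : Fin k => I) with hSdef
  have hScard : S.card = I.card ^ k := by
    rw [hSdef, Fintype.card_piFinset, Finset.prod_const, Finset.card_univ, Fintype.card_fin]
  have hmem : ∀ x, x ∈ S ↔ ∀ l, x l ∈ I := fun x => Fintype.mem_piFinset
  set D : (Fin k → ℕ) → Finset (Fin k → ℕ) := fun x => S.filter (fun y => ∀ j ∈ I, mu x y j = 0)
    with hD
  have h1 : ∀ x, ∑ y ∈ S, (if ∀ j ∈ I, mu x y j = 0 then (1 : ℝ) else 0) = ((D x).card : ℝ) := by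
    intro x
    rw [Finset.sum_boole]
  have hDle : ∀ x, (D x).card ≤ k ^ k := by
    intro x
    have hsub : D x ⊆ Fintype.piFinset (fun _ : Fin k => Finset.univ.image x) := by
      intro y hy
      rw [Fintype.mem_piFinset]
      intro l
      have hy' := Finset.mem_filter.1 hy
      obtain ⟨m, hm⟩ := CntL.exists_eq ((hmem y).1 hy'.1) hy'.2 l
      exact Finset.mem_image.2 ⟨m, Finset.mem_univ _, hm⟩
    refine (Finset.card_le_card hsub).trans ?_
    rw [Fintype.card_piFinset, Finset.prod_const, Finset.card_univ, Fintype.card_fin]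
    refine Nat.pow_le_pow_left ?_ _
    exact Finset.card_image_le.trans (by rw [Finset.card_univ, Fintype.card_fin])
  have hDinj : ∀ x ∈ S, Function.Injective x → (D x).card = k.factorial := by
    intro x hx hinj
    have heq : D x = Finset.univ.image (fun π : Equiv.Perm (Fin k) => x ∘ π) := by
      ext y
      constructor
      · intro hy
        have hy' := Finset.mem_filter.1 hy
        have hyI := (hmem y).1 hy'.1
        choose π hπ using CntL.exists_eq hyI hy'.2
        have hyinj := CntL.inj_of hinj hyI hy'.2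
        have hπinj : Function.Injective π := by
          intro l l' hll
          apply hyinj
          rw [← hπ l, ← hπ l', hll]
        refine Finset.mem_image.2 ⟨Equiv.ofBijective π (Finite.injective_iff_bijective.1 hπinj),
          Finset.mem_univ _, ?_⟩
        funext l
        exact hπ l
      · intro hy
        obtain ⟨π, -, rfl⟩ := Finset.mem_image.1 hy
        refine Finset.mem_filter.2 ⟨(hmem _).2 fun l => (hmem x).1 hx (π l), fun j _ => ?_⟩
        exact CntL.mu_comp x π j
    rw [heq, Finset.card_image_of_injective, Finset.card_univ, Fintype.card_perm,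
      Fintype.card_fin]
    intro π π' h
    ext l
    exact congrArg Fin.val (hinj (congrFun h l))
  have hinjc : I.card.descFactorial k ≤ (S.filter (fun x => Function.Injective x)).card := by
    have h2 : Fintype.card (Fin k ↪ I) = I.card.descFactorial k := by
      rw [Fintype.card_embedding_eq, Fintype.card_coe, Fintype.card_fin]
    rw [← h2, ← Finset.card_univ]
    refine Finset.card_le_card_of_injOn (fun e : Fin k ↪ I => fun l => ((e l : I) : ℕ)) ?_ ?_
    · intro e _
      refine Finset.mem_coe.2 (Finset.mem_filter.2 ⟨(hmem _).2 fun l => (e l).2, ?_⟩)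
      intro a b hab
      exact e.injective (Subtype.ext hab)
    · intro e _ e' _ h
      ext l
      exact congrFun h l
  have hnon : (S.filter (fun x => ¬ Function.Injective x)).card ≤ k ^ 2 * I.card ^ (k - 1) := by
    have h2 := Finset.card_filter_add_card_filter_not (s := S) (fun x => Function.Injective x)
    have h3 := CntL.desc_le I.card k
    rw [hScard] at h2
    omega
  have h4 : (∑ x ∈ S, ∑ y ∈ S, (if ∀ j ∈ I, mu x y j = 0 then (1 : ℝ) else 0)) -
      (k.factorial : ℝ) * (I.card : ℝ) ^ k =
      ∑ x ∈ S.filter (fun x => ¬ Function.Injective x), (((D x).card : ℝ) - k.factorial) := by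
    have h5 : (k.factorial : ℝ) * (I.card : ℝ) ^ k = ∑ x ∈ S, (k.factorial : ℝ) := by
      rw [Finset.sum_const, hScard, nsmul_eq_mul]
      push_cast
      ring
    rw [h5, ← Finset.sum_sub_distrib]
    simp only [h1]
    rw [Finset.sum_filter]
    refine Finset.sum_congr rfl fun x hx => ?_
    split_ifs with h6
    · rw [hDinj x hx h6, sub_self]
    · rfl
  rw [h4]
  calc |∑ x ∈ S.filter (fun x => ¬ Function.Injective x), (((D x).card : ℝ) - k.factorial)|
      ≤ ∑ x ∈ S.filter (fun x => ¬ Function.Injective x), |((D x).card : ℝ) - k.factorial| :=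
        Finset.abs_sum_le_sum_abs _ _
    _ ≤ ∑ x ∈ S.filter (fun x => ¬ Function.Injective x), ((k : ℝ) ^ k + k.factorial) := by
        refine Finset.sum_le_sum fun x _ => ?_
        have h5 : ((D x).card : ℝ) ≤ (k : ℝ) ^ k := by exact_mod_cast hDle x
        have h6 : (0 : ℝ) ≤ (D x).card := by positivity
        have h7 : (0 : ℝ) ≤ k.factorial := by positivity
        have h8 : (0 : ℝ) ≤ (k : ℝ) ^ k := by positivity
        rw [abs_le]
        constructor <;> linarith
    _ = ((S.filter (fun x => ¬ Function.Injective x)).card : ℝ) *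
          ((k : ℝ) ^ k + k.factorial) := by
        rw [Finset.sum_const, nsmul_eq_mul]
    _ ≤ ((k : ℝ) ^ 2 * (I.card : ℝ) ^ (k - 1)) * ((k : ℝ) ^ k + k.factorial) := by
        refine mul_le_mul_of_nonneg_right ?_ (by positivity)
        exact_mod_cast hnon
    _ = (k : ℝ) ^ 2 * ((k : ℝ) ^ k + k.factorial) * (I.card : ℝ) ^ (k - 1) := by ring

end Pool.Agent.Helper91K9.EP
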