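import Pool.Agent.Helper91K9.EP.Stm

set_option autoImplicit false

namespace Pool.Agent.Helper91K9.EP

open Set MeasureTheory
open Pool.Agent.Y933.KI

theorem coef : S_COEF := by
  intro R
  let V : Matrix (Fin (R + 1)) (Fin (R + 1)) ℝ := Matrix.vandermonde (fun t => ((t : ℕ) : ℝ))
  have hV : IsUnit V.det := by
    rw [isUnit_iff_ne_zero]
    refine Matrix.det_vandermonde_ne_zero_iff.mpr ?_
    intro x y h
    have h1 : ((x : ℕ) : ℝ) = ((y : ℕ) : ℝ) := h
    exact Fin.ext (by exact_mod_cast h1)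
  refine ⟨1 + ∑ i, ∑ t, |V⁻¹ i t|, ?_, ?_⟩
  · have : 0 ≤ ∑ i, ∑ t, |V⁻¹ i t| :=
      Finset.sum_nonneg (fun i _ => Finset.sum_nonneg (fun t _ => abs_nonneg _))
    linarith
  · intro a i hi
    let val : Fin (R + 1) → ℝ := fun t => ∑ l ∈ Finset.range (R + 1), a l * ((t : ℕ) : ℝ) ^ l
    obtain ⟨t0, -, ht0⟩ := Finset.exists_max_image (Finset.univ : Finset (Fin (R + 1)))
      (fun t => |val t|) ⟨0, Finset.mem_univ _⟩
    refine ⟨(t0 : ℕ), Nat.lt_succ_iff.mp t0.2, ?_⟩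
    have hval : V.mulVec (fun l : Fin (R + 1) => a l) = val := by
      funext t
      simp only [Matrix.mulVec, dotProduct, V, Matrix.vandermonde_apply, val]
      rw [Finset.sum_range]
      exact Finset.sum_congr rfl (fun l _ => mul_comm _ _)
    have hinv : V⁻¹.mulVec val = (fun l : Fin (R + 1) => a l) := by
      rw [← hval, Matrix.mulVec_mulVec, Matrix.nonsing_inv_mul _ hV, Matrix.one_mulVec]
    have hai : a i = ∑ t, V⁻¹ ⟨i, Nat.lt_succ_iff.mpr hi⟩ t * val t := by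
      have := congrFun hinv ⟨i, Nat.lt_succ_iff.mpr hi⟩
      simp only [Matrix.mulVec, dotProduct] at this
      exact this.symm
    have h1 : |a i| ≤ ∑ t, |V⁻¹ ⟨i, Nat.lt_succ_iff.mpr hi⟩ t| * |val t0| := by
      rw [hai]
      refine (Finset.abs_sum_le_sum_abs _ _).trans ?_
      refine Finset.sum_le_sum (fun t _ => ?_)
      rw [abs_mul]
      exact mul_le_mul_of_nonneg_left (ht0 t (Finset.mem_univ _)) (abs_nonneg _)
    rw [← Finset.sum_mul] at h1
    refine h1.trans ?_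
    refine mul_le_mul_of_nonneg_right ?_ (abs_nonneg _)
    have h2 : ∑ t, |V⁻¹ ⟨i, Nat.lt_succ_iff.mpr hi⟩ t| ≤ ∑ j, ∑ t, |V⁻¹ j t| :=
      Finset.single_le_sum (f := fun j => ∑ t, |V⁻¹ j t|)
        (fun j _ => Finset.sum_nonneg (fun t _ => abs_nonneg _)) (Finset.mem_univ _)
    linarith

end Pool.Agent.Helper91K9.EP
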