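import Pool.Agent.Helper91K9.EP.Net

/-!
# [FIN] the class of the problem
-/

set_option autoImplicit false

namespace Pool.Agent.Helper91K9.EP

open Set MeasureTheory
open Pool.Agent.Y933.KI

/-- the derivatives of `f`, the function itself being extended to the line -/
noncomputable def ext (f : ℝ → ℝ) (N : ℝ) (h : N ≤ 2 * N) : ℕ → ℝ → ℝ
  | 0 => IccExtend h ((Icc N (2 * N)).domRestrict f)
  | i + 1 => iteratedDerivWithin (i + 1) f (Icc N (2 * N))

theorem ext_zero (f : ℝ → ℝ) (N : ℝ) (h : N ≤ 2 * N) {x : ℝ} (hx : x ∈ Icc N (2 * N)) :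
    ext f N h 0 x = f x := by
  show IccExtend h ((Icc N (2 * N)).domRestrict f) x = f x
  rw [IccExtend_of_mem h _ hx]
  rfl

theorem adm_ext {c C F N : ℝ} {P : ℕ} {f : ℝ → ℝ} (hN : 2 ≤ N) (h : N ≤ 2 * N)
    (hf : ContDiffOn ℝ (⊤ : ℕ∞) f (Icc N (2 * N)))
    (hb : ∀ j ≤ P + 1, ∀ x ∈ Icc N (2 * N),
      c * F / N ^ j ≤ |iteratedDerivWithin j f (Icc N (2 * N)) x| ∧
      |iteratedDerivWithin j f (Icc N (2 * N)) x| ≤ C * F / N ^ j) :
    Adm c C F N P (ext f N h) := by
  have hlt : N < 2 * N := by linarith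
  have hU : UniqueDiffOn ℝ (Icc N (2 * N)) := uniqueDiffOn_Icc hlt
  have hder : ∀ j : ℕ, ∀ x ∈ Ioo N (2 * N),
      HasDerivAt (iteratedDerivWithin j f (Icc N (2 * N)))
        (iteratedDerivWithin (j + 1) f (Icc N (2 * N)) x) x := by
    intro j x hx
    have h1 : DifferentiableOn ℝ (iteratedDerivWithin j f (Icc N (2 * N))) (Icc N (2 * N)) :=
      hf.differentiableOn_iteratedDerivWithin (by exact_mod_cast ENat.natCast_lt_top j) hU
    have h2 := (h1 x (Ioo_subset_Icc_self hx)).hasDerivWithinAt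
    rw [iteratedDerivWithin_succ]
    exact h2.hasDerivAt (Icc_mem_nhds hx.1 hx.2)
  refine ⟨?_, ?_, ?_, ?_⟩
  · exact (continuousOn_iff_continuous_domRestrict.mp hf.continuousOn).Icc_extend'
  · intro i hi x hx
    cases i with
    | zero =>
      have h1 := hder 0 x hx
      rw [iteratedDerivWithin_zero] at h1
      refine h1.congr_of_eventuallyEq ?_
      filter_upwards [Icc_mem_nhds hx.1 hx.2] with y hy
      exact ext_zero f N h hy
    | succ i => exact hder (i + 1) x hx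
  · intro i hi x hx
    exact (hb (i + 1) (by omega) x (Ioo_subset_Icc_self hx)).1
  · intro i hi x hx
    exact (hb (i + 1) (by omega) x (Ioo_subset_Icc_self hx)).2

/-- [FIN] -/
theorem fin (hS : S_NET) : S_FIN := by
  intro ε hε B d
  obtain ⟨A, P, hnet⟩ := hS ε hε B d
  refine ⟨A, P + 1, fun c C hc => ?_⟩
  have hne : (Finset.range (P + 2)).Nonempty := ⟨0, Finset.mem_range.2 (by omega)⟩
  set c' : ℝ := (Finset.range (P + 2)).inf' hne c with hc'
  set C' : ℝ := max 1 ((Finset.range (P + 2)).sup' hne C) with hC'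
  have hc0 : 0 < c' := (Finset.lt_inf'_iff hne).2 fun j _ => hc j
  have hC1 : 1 ≤ C' := le_max_left _ _
  have hcj : ∀ j ≤ P + 1, c' ≤ c j := fun j hj =>
    Finset.inf'_le c (Finset.mem_range.2 (by omega))
  have hCj : ∀ j ≤ P + 1, C j ≤ C' := fun j hj =>
    (Finset.le_sup' C (Finset.mem_range.2 (by omega))).trans (le_max_right _ _)
  obtain ⟨K, hK⟩ := hnet c' C' hc0 hC1
  refine ⟨K, fun N F f hN hF hf hb => ?_⟩
  have hN0 : 0 < N := by linarith
  have hF0 : 0 < F := lt_of_lt_of_le (by positivity) hF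
  have h2N : N ≤ 2 * N := by linarith
  have hb' : ∀ j ≤ P + 1, ∀ x ∈ Icc N (2 * N),
      c' * F / N ^ j ≤ |iteratedDerivWithin j f (Icc N (2 * N)) x| ∧
      |iteratedDerivWithin j f (Icc N (2 * N)) x| ≤ C' * F / N ^ j := by
    intro j hj x hx
    obtain ⟨h1, h2⟩ := hb j hj x hx
    have hNj : 0 < N ^ j := by positivity
    constructor
    · refine le_trans ?_ h1
      have := hcj j hj
      gcongr
    · refine h2.trans ?_
      have := hCj j hj
      gcongr
  have hadm := adm_ext hN h2N hf hb'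
  have h0 : ∀ x ∈ Ioo N (2 * N), |ext f N h2N 0 x| ≤ C' * F := by
    intro x hx
    have hx' := Ioo_subset_Icc_self hx
    have h1 := (hb' 0 (by omega) x hx').2
    rw [iteratedDerivWithin_zero, pow_zero, div_one] at h1
    rw [ext_zero f N h2N hx']
    exact h1
  refine (measure_mono ?_).trans (hK F N (ext f N h2N) hN hF hadm h0)
  rintro p ⟨h1, h2, t, ht0, ht1, Q, hQ, N1, N2, hN1, h12, hN2, h3⟩
  refine ⟨h1, h2, t, ht0, ht1, Q, hQ, N1, N2, hN1, h12, hN2, ?_⟩
  refine h3.trans_eq ?_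
  congr 1
  refine Finset.sum_congr rfl (fun n hn => ?_)
  obtain ⟨hn1, hn2⟩ := Finset.mem_Icc.mp hn
  have hn1' : (N1 : ℝ) ≤ n := by exact_mod_cast hn1
  have hn2' : (n : ℝ) ≤ N2 := by exact_mod_cast hn2
  have hw := wv_mem hN (by linarith : N < (n : ℝ)) (by linarith) h1 h2
  rw [ext_zero f N h2N (Ioo_subset_Icc_self hw)]
  rfl

end Pool.Agent.Helper91K9.EP
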