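import Pool.Agent.Helper91K9.EP.Stm3

set_option autoImplicit false

namespace Pool.Agent.Helper91K9.EP

open Set MeasureTheory Filter
open Pool.Agent.Y933.KI

/-- the monomials `T n^j` with the nodes `log n` are a family -/
lemma fam_mono {M : ℕ} {j : ℤ} (hj : |j| ≤ M) {N : ℕ} (hN : 2 ≤ N) {T : ℝ} (hT : 0 < T) :
    Fam (T * ((2 * N : ℝ) ^ M)⁻¹) N (4 * M + 2) (fun n => T * (n : ℝ) ^ j)
      (fun n => Real.log n) := by
  have hN' : (2 : ℝ) ≤ N := by exact_mod_cast hN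
  have hN0 : (0 : ℝ) < N := by linarith
  have h2N : (1 : ℝ) ≤ 2 * N := by linarith
  have hj1 : -(M : ℤ) ≤ j := by
    have := neg_abs_le j
    omega
  have hj2 : j ≤ M := (le_abs_self j).trans hj
  have hlow : ∀ n : ℕ, (N : ℝ) < n → (n : ℝ) < 2 * N → ((2 * N : ℝ) ^ M)⁻¹ ≤ (n : ℝ) ^ j := by
    intro n h1 h2
    have hn0 : (1 : ℝ) ≤ n := by linarith
    calc ((2 * N : ℝ) ^ M)⁻¹ ≤ ((n : ℝ) ^ M)⁻¹ := by
          apply inv_anti₀ (by positivity)
          exact pow_le_pow_left₀ (by linarith) h2.le _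
      _ = (n : ℝ) ^ (-(M : ℤ)) := by rw [zpow_neg, zpow_natCast]
      _ ≤ (n : ℝ) ^ j := zpow_le_zpow_right₀ hn0 hj1
  have hup : ∀ n : ℕ, (N : ℝ) < n → (n : ℝ) < 2 * N → (n : ℝ) ^ j ≤ (2 * N : ℝ) ^ M := by
    intro n h1 h2
    have hn0 : (1 : ℝ) ≤ n := by linarith
    calc (n : ℝ) ^ j ≤ (n : ℝ) ^ (M : ℤ) := zpow_le_zpow_right₀ hn0 hj2
      _ = (n : ℝ) ^ M := zpow_natCast _ _
      _ ≤ (2 * N : ℝ) ^ M := pow_le_pow_left₀ (by linarith) h2.le _
  have h2NN : (2 * N : ℝ) ≤ N ^ 2 := by nlinarith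
  have h2Nb : (2 * N : ℝ) ≤ (N : ℝ) ^ (4 * M + 2) :=
    h2NN.trans (pow_le_pow_right₀ (by linarith) (by omega))
  have hpos : ∀ n : ℕ, (N : ℝ) < n → (0 : ℝ) < n := fun n h => hN0.trans h
  refine ⟨?_, ?_, ?_, ?_, ?_⟩
  · intro n h1 h2
    have := hlow n h1 h2
    have hn := hpos n h1
    rw [abs_of_pos (by positivity)]
    gcongr
  · intro n h1 h2
    have := hup n h1 h2
    have hn := hpos n h1
    rw [abs_of_pos (by positivity)]
    have h3 : (2 * N : ℝ) ^ M * (2 * N) ^ M ≤ (N : ℝ) ^ (4 * M + 2) := by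
      calc (2 * N : ℝ) ^ M * (2 * N) ^ M ≤ (N ^ 2 : ℝ) ^ M * (N ^ 2) ^ M := by gcongr
        _ = (N : ℝ) ^ (4 * M) := by rw [← pow_mul, ← pow_add]; congr 1; ring
        _ ≤ _ := pow_le_pow_right₀ (by linarith) (by omega)
    calc T * (n : ℝ) ^ j ≤ T * (2 * N) ^ M := by gcongr
      _ = (2 * N : ℝ) ^ M * (2 * N) ^ M * (T * ((2 * N : ℝ) ^ M)⁻¹) := by
          field_simp
      _ ≤ (N : ℝ) ^ (4 * M + 2) * (T * ((2 * N : ℝ) ^ M)⁻¹) := by gcongr
  · intro n h1 h2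
    have hn := hpos n h1
    have h3 : Real.log 2 ≤ Real.log n := Real.log_le_log (by norm_num) (by linarith)
    have h4 := Real.log_two_gt_d9
    have h5 : (1 : ℝ) / (N : ℝ) ^ (4 * M + 2) ≤ 1 / 2 := by
      apply one_div_le_one_div_of_le (by norm_num)
      linarith
    show 1 / (N : ℝ) ^ (4 * M + 2) ≤ Real.log n
    linarith
  · intro n h1 h2
    show Real.exp (Real.log n) ≤ _
    rw [Real.exp_log (hpos n h1)]
    linarith
  · intro n m h1 h2 h3 h4 h5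
    have key : ∀ n m : ℕ, (N : ℝ) < n → (m : ℝ) < 2 * N → n < m →
        1 / (N : ℝ) ^ (4 * M + 2) ≤ Real.log m - Real.log n := by
      intro n m h1 h2 h3
      have hn := hpos n h1
      have h4 : (n : ℝ) + 1 ≤ m := by exact_mod_cast h3
      have hm : (0 : ℝ) < m := by linarith
      have h6 : 1 - ((m : ℝ) / n)⁻¹ ≤ Real.log ((m : ℝ) / n) := Real.one_sub_inv_le_log_of_pos (by positivity)
      rw [Real.log_div hm.ne' hn.ne', inv_div] at h6
      have h7 : 1 - (n : ℝ) / m = (m - n) / m := by field_simp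
      rw [h7] at h6
      refine le_trans ?_ h6
      rw [div_le_div_iff₀ (by positivity) hm]
      nlinarith
    show 1 / (N : ℝ) ^ (4 * M + 2) ≤ |Real.log n - Real.log m|
    rcases lt_or_gt_of_ne h5 with h | h
    · have := key n m h1 h4 h
      rw [abs_sub_comm]
      exact this.trans (le_abs_self _)
    · exact (key m n h3 h2 h).trans (le_abs_self _)

/-- Almost every exponent. -/
theorem mono (hNET : S_NET1) : ∀ ε : ℝ, 0 < ε → ∀ B d M : ℕ, ∃ A : ℕ, ∀ T : ℕ → ℝ,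
    (∀ᶠ N : ℕ in atTop, (N : ℝ) ^ A ≤ T N) → ∀ᵐ α : ℝ, |α| ≤ M → ∀ᶠ N : ℕ in atTop,
    ∀ t : ℝ, 0 ≤ t → t ≤ (N : ℝ) ^ B → ∀ Q : Polynomial ℝ, Q.natDegree ≤ d →
    ∀ N1 N2 : ℕ, N < N1 → N1 ≤ N2 → N2 < 2 * N →
    ‖∑ n ∈ Finset.Icc N1 N2, Complex.exp (2 * (Real.pi : ℂ) * Complex.I *
      (((T N + t) * (n : ℝ) ^ α + Q.eval (n : ℝ) : ℝ) : ℂ))‖ ≤
    ((N2 : ℝ) - N1 + 1) ^ (1 / 2 : ℝ) * (N : ℝ) ^ ε := by
  intro ε hε B d M
  obtain ⟨A0, K, hK⟩ := hNET ε hε (B + 2) d (4 * M + 2)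
  refine ⟨A0 + 2 * M, fun T hT => ?_⟩
  obtain ⟨M0, hM0⟩ := eventually_atTop.mp hT
  set M1 : ℕ := max M0 2 with hM1
  -- the exceptional sets
  set E : ℤ → ℕ → Set ℝ := fun j N => {s : ℝ | s ∈ Icc (0 : ℝ) 1 ∧ ∃ t : ℝ, 0 ≤ t ∧
    t * (T N * ((2 * N : ℝ) ^ M)⁻¹) ≤ (N : ℝ) ^ (B + 2) ∧
    ∃ Q : Polynomial ℝ, Q.natDegree ≤ d ∧ ∃ N1 N2 : ℕ, (N : ℝ) < (N1 : ℝ) ∧ N1 ≤ N2 ∧
    (N2 : ℝ) < 2 * N ∧ ((N2 : ℝ) - N1 + 1) ^ (1 / 2 : ℝ) * (N : ℝ) ^ ε <
      ‖∑ n ∈ Finset.Icc N1 N2, Complex.exp (2 * (Real.pi : ℂ) * Complex.I *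
        (((1 + t) * ((T N * (n : ℝ) ^ j) * Real.exp (s * Real.log n)) + Q.eval (n : ℝ) : ℝ) : ℂ))‖}
    with hE
  have hTpos : ∀ N : ℕ, M1 ≤ N → 0 < T N := by
    intro N hN
    have h2 : 2 ≤ N := (le_max_right _ _).trans hN
    have h3 : (2 : ℝ) ≤ N := by exact_mod_cast h2
    exact lt_of_lt_of_le (by positivity) (hM0 N ((le_max_left _ _).trans hN))
  have hEvol : ∀ j : ℤ, |j| ≤ M → ∀ N : ℕ, M1 ≤ N →
      volume (E j N) ≤ ENNReal.ofReal (K / (N : ℝ) ^ (B + 2)) := by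
    intro j hj N hN
    have h2 : 2 ≤ N := (le_max_right _ _).trans hN
    have h3 : (2 : ℝ) ≤ N := by exact_mod_cast h2
    have hT0 := hTpos N hN
    refine hK (T N * ((2 * N : ℝ) ^ M)⁻¹) N (fun n => T N * (n : ℝ) ^ j) (fun n => Real.log n) h3 ?_
      (fam_mono hj h2 hT0)
    have h4 := hM0 N ((le_max_left _ _).trans hN)
    rw [← div_eq_mul_inv, le_div_iff₀ (by positivity)]
    refine le_trans ?_ h4
    rw [pow_add, pow_mul]
    have h5 : (2 * N : ℝ) ≤ N ^ 2 := by nlinarith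
    gcongr
  have hae : ∀ j : ℤ, |j| ≤ M → ∀ᵐ α : ℝ, ∀ᶠ N : ℕ in atTop, α - j ∉ (if M1 ≤ N then E j N else ∅) := by
    intro j hj
    have hsum : ∑' N, volume ((fun α : ℝ => α - j) ⁻¹' (if M1 ≤ N then E j N else ∅)) ≠ ⊤ := by
      have hle : ∀ N : ℕ, volume ((fun α : ℝ => α - j) ⁻¹' (if M1 ≤ N then E j N else ∅)) ≤
          ENNReal.ofReal (|K| / (N : ℝ) ^ 2) := by
        intro N
        by_cases hN : M1 ≤ N
        · have h2 : 2 ≤ N := (le_max_right _ _).trans hN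
          have h3 : (1 : ℝ) ≤ N := by
            have : (2 : ℝ) ≤ N := by exact_mod_cast h2
            linarith
          have e : (fun α : ℝ => α - j) = fun α => α + (-(j : ℝ)) := by
            funext α
            ring
          rw [if_pos hN, e, measure_preimage_add_right]
          refine (hEvol j hj N hN).trans ?_
          apply ENNReal.ofReal_le_ofReal
          calc K / (N : ℝ) ^ (B + 2) ≤ |K| / (N : ℝ) ^ (B + 2) := by
                have := le_abs_self K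
                gcongr
            _ ≤ |K| / (N : ℝ) ^ 2 := by
                have : (N : ℝ) ^ 2 ≤ (N : ℝ) ^ (B + 2) := pow_le_pow_right₀ h3 (by omega)
                gcongr
        · rw [if_neg hN, preimage_empty, measure_empty]
          exact zero_le
      refine ne_top_of_le_ne_top ?_ (ENNReal.tsum_le_tsum hle)
      rw [← ENNReal.ofReal_tsum_of_nonneg (fun N => by positivity)]
      · exact ENNReal.ofReal_ne_top
      · have := (Real.summable_one_div_nat_pow (p := 2)).mpr (by norm_num)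
        refine (this.mul_left |K|).congr (fun N => ?_)
        ring
    exact ae_eventually_notMem hsum
  have hall : ∀ᵐ α : ℝ, ∀ j : ℤ, |j| ≤ M → ∀ᶠ N : ℕ in atTop,
      α - j ∉ (if M1 ≤ N then E j N else ∅) := by
    rw [ae_all_iff]
    intro j
    by_cases hj : |j| ≤ (M : ℤ)
    · filter_upwards [hae j hj] with α hα _
      exact hα
    · exact Eventually.of_forall (fun α h => absurd h hj)
  filter_upwards [hall] with α hα hαM
  have hfl1 : (⌊α⌋ : ℝ) ≤ α := Int.floor_le α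
  have hfl2 : α < ⌊α⌋ + 1 := Int.lt_floor_add_one α
  have hj : |⌊α⌋| ≤ (M : ℤ) := by
    rw [abs_le] at hαM ⊢
    constructor
    · exact Int.le_floor.mpr (by push_cast; exact hαM.1)
    · have : (⌊α⌋ : ℝ) ≤ ((M : ℤ) : ℝ) := by push_cast; linarith [hαM.2]
      exact_mod_cast this
  filter_upwards [hα ⌊α⌋ hj, eventually_ge_atTop M1] with N hN hNM t ht0 ht1 Q hQ N1 N2 h1 h2 h3
  rw [if_pos hNM] at hN
  by_contra hcon
  push Not at hcon
  apply hN
  have hT0 := hTpos N hNM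
  have hN2 : 2 ≤ N := (le_max_right _ _).trans hNM
  have hN2' : (2 : ℝ) ≤ N := by exact_mod_cast hN2
  refine ⟨⟨by linarith, by linarith⟩, t / T N, by positivity, ?_, Q, hQ, N1, N2, by exact_mod_cast h1,
    h2, by exact_mod_cast h3, ?_⟩
  · have h4 : t / T N * (T N * ((2 * N : ℝ) ^ M)⁻¹) = t * ((2 * N : ℝ) ^ M)⁻¹ := by
      field_simp
    rw [h4]
    have h5 : ((2 * N : ℝ) ^ M)⁻¹ ≤ 1 := inv_le_one_of_one_le₀ (one_le_pow₀ (by linarith))
    calc t * ((2 * N : ℝ) ^ M)⁻¹ ≤ t * 1 := by gcongr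
      _ = t := mul_one t
      _ ≤ (N : ℝ) ^ B := ht1
      _ ≤ (N : ℝ) ^ (B + 2) := pow_le_pow_right₀ (by linarith) (by omega)
  · refine lt_of_lt_of_eq hcon ?_
    congr 1
    refine Finset.sum_congr rfl (fun n hn => ?_)
    obtain ⟨hn1, hn2⟩ := Finset.mem_Icc.mp hn
    have hn0 : (0 : ℝ) < n := by
      have : 0 < n := by omega
      exact_mod_cast this
    have h6 : (n : ℝ) ^ α = (n : ℝ) ^ ⌊α⌋ * Real.exp ((α - ⌊α⌋) * Real.log n) := by
      rw [← Real.rpow_intCast, ← Real.exp_log hn0, ← Real.exp_mul, ← Real.exp_mul, ← Real.exp_add,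
        Real.log_exp]
      congr 1
      ring
    have h7 : (T N + t) * (n : ℝ) ^ α =
        (1 + t / T N) * ((T N * (n : ℝ) ^ ⌊α⌋) * Real.exp ((α - ⌊α⌋) * Real.log n)) := by
      rw [h6]
      field_simp
    rw [h7]

end Pool.Agent.Helper91K9.EP
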