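import Pool.Agent.Helper91K9.EP.Stm2

set_option autoImplicit false

namespace Pool.Agent.Helper91K9.EP

open Set MeasureTheory
open Pool.Agent.Y933.KI

namespace FinaL

lemma minmax (P : ℕ) (c C : ℕ → ℝ) (hc : ∀ j, 0 < c j) :
    ∃ c' C' : ℝ, 0 < c' ∧ 1 ≤ C' ∧ ∀ j ≤ P, c' ≤ c j ∧ C j ≤ C' := by
  induction P with
  | zero =>
    refine ⟨c 0, max 1 (C 0), hc 0, le_max_left _ _, fun j hj => ?_⟩
    obtain rfl : j = 0 := by omega
    exact ⟨le_rfl, le_max_right _ _⟩
  | succ P ih =>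
    obtain ⟨c', C', h1, h2, h3⟩ := ih
    refine ⟨min c' (c (P + 1)), max C' (C (P + 1)), lt_min h1 (hc _), h2.trans (le_max_left _ _),
      fun j hj => ?_⟩
    rcases Nat.lt_succ_iff_lt_or_eq.mp (Nat.lt_succ_of_le hj) with h | rfl
    · obtain ⟨h4, h5⟩ := h3 j (by omega)
      exact ⟨(min_le_left _ _).trans h4, h5.trans (le_max_left _ _)⟩
    · exact ⟨min_le_right _ _, le_max_right _ _⟩

end FinaL

theorem fina (hASY : S_ASY) : S_FINA := by
  intro k hk
  obtain ⟨A, h0⟩ := hASY k hk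
  refine ⟨A, 2 * k + 2, fun c C hc => ?_⟩
  obtain ⟨c', C', hc', hC', hcC⟩ := FinaL.minmax (2 * k + 2) c C hc
  obtain ⟨K, hKpos, hK⟩ := h0 c' C' hc' hC'
  refine ⟨K, fun N F f hN hF hf hb r N1 N2 h1 h2 h3 => ?_⟩
  have hN0 : 0 < N := by linarith
  have hF0 : 0 < F := lt_of_lt_of_le (by positivity) hF
  have hlt : N < 2 * N := by linarith
  have hU : UniqueDiffOn ℝ (Icc N (2 * N)) := uniqueDiffOn_Icc hlt
  set S := Icc N (2 * N) with hS
  have hder : ∀ j : ℕ, ∀ x ∈ Ioo N (2 * N),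
      HasDerivAt (iteratedDerivWithin j f S) (iteratedDerivWithin (j + 1) f S x) x := by
    intro j x hx
    have h1 : DifferentiableOn ℝ (iteratedDerivWithin j f S) S :=
      hf.differentiableOn_iteratedDerivWithin (by exact_mod_cast ENat.natCast_lt_top j) hU
    have h2 := (h1 x (Ioo_subset_Icc_self hx)).hasDerivWithinAt
    rw [iteratedDerivWithin_succ]
    exact h2.hasDerivAt (Icc_mem_nhds hx.1 hx.2)
  have hfc : ContinuousOn f S := hf.continuousOn
  set g : ℝ → ℝ := IccExtend hlt.le (S.domRestrict f) with hg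
  have hgc : Continuous g := (continuousOn_iff_continuous_domRestrict.mp hfc).Icc_extend'
  have hgf : ∀ x ∈ S, g x = f x := by
    intro x hx
    rw [hg, IccExtend_of_mem hlt.le _ hx]
    rfl
  set φ : ℕ → ℝ → ℝ := fun i => if i = 0 then g else iteratedDerivWithin i f S with hφ
  have hφ0 : φ 0 = g := by rw [hφ]; simp
  have hφs : ∀ i, φ (i + 1) = iteratedDerivWithin (i + 1) f S := by intro i; rw [hφ]; simp
  have hAdm : Adm c' C' F N (2 * k + 1) φ := by
    refine ⟨by rw [hφ0]; exact hgc, ?_, ?_, ?_⟩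
    · intro i hi x hx
      rcases i with _ | i
      · rw [hφ0, hφs]
        have h1 := hder 0 x hx
        rw [iteratedDerivWithin_zero] at h1
        refine h1.congr_of_eventuallyEq ?_
        filter_upwards [Icc_mem_nhds hx.1 hx.2] with y hy
        exact hgf y hy
      · rw [hφs, hφs]
        exact hder (i + 1) x hx
    · intro i hi x hx
      rw [hφs]
      refine le_trans ?_ (hb (i + 1) (by omega) x (Ioo_subset_Icc_self hx)).1
      have := (hcC (i + 1) (by omega)).1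
      gcongr
    · intro i hi x hx
      rw [hφs]
      refine (hb (i + 1) (by omega) x (Ioo_subset_Icc_self hx)).2.trans ?_
      have := (hcC (i + 1) (by omega)).2
      gcongr
  have key := hK F N φ hN hF hAdm r N1 N2 h1 h2 h3
  have hcard : ((Finset.Icc N1 N2).card : ℝ) = (N2 : ℝ) - N1 + 1 := by
    rw [Nat.card_Icc, Nat.cast_sub (by omega)]
    push_cast
    ring
  rw [hcard] at key
  have hint : (∫ p in (Icc (0 : ℝ) 1) ×ˢ (Icc (0 : ℝ) 1), ‖∑ n ∈ Finset.Icc N1 N2,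
      Complex.exp (2 * (Real.pi : ℂ) * Complex.I *
        ((f ((n : ℝ) + p.1 * ((n : ℝ) / N) + p.2) + r n : ℝ) : ℂ))‖ ^ (2 * k)) =
      ∫ p in (Icc (0 : ℝ) 1) ×ˢ (Icc (0 : ℝ) 1), ‖ES2 N (φ 0) r (Finset.Icc N1 N2) p‖ ^ (2 * k) := by
    refine setIntegral_congr_fun (measurableSet_Icc.prod measurableSet_Icc) ?_
    intro p hp
    obtain ⟨hp1, hp2⟩ := Set.mem_prod.mp hp
    simp only
    congr 2
    rw [ES2]
    refine Finset.sum_congr rfl (fun n hn => ?_)
    obtain ⟨hn1, hn2⟩ := Finset.mem_Icc.mp hn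
    have h5 : (N1 : ℝ) ≤ n := by exact_mod_cast hn1
    have h6 : (n : ℝ) ≤ N2 := by exact_mod_cast hn2
    have h7 : wv N n p.1 p.2 ∈ S := by
      have h8 : 0 ≤ (n : ℝ) / N := by positivity
      have h9 : (n : ℝ) / N ≤ 2 := by
        rw [div_le_iff₀ hN0]
        linarith
      have h10 : p.1 * ((n : ℝ) / N) ≤ 2 := by
        calc p.1 * ((n : ℝ) / N) ≤ 1 * 2 := mul_le_mul hp1.2 h9 h8 zero_le_one
          _ = 2 := one_mul 2
      have h11 : 0 ≤ p.1 * ((n : ℝ) / N) := mul_nonneg hp1.1 h8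
      rw [wv]
      exact ⟨by linarith [hp2.1], by linarith [hp2.2]⟩
    rw [hφ0, hgf _ h7]
    rfl
  rw [hint]
  exact key

end Pool.Agent.Helper91K9.EP
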