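import Pool.Agent.Helper91K9.EP.Stm

/-!
# GRID: the unit square in `M × M'` rectangles
-/

set_option autoImplicit false

namespace Pool.Agent.Helper91K9.EP

open Set MeasureTheory

namespace GridL

/-- The interval `[0, 1]` in `M` equal pieces. -/
lemma split01 (G : ℝ → ℝ) (hG : Continuous G) (M : ℕ) (hM : 1 ≤ M) :
    ∫ x in (0 : ℝ)..1, G x =
      ∑ i ∈ Finset.range M, ∫ x in ((i : ℝ) / M)..(((i : ℝ) + 1) / M), G x := by
  have hM0 : (M : ℝ) ≠ 0 := by positivity
  have h := intervalIntegral.sum_integral_adjacent_intervals (f := G) (μ := volume)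
    (a := fun i : ℕ => (i : ℝ) / M) (n := M) (fun k _ => hG.intervalIntegrable _ _)
  simp only [Nat.cast_zero, zero_div, div_self hM0, Nat.cast_add, Nat.cast_one] at h
  exact h.symm

/-- The integral over the unit square is the sum of the integrals over the rectangles. -/
lemma square (H : ℝ → ℝ → ℝ) (hc : Continuous (fun p : ℝ × ℝ => H p.1 p.2)) (M M' : ℕ)
    (hM : 1 ≤ M) (hM' : 1 ≤ M') :
    ∫ p in (Icc (0 : ℝ) 1) ×ˢ (Icc (0 : ℝ) 1), H p.1 p.2 =
      ∑ j ∈ Finset.range M', ∑ i ∈ Finset.range M,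
        ∫ u in ((j : ℝ) / M')..(((j : ℝ) + 1) / M'),
          ∫ s in ((i : ℝ) / M)..(((i : ℝ) + 1) / M), H s u := by
  have hc' : Continuous (fun p : ℝ × ℝ => H p.2 p.1) := hc.comp continuous_swap
  have hpar : ∀ a b : ℝ, Continuous (fun u => ∫ s in a..b, H s u) := fun a b =>
    intervalIntegral.continuous_parametric_intervalIntegral_of_continuous' hc' a b
  have hin : ∀ u : ℝ, Continuous (fun s => H s u) := fun u =>
    hc.comp (continuous_id.prodMk continuous_const)
  have h1 : ∫ p in (Icc (0 : ℝ) 1) ×ˢ (Icc (0 : ℝ) 1), H p.1 p.2 =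
      ∫ u in Icc (0 : ℝ) 1, ∫ s in Icc (0 : ℝ) 1, H s u := by
    have e1 := setIntegral_prod_swap (μ := (volume : Measure ℝ)) (ν := (volume : Measure ℝ))
      (Icc (0 : ℝ) 1) (Icc (0 : ℝ) 1) (fun p : ℝ × ℝ => H p.1 p.2)
    have hint : IntegrableOn (fun p : ℝ × ℝ => H p.2 p.1) ((Icc (0 : ℝ) 1) ×ˢ (Icc (0 : ℝ) 1))
        ((volume : Measure ℝ).prod (volume : Measure ℝ)) := by
      rw [← Measure.volume_eq_prod]
      exact hc'.continuousOn.integrableOn_compact (isCompact_Icc.prod isCompact_Icc)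
    have e2 := setIntegral_prod (μ := (volume : Measure ℝ)) (ν := (volume : Measure ℝ))
      (fun p : ℝ × ℝ => H p.2 p.1) (s := Icc (0 : ℝ) 1) (t := Icc (0 : ℝ) 1) hint
    rw [Measure.volume_eq_prod, ← e2, ← e1]
    rfl
  rw [h1]
  have h2 : ∀ u : ℝ, ∫ s in Icc (0 : ℝ) 1, H s u = ∫ s in (0 : ℝ)..1, H s u := fun u => by
    rw [intervalIntegral.integral_of_le zero_le_one, integral_Icc_eq_integral_Ioc]
  simp only [h2]
  rw [integral_Icc_eq_integral_Ioc, ← intervalIntegral.integral_of_le zero_le_one,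
    split01 _ (hpar 0 1) M' hM']
  refine Finset.sum_congr rfl fun j _ => ?_
  have h3 : ∀ u : ℝ, ∫ s in (0 : ℝ)..1, H s u =
      ∑ i ∈ Finset.range M, ∫ s in ((i : ℝ) / M)..(((i : ℝ) + 1) / M), H s u := fun u =>
    split01 _ (hin u) M hM
  simp only [h3]
  exact intervalIntegral.integral_finsetSum fun i _ => (hpar _ _).intervalIntegrable _ _

end GridL

/-- From thin rectangles to the unit square. -/
theorem grid : S_RECT → S_GRID := by
  intro hR H hc hH M M' hM hM' R E hR0 hE0 h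
  have hM0 : (0 : ℝ) < M := by exact_mod_cast hM
  have hM0' : (0 : ℝ) < M' := by exact_mod_cast hM'
  rw [GridL.square H hc M M' hM hM']
  refine (Finset.abs_sum_le_sum_abs _ _).trans ?_
  have hb : ∀ j ∈ Finset.range M', ∀ i ∈ Finset.range M,
      |∫ u in ((j : ℝ) / M')..(((j : ℝ) + 1) / M'),
          ∫ s in ((i : ℝ) / M)..(((i : ℝ) + 1) / M), H s u| ≤
        E / (M * M') + 2 * R / (M' : ℝ) ^ 2 := by
    intro j hj i hi
    obtain ⟨a, ha, haR, ha'⟩ := h i (Finset.mem_range.1 hi) j (Finset.mem_range.1 hj)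
    have e1 : ((i : ℝ) + 1) / M = (i : ℝ) / M + 1 / M := by rw [add_div]
    have e2 : ((j : ℝ) + 1) / M' = (j : ℝ) / M' + 1 / M' := by rw [add_div]
    rw [e1] at ha'
    have := hR H hc hH ((i : ℝ) / M) ((j : ℝ) / M') (1 / M) (1 / M') a (E / M') (by positivity)
      (by positivity) ha ha'
    rw [e1, e2]
    refine this.trans ?_
    have e3 : 1 / (M : ℝ) * (E / M') = E / (M * M') := by
      field_simp
    have e4 : 2 * a * (1 / (M' : ℝ)) ^ 2 = 2 * a / (M' : ℝ) ^ 2 := by
      rw [one_div, inv_pow]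
      rfl
    rw [e3, e4]
    gcongr
  calc ∑ j ∈ Finset.range M', |∑ i ∈ Finset.range M,
        ∫ u in ((j : ℝ) / M')..(((j : ℝ) + 1) / M'),
          ∫ s in ((i : ℝ) / M)..(((i : ℝ) + 1) / M), H s u|
      ≤ ∑ j ∈ Finset.range M', ∑ i ∈ Finset.range M, (E / (M * M') + 2 * R / (M' : ℝ) ^ 2) :=
        Finset.sum_le_sum fun j hj => (Finset.abs_sum_le_sum_abs _ _).trans
          (Finset.sum_le_sum fun i hi => hb j hj i hi)
    _ = E + 2 * R * M / M' := by
        rw [Finset.sum_const, Finset.sum_const, Finset.card_range, Finset.card_range,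
          nsmul_eq_mul, nsmul_eq_mul]
        field_simp

end Pool.Agent.Helper91K9.EP
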