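import Pool.Agent.Helper91K9.EP.Stm

/-! Leaf [LINE] (helper46): one line. -/

set_option autoImplicit false
set_option maxHeartbeats 1000000

namespace Pool.Agent.Helper91K9.EP

open Set MeasureTheory
open Pool.Agent.Y933.KI

namespace LineL

lemma wv_mem {N : ℝ} (hN : 2 ≤ N) {n : ℕ} (h1 : N < n) (h2 : (n : ℝ) + 4 < 2 * N) {s u : ℝ}
    (hs : s ∈ Icc (0 : ℝ) (3 / 2)) (hu : u ∈ Icc (0 : ℝ) 1) : wv N n s u ∈ Ioo N (2 * N) := by
  unfold wv
  have hN0 : 0 < N := by linarith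
  have h3 : (n : ℝ) / N ≤ 2 := by rw [div_le_iff₀ hN0]; linarith
  have h4 : 0 ≤ (n : ℝ) / N := by positivity
  obtain ⟨s0, s1⟩ := hs
  obtain ⟨u0, u1⟩ := hu
  have h5 : 0 ≤ s * ((n : ℝ) / N) := mul_nonneg s0 h4
  have h6 : s * ((n : ℝ) / N) ≤ 3 / 2 * 2 := mul_le_mul s1 h3 h4 (by norm_num)
  constructor <;> linarith

lemma wv_der (N : ℝ) (n a : ℕ) (σ h u0 τ : ℝ) :
    HasDerivAt (fun τ : ℝ => wv N n (σ + a * (h * τ)) (u0 + h * τ)) (h * (1 + (a : ℝ) * ((n : ℝ) / N))) τ := by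
  unfold wv
  have h1 : HasDerivAt (fun τ : ℝ => h * τ) h τ := by
    simpa using (hasDerivAt_id τ).const_mul h
  have h2 : HasDerivAt (fun τ : ℝ => (σ + a * (h * τ)) * ((n : ℝ) / N)) ((a * h) * ((n : ℝ) / N)) τ :=
    ((h1.const_mul (a : ℝ)).const_add σ).mul_const _
  have h3 : HasDerivAt (fun τ : ℝ => u0 + h * τ) h τ := h1.const_add u0
  have h4 := (h2.const_add (n : ℝ)).add h3
  refine h4.congr_deriv ?_
  ring

lemma term_der {c C F N : ℝ} {P : ℕ} {φ : ℕ → ℝ → ℝ} (hA : Adm c C F N P φ) (n a p : ℕ) (hp : p ≤ P)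
    (σ h u0 τ : ℝ) (hm : wv N n (σ + a * (h * τ)) (u0 + h * τ) ∈ Ioo N (2 * N)) :
    HasDerivAt (fun τ : ℝ => (1 + (a : ℝ) * ((n : ℝ) / N)) ^ p * φ p (wv N n (σ + a * (h * τ)) (u0 + h * τ)))
      (h * ((1 + (a : ℝ) * ((n : ℝ) / N)) ^ (p + 1) * φ (p + 1) (wv N n (σ + a * (h * τ)) (u0 + h * τ)))) τ := by
  have h1 := (hA.der p hp _ hm).comp τ (wv_der N n a σ h u0 τ)
  have h2 := h1.const_mul ((1 + (a : ℝ) * ((n : ℝ) / N)) ^ p)
  refine h2.congr_deriv ?_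
  ring

lemma VV_der {c C F N : ℝ} {P : ℕ} {φ : ℕ → ℝ → ℝ} (hA : Adm c C F N P φ) {k : ℕ} (x y : Fin k → ℕ) (a p : ℕ)
    (hp : p ≤ P) (σ h u0 τ : ℝ) (hx : ∀ l, wv N (x l) (σ + a * (h * τ)) (u0 + h * τ) ∈ Ioo N (2 * N))
    (hy : ∀ l, wv N (y l) (σ + a * (h * τ)) (u0 + h * τ) ∈ Ioo N (2 * N)) :
    HasDerivAt (fun τ : ℝ => VV N φ x y a p (σ + a * (h * τ)) (u0 + h * τ))
      (h * VV N φ x y a (p + 1) (σ + a * (h * τ)) (u0 + h * τ)) τ := by
  unfold VV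
  have h1 := HasDerivAt.fun_sum (u := Finset.univ) (fun l _ => term_der hA (x l) a p hp σ h u0 τ (hx l))
  have h2 := HasDerivAt.fun_sum (u := Finset.univ) (fun l _ => term_der hA (y l) a p hp σ h u0 τ (hy l))
  refine (h1.sub h2).congr_deriv ?_
  rw [mul_sub, Finset.mul_sum, Finset.mul_sum]

lemma VV_bd {c C F N : ℝ} {P : ℕ} {φ : ℕ → ℝ → ℝ} (hA : Adm c C F N P φ) (hN : 2 ≤ N)
    {k : ℕ} (x y : Fin k → ℕ) (hx : Ok N x) (hy : Ok N y) (a p : ℕ) (ha : a ≤ 2 * k) (hp : p ≤ P) {s u : ℝ}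
    (hs : s ∈ Icc (0 : ℝ) (3 / 2)) (hu : u ∈ Icc (0 : ℝ) 1) :
    |VV N φ x y a (p + 1) s u| ≤ 2 * k * ((4 * k + 1 : ℝ) ^ (p + 1) * (C * F / N ^ (p + 1))) := by
  have hN0 : 0 < N := by linarith
  have ht : ∀ n : ℕ, N < n → (n : ℝ) + 4 < 2 * N →
      |(1 + (a : ℝ) * ((n : ℝ) / N)) ^ (p + 1) * φ (p + 1) (wv N n s u)| ≤
        (4 * k + 1 : ℝ) ^ (p + 1) * (C * F / N ^ (p + 1)) := by
    intro n h1 h2
    have h3 : (n : ℝ) / N ≤ 2 := by rw [div_le_iff₀ hN0]; linarith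
    have h4 : 0 ≤ (n : ℝ) / N := by positivity
    have ha' : (a : ℝ) ≤ 2 * k := by exact_mod_cast ha
    have h5 : (1 + (a : ℝ) * ((n : ℝ) / N)) ≤ 4 * k + 1 := by
      have : (a : ℝ) * ((n : ℝ) / N) ≤ 2 * k * 2 := mul_le_mul ha' h3 h4 (by positivity)
      linarith
    have h6 : 0 ≤ 1 + (a : ℝ) * ((n : ℝ) / N) := by positivity
    rw [abs_mul, abs_of_nonneg (pow_nonneg h6 _)]
    exact mul_le_mul (pow_le_pow_left₀ h6 h5 _) (hA.up p hp _ (wv_mem hN h1 h2 hs hu)) (abs_nonneg _)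
      (by positivity)
  unfold VV
  have e1 : ∀ z : Fin k → ℕ, Ok N z →
      |∑ l, (1 + (a : ℝ) * ((z l : ℝ) / N)) ^ (p + 1) * φ (p + 1) (wv N (z l) s u)| ≤
        k * ((4 * k + 1 : ℝ) ^ (p + 1) * (C * F / N ^ (p + 1))) := by
    intro z hz
    refine (Finset.abs_sum_le_sum_abs _ _).trans ?_
    refine (Finset.sum_le_sum fun l _ => ht (z l) (hz l).1 (hz l).2).trans ?_
    rw [Finset.sum_const, Finset.card_univ, Fintype.card_fin, nsmul_eq_mul]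
  have h1 := e1 x hx
  have h2 := e1 y hy
  refine (abs_sub _ _).trans ?_
  linarith

end LineL

open LineL

/-- **LINE** -/
theorem line : S_LINE := by
  intro k hk C hC
  set U : ℝ := 2 * k * (4 * k + 1 : ℝ) ^ (2 * k + 1) * C with hU
  have hkr : (1 : ℝ) ≤ k := by exact_mod_cast hk
  have hU1 : 1 ≤ U := by
    have h1 : (1 : ℝ) ≤ (4 * k + 1 : ℝ) ^ (2 * k + 1) := one_le_pow₀ (by linarith)
    have h2 : (1 : ℝ) ≤ 2 * k := by linarith
    rw [hU]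
    calc (1 : ℝ) = 1 * 1 * 1 := by norm_num
      _ ≤ 2 * k * (4 * k + 1 : ℝ) ^ (2 * k + 1) * C := by gcongr
  refine ⟨30 * 2 ^ (2 * k) * U ^ 2, by positivity, ?_⟩
  intro c F N φ hF hN hA q x y hx hy a ha σ h u0 hh hh1 hσ hσ1 hu0 hu1 hNF lam hl0 hl1 hlow
  have hN0 : 0 < N := by linarith
  have hmem : ∀ τ ∈ Icc (0 : ℝ) 1, σ + a * (h * τ) ∈ Icc (0 : ℝ) (3 / 2) ∧ u0 + h * τ ∈ Icc (0 : ℝ) 1 := by
    intro τ hτ
    obtain ⟨t0, t1⟩ := hτ
    have h1 : 0 ≤ h * τ := by positivity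
    have h2 : h * τ ≤ h := by nlinarith
    have h3 : (a : ℝ) * (h * τ) ≤ a * h := mul_le_mul_of_nonneg_left h2 (Nat.cast_nonneg a)
    have h4 : 0 ≤ (a : ℝ) * (h * τ) := by positivity
    exact ⟨⟨by linarith, by linarith⟩, ⟨by linarith, by linarith⟩⟩
  have hwx : ∀ τ ∈ Icc (0 : ℝ) 1, ∀ l, wv N (x l) (σ + a * (h * τ)) (u0 + h * τ) ∈ Ioo N (2 * N) :=
    fun τ hτ l => wv_mem hN (hx l).1 (hx l).2 (hmem τ hτ).1 (hmem τ hτ).2
  have hwy : ∀ τ ∈ Icc (0 : ℝ) 1, ∀ l, wv N (y l) (σ + a * (h * τ)) (u0 + h * τ) ∈ Ioo N (2 * N) :=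
    fun τ hτ l => wv_mem hN (hy l).1 (hy l).2 (hmem τ hτ).1 (hmem τ hτ).2
  have hch : Chain (fun i τ => VV N φ x y a (i + 1) (σ + a * (h * τ)) (u0 + h * τ) * (N / F)) (fun _ => h)
      (fun τ => ph N φ q x y (σ + a * (h * τ)) (u0 + h * τ)) (2 * k) h 1 U (h * F / N) := by
    refine ⟨by omega, hh, hh1, le_rfl, hU1, ?_, fun i _ => ?_, fun i _ => ?_, fun i hi τ hτ => ?_,
      fun i hi τ hτ => ?_, fun τ hτ => ?_⟩
    · rwa [one_le_div hN0]
    · rw [abs_of_pos hh]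
    · rwa [abs_of_pos hh]
    · have h1 := VV_bd hA hN x y hx hy a i ha (by omega) (hmem τ hτ).1 (hmem τ hτ).2
      rw [abs_mul, abs_of_pos (div_pos hN0 hF)]
      calc |VV N φ x y a (i + 1) (σ + a * (h * τ)) (u0 + h * τ)| * (N / F) ≤
          2 * k * ((4 * k + 1 : ℝ) ^ (i + 1) * (C * F / N ^ (i + 1))) * (N / F) :=
            mul_le_mul_of_nonneg_right h1 (div_pos hN0 hF).le
        _ = 2 * k * (4 * k + 1 : ℝ) ^ (i + 1) * C * (1 / N ^ i) := by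
            rw [pow_succ N]
            field_simp
        _ ≤ 2 * k * (4 * k + 1 : ℝ) ^ (2 * k + 1) * C * 1 := by
            have h2 : (4 * k + 1 : ℝ) ^ (i + 1) ≤ (4 * k + 1 : ℝ) ^ (2 * k + 1) :=
              pow_le_pow_right₀ (by linarith) (by omega)
            have h3 : 1 / N ^ i ≤ 1 := by
              rw [div_le_one (by positivity)]
              exact one_le_pow₀ (by linarith)
            gcongr
        _ = U := by rw [hU, mul_one]
    · have h1 := (VV_der hA x y a (i + 1) (by omega) σ h u0 τ (hwx τ hτ) (hwy τ hτ)).mul_const (N / F)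
      refine h1.congr_deriv ?_
      ring
    · have h1 := VV_der hA x y a 0 (by omega) σ h u0 τ (hwx τ hτ) (hwy τ hτ)
      have e : ∀ s u : ℝ, ph N φ q x y s u = 2 * Real.pi * VV N φ x y a 0 s u +
          2 * Real.pi * (∑ l, q (x l) - ∑ l, q (y l)) := by
        intro s u
        unfold ph VV
        simp only [pow_zero, one_mul, Finset.sum_add_distrib]
        ring
      simp only [e]
      have h2 := (h1.const_mul (2 * Real.pi)).add_const (2 * Real.pi * (∑ l, q (x l) - ∑ l, q (y l)))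
      refine h2.congr_deriv ?_
      field_simp
  have key := total hch hl0 hl1 (fun τ hτ => ⟨2 * k - 1, by omega, ?_⟩)
  · have e1 : ∫ v in (0 : ℝ)..h, Real.cos (ph N φ q x y (σ + a * v) (u0 + v)) =
        h * ∫ τ in (0 : ℝ)..1, Real.cos (ph N φ q x y (σ + a * (h * τ)) (u0 + h * τ)) := by
      have := intervalIntegral.mul_integral_comp_mul_left (a := 0) (b := 1)
        (f := fun v => Real.cos (ph N φ q x y (σ + a * v) (u0 + v))) h
      rw [mul_zero, mul_one] at this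
      exact this.symm
    rw [e1, abs_mul, abs_of_pos hh]
    refine mul_le_mul_of_nonneg_left (key.trans (le_of_eq ?_)) hh.le
    congr 1
    · have e2 : 2 * (2 * k) = 4 * k := by ring
      rw [e2]
      ring
    · congr 2
      push_cast
      ring
  · have e3 : 2 * k - 1 + 1 = 2 * k := by omega
    have h1 := hlow (h * τ) ⟨by have := hτ.1; positivity, by have := hτ.2; nlinarith⟩
    simp only [e3]
    rw [abs_mul, abs_of_pos (div_pos hN0 hF)]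
    calc lam = lam * F / N * (N / F) := by field_simp
      _ ≤ _ := mul_le_mul_of_nonneg_right h1 (div_pos hN0 hF).le

end Pool.Agent.Helper91K9.EP
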