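import Pool.Agent.Helper91K9.EP.Stm

/-!
# LIP: the derivatives in the directions `(a, 1)` are Lipschitz
-/

set_option autoImplicit false

namespace Pool.Agent.Helper91K9.EP

open Set MeasureTheory

namespace LipL

lemma wv_mem {N : ℝ} (hN : 2 ≤ N) {n : ℕ} (h1 : N < (n : ℝ)) (h2 : (n : ℝ) + 4 < 2 * N) {s u : ℝ}
    (hs : s ∈ Icc (0 : ℝ) (3 / 2)) (hu : u ∈ Icc (0 : ℝ) 1) : wv N n s u ∈ Ioo N (2 * N) := by
  have hN0 : 0 < N := by linarith
  have hq0 : 0 ≤ (n : ℝ) / N := by positivity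
  have hq2 : (n : ℝ) / N ≤ 2 := by
    rw [div_le_iff₀ hN0]
    linarith
  have h3 : 0 ≤ s * ((n : ℝ) / N) := mul_nonneg hs.1 hq0
  have h4 : s * ((n : ℝ) / N) ≤ 3 / 2 * 2 := mul_le_mul hs.2 hq2 hq0 (by norm_num)
  refine ⟨?_, ?_⟩
  · unfold wv
    have := hu.1
    linarith
  · unfold wv
    have := hu.2
    linarith

/-- One term. -/
lemma term {k : ℕ} {c C F N : ℝ} {φ : ℕ → ℝ → ℝ} (hF : 0 < F) (hN : 2 ≤ N) (hC : 0 ≤ C)
    (hA : Adm c C F N (2 * k + 1) φ) {n : ℕ} (h1 : N < (n : ℝ)) (h2 : (n : ℝ) + 4 < 2 * N)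
    {a : ℕ} (ha : a ≤ 2 * k) {s s' u u' δ : ℝ}
    (hs : s ∈ Icc (0 : ℝ) (3 / 2)) (hs' : s' ∈ Icc (0 : ℝ) (3 / 2))
    (hu : u ∈ Icc (0 : ℝ) 1) (hu' : u' ∈ Icc (0 : ℝ) 1) (hδs : |s - s'| ≤ δ)
    (hδu : |u - u'| ≤ δ) :
    |(1 + (a : ℝ) * ((n : ℝ) / N)) ^ (2 * k) * φ (2 * k) (wv N n s u) -
      (1 + (a : ℝ) * ((n : ℝ) / N)) ^ (2 * k) * φ (2 * k) (wv N n s' u')| ≤
      (4 * k + 1) ^ (2 * k) * (C * F / N ^ (2 * k + 1) * (3 * δ)) := by
  have hN0 : 0 < N := by linarith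
  have hq0 : 0 ≤ (n : ℝ) / N := by positivity
  have hq2 : (n : ℝ) / N ≤ 2 := by
    rw [div_le_iff₀ hN0]
    linarith
  have hmvt := Convex.norm_image_sub_le_of_norm_hasDerivWithin_le (f := φ (2 * k))
    (f' := φ (2 * k + 1)) (C := C * F / N ^ (2 * k + 1)) (s := Ioo N (2 * N))
    (x := wv N n s' u') (y := wv N n s u)
    (fun x hx => (hA.der (2 * k) (by omega) x hx).hasDerivWithinAt)
    (fun x hx => by
      rw [Real.norm_eq_abs]
      exact hA.up (2 * k) (by omega) x hx) (convex_Ioo N (2 * N))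
    (wv_mem hN h1 h2 hs' hu') (wv_mem hN h1 h2 hs hu)
  rw [Real.norm_eq_abs, Real.norm_eq_abs] at hmvt
  have hw : |wv N n s u - wv N n s' u'| ≤ 3 * δ := by
    have e : wv N n s u - wv N n s' u' = (s - s') * ((n : ℝ) / N) + (u - u') := by
      unfold wv
      ring
    rw [e]
    have h3 : |(s - s') * ((n : ℝ) / N)| ≤ δ * 2 := by
      rw [abs_mul, abs_of_nonneg hq0]
      exact mul_le_mul hδs hq2 hq0 ((abs_nonneg _).trans hδs)
    have h4 := abs_add_le ((s - s') * ((n : ℝ) / N)) (u - u')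
    linarith
  have h5 : (1 + (a : ℝ) * ((n : ℝ) / N)) ^ (2 * k) ≤ (4 * (k : ℝ) + 1) ^ (2 * k) := by
    have ha' : (a : ℝ) ≤ 2 * k := by exact_mod_cast ha
    have h6 : (a : ℝ) * ((n : ℝ) / N) ≤ 2 * k * 2 :=
      mul_le_mul ha' hq2 hq0 (by positivity)
    refine pow_le_pow_left₀ (by positivity) ?_ _
    linarith
  have h7 : 0 ≤ (1 + (a : ℝ) * ((n : ℝ) / N)) ^ (2 * k) := by positivity
  rw [← mul_sub, abs_mul, abs_of_nonneg h7]
  refine mul_le_mul h5 (hmvt.trans ?_) (abs_nonneg _) (by positivity)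
  exact mul_le_mul_of_nonneg_left hw (by positivity)

end LipL

/-- The derivatives in the directions `(a, 1)` are Lipschitz. -/
theorem lip : S_LIP := by
  intro k hk c C F N φ hF hN hC hA x y hx hy a ha s hs s' hs' u hu u' hu' δ hδs hδu
  have e : VV N φ x y a (2 * k) s u - VV N φ x y a (2 * k) s' u' =
      ∑ l, ((1 + (a : ℝ) * ((x l : ℝ) / N)) ^ (2 * k) * φ (2 * k) (wv N (x l) s u) -
        (1 + (a : ℝ) * ((x l : ℝ) / N)) ^ (2 * k) * φ (2 * k) (wv N (x l) s' u')) -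
      ∑ l, ((1 + (a : ℝ) * ((y l : ℝ) / N)) ^ (2 * k) * φ (2 * k) (wv N (y l) s u) -
        (1 + (a : ℝ) * ((y l : ℝ) / N)) ^ (2 * k) * φ (2 * k) (wv N (y l) s' u')) := by
    rw [Finset.sum_sub_distrib, Finset.sum_sub_distrib]
    unfold VV
    ring
  rw [e]
  have hb : ∀ z : Fin k → ℕ, Ok N z →
      |∑ l, ((1 + (a : ℝ) * ((z l : ℝ) / N)) ^ (2 * k) * φ (2 * k) (wv N (z l) s u) -
        (1 + (a : ℝ) * ((z l : ℝ) / N)) ^ (2 * k) * φ (2 * k) (wv N (z l) s' u'))| ≤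
      k * ((4 * k + 1) ^ (2 * k) * (C * F / N ^ (2 * k + 1) * (3 * δ))) := by
    intro z hz
    refine (Finset.abs_sum_le_sum_abs _ _).trans ?_
    refine (Finset.sum_le_sum fun l _ => LipL.term hF hN hC hA (hz l).1 (hz l).2 ha hs hs' hu hu'
      hδs hδu).trans (le_of_eq ?_)
    rw [Finset.sum_const, Finset.card_univ, Fintype.card_fin, nsmul_eq_mul]
  refine (abs_sub _ _).trans ((add_le_add (hb x hx) (hb y hy)).trans (le_of_eq ?_))
  ring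

end Pool.Agent.Helper91K9.EP
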