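import Pool.Agent.Helper91K9.EP.Stm

set_option autoImplicit false

namespace Pool.Agent.Helper91K9.EP

open Set MeasureTheory
open Pool.Agent.Y933.KI

namespace LowL

lemma mem_IJ {N : ℝ} {n : ℕ} (h1 : N < (n : ℝ)) (h2 : (n : ℝ) + 4 < 2 * N) (hN : 2 ≤ N) {s u : ℝ}
    (hs : s ∈ Icc (0 : ℝ) (3 / 2)) (hu : u ∈ Icc (0 : ℝ) 1) : wv N n s u ∈ Ioo N (2 * N) := by
  have hN0 : 0 < N := by linarith
  have h3 : (n : ℝ) / N ≤ 2 := by
    rw [div_le_iff₀ hN0]; linarith
  have h4 : 0 ≤ (n : ℝ) / N := by positivity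
  have h5 : s * ((n : ℝ) / N) ≤ 3 := by
    calc s * ((n : ℝ) / N) ≤ (3 / 2) * 2 := mul_le_mul hs.2 h3 h4 (by norm_num)
      _ = 3 := by norm_num
  have h6 : 0 ≤ s * ((n : ℝ) / N) := mul_nonneg hs.1 h4
  refine ⟨?_, ?_⟩ <;> · unfold wv; linarith [hu.1, hu.2]

end LowL

open LowL

theorem low : S_COEF → S_LOW := by
  classical
  intro hcoef k hk
  obtain ⟨K0, hK0, hco⟩ := hcoef (2 * k)
  refine ⟨K0 * 4 ^ (2 * k), ?_, ?_⟩
  · have : (1 : ℝ) ≤ 4 ^ (2 * k) := one_le_pow₀ (by norm_num)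
    nlinarith
  intro c C F N φ hc hF hN hA x y hx hy hne s hs u hu
  have hN0 : 0 < N := by linarith
  set A : Finset ℕ := Finset.univ.image x ∪ Finset.univ.image y with hAd
  set J : Finset ℕ := A.filter (fun j => mu x y j ≠ 0) with hJ
  obtain ⟨j0, hj0⟩ := hne
  have hmemA : ∀ j ∈ A, N < (j : ℝ) ∧ (j : ℝ) + 4 < 2 * N := by
    intro j hj
    rcases Finset.mem_union.mp hj with h | h
    · obtain ⟨l, _, rfl⟩ := Finset.mem_image.mp h
      exact hx l
    · obtain ⟨l, _, rfl⟩ := Finset.mem_image.mp h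
      exact hy l
  have hj0A : j0 ∈ A := by
    by_contra hcon
    apply hj0
    have h1 : Finset.univ.filter (fun l => x l = j0) = ∅ := by
      rw [Finset.filter_eq_empty_iff]
      intro l _ hl
      exact hcon (Finset.mem_union_left _ (hl ▸ Finset.mem_image_of_mem x (Finset.mem_univ l)))
    have h2 : Finset.univ.filter (fun l => y l = j0) = ∅ := by
      rw [Finset.filter_eq_empty_iff]
      intro l _ hl
      exact hcon (Finset.mem_union_right _ (hl ▸ Finset.mem_image_of_mem y (Finset.mem_univ l)))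
    rw [mu, h1, h2]
    simp
  have hj0J : j0 ∈ J := Finset.mem_filter.mpr ⟨hj0A, hj0⟩
  have hcard : J.card ≤ 2 * k := by
    calc J.card ≤ A.card := Finset.card_filter_le _ _
      _ ≤ (Finset.univ.image x).card + (Finset.univ.image y).card := Finset.card_union_le _ _
      _ ≤ (Finset.univ : Finset (Fin k)).card + (Finset.univ : Finset (Fin k)).card :=
          add_le_add Finset.card_image_le Finset.card_image_le
      _ = 2 * k := by rw [Finset.card_univ, Fintype.card_fin]; ring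
  have hjb : ∀ j ∈ J, N < (j : ℝ) ∧ (j : ℝ) + 4 < 2 * N :=
    fun j hj => hmemA j (Finset.filter_subset _ _ hj)
  set w : ℕ → ℝ := fun j => (mu x y j : ℝ) * φ (2 * k) (wv N j s u) with hw
  have hexp : ∀ a : ℕ, VV N φ x y a (2 * k) s u =
      ∑ j ∈ J, w j * (1 + (a : ℝ) * ((j : ℝ) / N)) ^ (2 * k) := by
    intro a
    rw [VV, sum_fib x A (fun l => Finset.mem_union_left _ (Finset.mem_image_of_mem x
        (Finset.mem_univ l))) (fun j => (1 + (a : ℝ) * ((j : ℝ) / N)) ^ (2 * k) *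
          φ (2 * k) (wv N j s u)),
      sum_fib y A (fun l => Finset.mem_union_right _ (Finset.mem_image_of_mem y
        (Finset.mem_univ l))) (fun j => (1 + (a : ℝ) * ((j : ℝ) / N)) ^ (2 * k) *
          φ (2 * k) (wv N j s u)), ← Finset.sum_sub_distrib]
    have e1 : ∀ j ∈ A, ((Finset.univ.filter (fun l => x l = j)).card : ℝ) *
          ((1 + (a : ℝ) * ((j : ℝ) / N)) ^ (2 * k) * φ (2 * k) (wv N j s u)) -
        ((Finset.univ.filter (fun l => y l = j)).card : ℝ) *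
          ((1 + (a : ℝ) * ((j : ℝ) / N)) ^ (2 * k) * φ (2 * k) (wv N j s u)) =
        w j * (1 + (a : ℝ) * ((j : ℝ) / N)) ^ (2 * k) := by
      intro j _
      rw [hw]
      simp only [mu]
      push_cast
      ring
    rw [Finset.sum_congr rfl e1, hJ]
    refine (Finset.sum_subset (Finset.filter_subset _ _) (fun j hj hj2 => ?_)).symm
    have h0 : mu x y j = 0 := by
      by_contra hcon
      exact hj2 (Finset.mem_filter.mpr ⟨hj, hcon⟩)
    rw [hw]
    simp [h0]
  obtain ⟨i, hi, hi2⟩ := vand (fun j => (j : ℝ) / (2 * N)) (δ := 1 / (2 * N)) (by positivity)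
    (j0 := j0) (J.erase j0) (Finset.notMem_erase j0 J)
    (fun j hj => by
      have h1 := hjb j (Finset.mem_of_mem_erase hj)
      rw [abs_of_nonneg (by positivity), div_le_one (by positivity)]
      linarith [h1.2])
    (fun j hj => by
      have h5 : j0 ≠ j := (Finset.ne_of_mem_erase hj).symm
      have h6 : (1 : ℝ) ≤ |(j0 : ℝ) - j| := by
        have : (1 : ℤ) ≤ |(j0 : ℤ) - j| := Int.one_le_abs (by omega)
        exact_mod_cast this
      rw [← sub_div, abs_div, abs_of_pos (by positivity : 0 < 2 * N)]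
      exact div_le_div_of_nonneg_right h6 (by positivity))
    w
  rw [Finset.insert_erase hj0J] at hi2
  have hce : (J.erase j0).card = J.card - 1 := Finset.card_erase_of_mem hj0J
  have hJpos : 0 < J.card := Finset.card_pos.mpr ⟨j0, hj0J⟩
  obtain ⟨t, ht, ht2⟩ := hco (fun l => ((2 * k).choose l : ℝ) * 2 ^ l *
    ∑ j ∈ J, w j * ((j : ℝ) / (2 * N)) ^ l) i (by omega)
  refine ⟨t, ht, ?_⟩
  have e3 : ∑ l ∈ Finset.range (2 * k + 1), (((2 * k).choose l : ℝ) * 2 ^ l *
      ∑ j ∈ J, w j * ((j : ℝ) / (2 * N)) ^ l) * (t : ℝ) ^ l = VV N φ x y t (2 * k) s u := by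
    rw [hexp]
    have e4 : ∀ j ∈ J, w j * (1 + (t : ℝ) * ((j : ℝ) / N)) ^ (2 * k) =
        ∑ l ∈ Finset.range (2 * k + 1), ((2 * k).choose l : ℝ) * 2 ^ l *
          (w j * ((j : ℝ) / (2 * N)) ^ l) * (t : ℝ) ^ l := by
      intro j _
      have e5 : (1 + (t : ℝ) * ((j : ℝ) / N)) = (2 * t * ((j : ℝ) / (2 * N)) + 1) := by
        field_simp
        ring
      rw [e5, add_pow, Finset.mul_sum]
      refine Finset.sum_congr rfl (fun l _ => ?_)
      rw [one_pow, mul_one, mul_pow, mul_pow]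
      ring
    rw [Finset.sum_congr rfl e4, Finset.sum_comm]
    refine Finset.sum_congr rfl (fun l _ => ?_)
    rw [Finset.mul_sum, Finset.sum_mul]
  rw [e3] at ht2
  have h7 : (1 : ℝ) ≤ |(mu x y j0 : ℝ)| := by exact_mod_cast Int.one_le_abs hj0
  have h8 : c * F / N ^ (2 * k) ≤ |φ (2 * k) (wv N j0 s u)| := by
    have h := hA.low (2 * k - 1) (by omega) (wv N j0 s u)
      (mem_IJ (hjb j0 hj0J).1 (hjb j0 hj0J).2 hN hs hu)
    have e : 2 * k - 1 + 1 = 2 * k := by omega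
    rwa [e] at h
  have h9 : c * F / N ^ (2 * k) ≤ |w j0| := by
    rw [hw]
    simp only
    rw [abs_mul]
    calc c * F / N ^ (2 * k) ≤ 1 * |φ (2 * k) (wv N j0 s u)| := by rw [one_mul]; exact h8
      _ ≤ _ := mul_le_mul_of_nonneg_right h7 (abs_nonneg _)
  have h10 : (1 / (4 * N)) ^ (2 * k) ≤ (1 / (2 * N) / 2) ^ (J.erase j0).card := by
    have e2 : (1 : ℝ) / (2 * N) / 2 = 1 / (4 * N) := by
      rw [div_div]
      congr 1
      ring
    rw [e2]
    apply pow_le_pow_of_le_one (by positivity) _ (by omega)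
    rw [div_le_one (by positivity)]
    linarith
  have h11 : c * F / N ^ (2 * k) * (1 / (4 * N)) ^ (2 * k) ≤
      |∑ j ∈ J, w j * ((j : ℝ) / (2 * N)) ^ i| :=
    (mul_le_mul h9 h10 (by positivity) (abs_nonneg _)).trans hi2
  have h12 : |∑ j ∈ J, w j * ((j : ℝ) / (2 * N)) ^ i| ≤
      |((2 * k).choose i : ℝ) * 2 ^ i * ∑ j ∈ J, w j * ((j : ℝ) / (2 * N)) ^ i| := by
    rw [abs_mul]
    have h13 : (1 : ℝ) ≤ |((2 * k).choose i : ℝ) * 2 ^ i| := by
      have h14 : (1 : ℝ) ≤ ((2 * k).choose i : ℝ) := by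
        have : 1 ≤ (2 * k).choose i := Nat.choose_pos (by omega)
        exact_mod_cast this
      have h15 : (1 : ℝ) ≤ 2 ^ i := one_le_pow₀ (by norm_num)
      rw [abs_of_nonneg (by positivity)]
      nlinarith
    nlinarith [abs_nonneg (∑ j ∈ J, w j * ((j : ℝ) / (2 * N)) ^ i)]
  have h16 : c * F / N ^ (2 * k) * (1 / (4 * N)) ^ (2 * k) ≤ K0 * |VV N φ x y t (2 * k) s u| :=
    h11.trans (h12.trans ht2)
  have e6 : c * F / (K0 * 4 ^ (2 * k) * N ^ (4 * k)) =
      c * F / N ^ (2 * k) * (1 / (4 * N)) ^ (2 * k) / K0 := by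
    have e7 : N ^ (4 * k) = N ^ (2 * k) * N ^ (2 * k) := by rw [← pow_add]; congr 1; ring
    rw [e7, div_pow, one_pow, mul_pow]
    have : K0 ≠ 0 := by linarith
    field_simp
  rw [e6, div_le_iff₀ (by linarith)]
  linarith [mul_comm K0 |VV N φ x y t (2 * k) s u|]

end Pool.Agent.Helper91K9.EP
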