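import Pool.Agent.Helper91K9.EP.Stm3

/-! # EP: [MOM1] -/

set_option autoImplicit false

namespace Pool.Agent.Helper91K9.EP

open Set MeasureTheory
open Pool.Agent.Y933.KI

namespace Mom1L

/-- the phases of the power -/
noncomputable def th1 (a y q : ℕ → ℝ) {k : ℕ} (x : Fin k → ℕ) (s : ℝ) : ℝ :=
  2 * Real.pi * ∑ l, (a (x l) * Real.exp (s * y (x l)) + q (x l))

theorem ES1_pow (a y q : ℕ → ℝ) (I : Finset ℕ) (k : ℕ) (s : ℝ) :
    ‖ES1 a y q I s‖ ^ (2 * k) = ∑ x ∈ Fintype.piFinset (fun _ : Fin k => I),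
      ∑ z ∈ Fintype.piFinset (fun _ : Fin k => I), Real.cos (th1 a y q x s - th1 a y q z s) := by
  have h1 : (ES1 a y q I s) ^ k = ∑ x ∈ Fintype.piFinset (fun _ : Fin k => I),
      Complex.exp (((th1 a y q x s : ℝ) : ℂ) * Complex.I) := by
    rw [ES1, Finset.sum_pow']
    refine Finset.sum_congr rfl (fun x _ => ?_)
    rw [← Complex.exp_sum, th1]
    congr 1
    push_cast
    rw [Finset.mul_sum, Finset.sum_mul]
    refine Finset.sum_congr rfl (fun l _ => ?_)
    ring
  rw [mul_comm 2 k, pow_mul, ← norm_pow, Complex.sq_norm, Complex.normSq_apply, h1,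
    Complex.re_sum, Complex.im_sum]
  simp only [Complex.exp_ofReal_mul_I_re, Complex.exp_ofReal_mul_I_im]
  rw [Finset.sum_mul_sum, Finset.sum_mul_sum, ← Finset.sum_add_distrib]
  refine Finset.sum_congr rfl (fun x _ => ?_)
  rw [← Finset.sum_add_distrib]
  refine Finset.sum_congr rfl (fun y _ => ?_)
  rw [Real.cos_sub]

theorem th1_cont (a y q : ℕ → ℝ) {k : ℕ} (x : Fin k → ℕ) : Continuous (th1 a y q x) := by
  unfold th1
  fun_prop

theorem ES1_cont (a y q : ℕ → ℝ) (I : Finset ℕ) : Continuous (ES1 a y q I) := by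
  unfold ES1
  fun_prop

end Mom1L

open Mom1L in
theorem mom1 (hoff0 : S_OFF1) : S_MOM1 := by
  intro k hk b
  obtain ⟨A, K, hK, hoff⟩ := hoff0 k hk b
  refine ⟨A, k ^ k + 2 ^ k * K, by positivity, fun F N a y hN hF h q N1 N2 hN1 hN2 => ?_⟩
  have hN0 : (0 : ℝ) < N := by linarith
  set I := Finset.Icc N1 N2 with hI
  set P' := Fintype.piFinset (fun _ : Fin k => I) with hP
  have hmem : ∀ x ∈ P', ∀ l, N < x l ∧ (x l : ℝ) < 2 * N := by
    intro x hx l
    have h1 := Fintype.mem_piFinset.mp hx l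
    obtain ⟨h2, h3⟩ := Finset.mem_Icc.mp h1
    have h2' : (N1 : ℝ) ≤ x l := by exact_mod_cast h2
    have h3' : (x l : ℝ) ≤ N2 := by exact_mod_cast h3
    exact ⟨by linarith, by linarith⟩
  have hN1' : 1 ≤ N1 := by
    have : (1 : ℝ) < N1 := by linarith
    exact_mod_cast this.le
  have hcardI : (I.card : ℝ) ≤ 2 * N := by
    have h1 : I.card ≤ N2 := by
      rw [hI, Nat.card_Icc]
      omega
    have h2 : (I.card : ℝ) ≤ (N2 : ℝ) := by exact_mod_cast h1
    linarith
  have hcardP : (P'.card : ℝ) = (I.card : ℝ) ^ k := by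
    rw [hP, Fintype.card_piFinset_const]
    push_cast
    rfl
  have hcardP2 : (P'.card : ℝ) ≤ (2 * N) ^ k := by
    rw [hcardP]
    exact pow_le_pow_left₀ (Nat.cast_nonneg _) hcardI k
  have hcc : ∀ x z : Fin k → ℕ, Continuous (fun s => Real.cos (th1 a y q x s - th1 a y q z s)) :=
    fun x z => Real.continuous_cos.comp ((th1_cont a y q x).sub (th1_cont a y q z))
  have hii : ∀ x z : Fin k → ℕ,
      IntervalIntegrable (fun s => Real.cos (th1 a y q x s - th1 a y q z s)) volume 0 1 :=
    fun x z => (hcc x z).intervalIntegrable _ _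
  simp only [ES1_pow]
  rw [intervalIntegral.integral_finsetSum]
  swap
  · intro x hx
    exact (continuous_finsetSum P' (fun z _ => hcc x z)).intervalIntegrable _ _
  have htriv : ∀ θ : ℝ → ℝ, ∫ s in (0 : ℝ)..1, Real.cos (θ s) ≤ 1 := by
    intro θ
    have h3 : ∀ x ∈ Set.uIoc (0 : ℝ) 1, ‖Real.cos (θ x)‖ ≤ 1 := fun x _ => Real.abs_cos_le_one _
    have h4 := intervalIntegral.norm_integral_le_of_norm_le_const h3
    rw [Real.norm_eq_abs] at h4
    have := le_abs_self (∫ x in (0 : ℝ)..1, Real.cos (θ x))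
    norm_num at h4
    linarith
  have hone : ∀ x ∈ P', ∫ s in (0 : ℝ)..1, ∑ z ∈ P', Real.cos (th1 a y q x s - th1 a y q z s) ≤
      k ^ k + (2 * N) ^ k * (K / N ^ k) := by
    intro x hx
    rw [intervalIntegral.integral_finsetSum (fun z _ => hii x z)]
    classical
    set Dg := P'.filter (fun z => ∀ j, mu x z j = 0) with hDg
    set Of := P'.filter (fun z => ¬ ∀ j, mu x z j = 0) with hOf
    rw [← Finset.sum_filter_add_sum_filter_not P' (fun z => ∀ j, mu x z j = 0)]
    have hDgc : Dg.card ≤ k ^ k := by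
      have h1 : Dg ⊆ Fintype.piFinset (fun _ : Fin k => Finset.univ.image x) := by
        intro z hz
        rw [Fintype.mem_piFinset]
        intro l
        have h2 := (Finset.mem_filter.mp hz).2 (z l)
        rw [mu, sub_eq_zero] at h2
        have h3 : 0 < (Finset.univ.filter (fun m => z m = z l)).card :=
          Finset.card_pos.mpr ⟨l, Finset.mem_filter.mpr ⟨Finset.mem_univ l, rfl⟩⟩
        have h4 : 0 < (Finset.univ.filter (fun m => x m = z l)).card := by
          have : ((Finset.univ.filter (fun m => x m = z l)).card : ℤ) =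
              (Finset.univ.filter (fun m => z m = z l)).card := h2
          omega
        obtain ⟨m, hm⟩ := Finset.card_pos.mp h4
        exact Finset.mem_image.mpr ⟨m, Finset.mem_univ m, (Finset.mem_filter.mp hm).2⟩
      refine (Finset.card_le_card h1).trans ?_
      rw [Fintype.card_piFinset_const]
      apply Nat.pow_le_pow_left
      exact Finset.card_image_le.trans (by rw [Finset.card_univ, Fintype.card_fin])
    have hA : ∑ z ∈ Dg, ∫ s in (0 : ℝ)..1, Real.cos (th1 a y q x s - th1 a y q z s) ≤ (k : ℝ) ^ k := by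
      calc ∑ z ∈ Dg, ∫ s in (0 : ℝ)..1, Real.cos (th1 a y q x s - th1 a y q z s)
          ≤ ∑ z ∈ Dg, (1 : ℝ) := Finset.sum_le_sum (fun z _ => htriv _)
        _ = Dg.card := by simp
        _ ≤ (k : ℝ) ^ k := by exact_mod_cast hDgc
    have hB : ∑ z ∈ Of, ∫ s in (0 : ℝ)..1, Real.cos (th1 a y q x s - th1 a y q z s) ≤
        (2 * N : ℝ) ^ k * (K / N ^ k) := by
      calc ∑ z ∈ Of, ∫ s in (0 : ℝ)..1, Real.cos (th1 a y q x s - th1 a y q z s)
          ≤ ∑ z ∈ Of, (K / N ^ k) := by
            refine Finset.sum_le_sum (fun z hz => ?_)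
            obtain ⟨hzP, hz2⟩ := Finset.mem_filter.mp hz
            push Not at hz2
            exact (le_abs_self _).trans (hoff F N a y hN hF h q x z (hmem x hx) (hmem z hzP) hz2)
        _ = Of.card * (K / N ^ k) := by rw [Finset.sum_const, nsmul_eq_mul]
        _ ≤ P'.card * (K / N ^ k) := by
            have : (Of.card : ℝ) ≤ P'.card := by exact_mod_cast Finset.card_filter_le _ _
            gcongr
        _ ≤ _ := by gcongr
    exact add_le_add hA hB
  refine (Finset.sum_le_sum hone).trans ?_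
  rw [Finset.sum_const, nsmul_eq_mul, hcardP]
  apply le_of_eq
  have hNk : N ^ k ≠ 0 := by positivity
  rw [mul_pow]
  field_simp

end Pool.Agent.Helper91K9.EP
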