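import Pool.Agent.Helper91K9.EP.Stm

/-!
# [NET] all the polynomial phases and a window of multipliers at the same time
-/

set_option autoImplicit false

namespace Pool.Agent.Helper91K9.EP

open Set MeasureTheory
open Pool.Agent.Y933.KI

theorem adm_mul {c C F N : ℝ} {P : ℕ} {φ : ℕ → ℝ → ℝ} (h : Adm c C F N P φ) {s : ℝ} (hs : 0 ≤ s) :
    Adm c C ((1 + s) * F) N P (fun i x => (1 + s) * φ i x) := by
  have h1 : 0 < 1 + s := by linarith
  refine ⟨continuous_const.mul h.cont, fun i hi x hx => (h.der i hi x hx).const_mul (1 + s),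
    fun i hi x hx => ?_, fun i hi x hx => ?_⟩
  · rw [abs_mul, abs_of_pos h1]
    have := mul_le_mul_of_nonneg_left (h.low i hi x hx) h1.le
    refine le_trans (le_of_eq ?_) this
    ring
  · rw [abs_mul, abs_of_pos h1]
    have := mul_le_mul_of_nonneg_left (h.up i hi x hx) h1.le
    refine this.trans (le_of_eq ?_)
    ring

theorem wv_mem {N : ℝ} (hN : 2 ≤ N) {n : ℕ} (h1 : N < n) (h2 : (n : ℝ) + 4 < 2 * N) {s u : ℝ}
    (hs : s ∈ Icc (0 : ℝ) 1) (hu : u ∈ Icc (0 : ℝ) 1) : wv N n s u ∈ Ioo N (2 * N) := by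
  have hN0 : 0 < N := by linarith
  have h3 : 0 ≤ (n : ℝ) / N := by positivity
  have h4 : (n : ℝ) / N ≤ 2 := by rw [div_le_iff₀ hN0]; linarith
  have h5 : s * ((n : ℝ) / N) ≤ 2 := by nlinarith [hs.1, hs.2]
  have h6 : 0 ≤ s * ((n : ℝ) / N) := mul_nonneg hs.1 h3
  unfold wv
  constructor <;> linarith [hu.1, hu.2]

/-- [NET] -/
theorem net (hS : S_SNG) : S_NET := by
  intro ε hε B d
  obtain ⟨A, P, hsing0⟩ := hS ε hε (B + (2 + (B + 1) + (d + 1) ^ 2))
  refine ⟨A, P, fun c C hc hC => ?_⟩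
  obtain ⟨K, hK, hsing⟩ := hsing0 c C hc hC
  refine ⟨25 * (65 * C) * (64 * (d + 1) * 2 ^ d * 2 ^ (d + 1)) ^ (d + 1) * K, ?_⟩
  intro F N φ hN hF hφ hφ0
  have hN' : (1 : ℝ) ≤ N := by linarith
  have hN0 : (0 : ℝ) < N := by linarith
  have hF0 : (0 : ℝ) < F := lt_of_lt_of_le (by positivity) hF
  have hC0 : (0 : ℝ) < C := by linarith
  set N' : ℕ := ⌈N⌉₊ with hNN
  have hNle : N ≤ N' := Nat.le_ceil N
  have hNge : (N' : ℝ) ≤ 2 * N := by
    have := Nat.ceil_lt_add_one hN0.le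
    linarith
  have hN'0 : (0 : ℝ) < N' := by linarith
  set H : ℝ := 64 * C * F * N with hH
  set M : ℕ := 64 * (d + 1) * 2 ^ d * N' ^ (d + 1) with hM
  have hMr : (M : ℝ) = 64 * (d + 1) * 2 ^ d * (N' : ℝ) ^ (d + 1) := by rw [hM]; push_cast; ring
  have hH0 : (0 : ℝ) < H := by rw [hH]; positivity
  have hM0 : (0 : ℝ) < M := by rw [hMr]; positivity
  set J : ℕ := ⌊64 * C * N ^ (B + 1)⌋₊ + 1 with hJ
  set qc : (Fin (d + 1) → ℕ) → ℕ → ℝ := fun c n => ∑ i, ((c i : ℝ) / M) * (n : ℝ) ^ (i : ℕ) with hqc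
  set fj : ℕ → ℕ → ℝ → ℝ := fun j i x => (1 + j / H) * φ i x with hfj
  set Idx : Finset ((ℕ × ℕ) × (ℕ × (Fin (d + 1) → ℕ))) :=
    ((Finset.Icc 0 (2 * N') ×ˢ Finset.Icc 0 (2 * N')).filter
      (fun p => N < (p.1 : ℝ) ∧ (p.2 : ℝ) + 4 < 2 * N ∧ p.1 ≤ p.2)) ×ˢ
      (Finset.range J ×ˢ Fintype.piFinset (fun _ : Fin (d + 1) => Finset.range M)) with hIdx
  have hsub : {p : ℝ × ℝ | p.1 ∈ Icc (0 : ℝ) 1 ∧ p.2 ∈ Icc (0 : ℝ) 1 ∧ ∃ t : ℝ, 0 ≤ t ∧
      t * F ≤ N ^ B ∧ ∃ Q : Polynomial ℝ, Q.natDegree ≤ d ∧ ∃ N1 N2 : ℕ, N < (N1 : ℝ) ∧ N1 ≤ N2 ∧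
      (N2 : ℝ) + 4 < 2 * N ∧ ((N2 : ℝ) - N1 + 1) ^ (1 / 2 : ℝ) * N ^ ε <
      ‖∑ n ∈ Finset.Icc N1 N2, Complex.exp (2 * (Real.pi : ℂ) * Complex.I *
        (((1 + t) * φ 0 (wv N n p.1 p.2) + Q.eval (n : ℝ) : ℝ) : ℂ))‖} ⊆
      ⋃ p ∈ Idx, {z : ℝ × ℝ | z.1 ∈ Icc (0 : ℝ) 1 ∧ z.2 ∈ Icc (0 : ℝ) 1 ∧
        ((Finset.Icc p.1.1 p.1.2).card : ℝ) ^ (1 / 2 : ℝ) * N ^ ε / 2 <
        ‖ES2 N (fj p.2.1 0) (qc p.2.2) (Finset.Icc p.1.1 p.1.2) z‖} := by
    rintro u ⟨hs, hu, t, ht0, ht1, Q, hQ, N1, N2, h1, h, h2, h3⟩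
    set j : ℕ := ⌊t * H⌋₊ with hj
    have hj1 : (j : ℝ) ≤ t * H := Nat.floor_le (mul_nonneg ht0 hH0.le)
    have hj2 : t * H < j + 1 := Nat.lt_floor_add_one _
    have hj3 : j < J := by
      have h4 : t * H ≤ 64 * C * N ^ (B + 1) := by
        calc t * H = 64 * C * (t * F * N) := by rw [hH]; ring
          _ ≤ 64 * C * (N ^ B * N) := by gcongr
          _ = 64 * C * N ^ (B + 1) := by rw [pow_succ]
      have h5 : j ≤ ⌊64 * C * N ^ (B + 1)⌋₊ := Nat.floor_le_floor h4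
      omega
    set c : Fin (d + 1) → ℕ := fun i => ⌊Int.fract (Q.coeff i) * M⌋₊ with hc
    have hc1 : ∀ i : Fin (d + 1), (c i : ℝ) ≤ Int.fract (Q.coeff i) * M := fun i =>
      Nat.floor_le (mul_nonneg (Int.fract_nonneg _) hM0.le)
    have hc2 : ∀ i : Fin (d + 1), Int.fract (Q.coeff i) * M < c i + 1 :=
      fun i => Nat.lt_floor_add_one _
    have hc3 : ∀ i : Fin (d + 1), c i < M := by
      intro i
      have h4 : Int.fract (Q.coeff i) * M < M := by
        have := Int.fract_lt_one (Q.coeff i)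
        nlinarith
      exact_mod_cast (hc1 i).trans_lt h4
    set τ : ℝ := t - j / H with hτ
    have hτ0 : 0 ≤ τ := by
      rw [hτ, sub_nonneg, div_le_iff₀ hH0]
      exact hj1
    have hτ1 : τ ≤ 1 / H := by
      have : t < (j + 1) / H := by rw [lt_div_iff₀ hH0]; exact hj2
      rw [add_div] at this
      rw [hτ]
      linarith
    have h12 : (N1 : ℝ) ≤ N2 := by exact_mod_cast h
    have hN1b : N1 ≤ 2 * N' := by
      have : (N1 : ℝ) ≤ ((2 * N' : ℕ) : ℝ) := by push_cast; linarith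
      exact_mod_cast this
    have hN2b : N2 ≤ 2 * N' := by
      have : (N2 : ℝ) ≤ ((2 * N' : ℕ) : ℝ) := by push_cast; linarith
      exact_mod_cast this
    rw [mem_iUnion₂]
    refine ⟨((N1, N2), (j, c)), ?_, hs, hu, ?_⟩
    · rw [hIdx, Finset.mem_product, Finset.mem_product, Finset.mem_filter, Finset.mem_product,
        Finset.mem_Icc, Finset.mem_Icc, Finset.mem_range, Fintype.mem_piFinset]
      exact ⟨⟨⟨⟨Nat.zero_le _, hN1b⟩, ⟨Nat.zero_le _, hN2b⟩⟩, h1, h2, h⟩, hj3,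
        fun i => Finset.mem_range.mpr (hc3 i)⟩
    · show ((Finset.Icc N1 N2).card : ℝ) ^ (1 / 2 : ℝ) * N ^ ε / 2 <
        ‖ES2 N (fj j 0) (qc c) (Finset.Icc N1 N2) u‖
      have hcard' : ((Finset.Icc N1 N2).card : ℝ) = (N2 : ℝ) - N1 + 1 := by
        rw [Nat.card_Icc, Nat.cast_sub (by omega)]
        push_cast
        ring
      have hcard1 : 1 ≤ ((Finset.Icc N1 N2).card : ℝ) := by
        rw [hcard']
        linarith
      rw [← hcard'] at h3
      set V : ℝ := ((Finset.Icc N1 N2).card : ℝ) ^ (1 / 2 : ℝ) * N ^ ε with hV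
      have hV1 : 1 ≤ V := by
        rw [hV]
        exact one_le_mul_of_one_le_of_one_le (Real.one_le_rpow hcard1 (by norm_num))
          (Real.one_le_rpow hN' hε.le)
      have hcmp := compare (Finset.Icc N1 N2)
        (fun n => (1 + t) * φ 0 (wv N n u.1 u.2) + Q.eval (n : ℝ))
        (fun n => fj j 0 (wv N n u.1 u.2) + qc c n)
        (fun n => τ * φ 0 (wv N n u.1 u.2) +
          ∑ i : Fin (d + 1), (Int.fract (Q.coeff i) - c i / M) * (n : ℝ) ^ (i : ℕ))
        0 (fun n => ∑ i : Fin (d + 1), ⌊Q.coeff i⌋ * (n : ℤ) ^ (i : ℕ))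
        (r := 1 / (32 * N)) ?_ ?_
      · have hcard : ((Finset.Icc N1 N2).card : ℝ) ≤ 2 * N := by
          rw [hcard']
          linarith
        have h5 : ((Finset.Icc N1 N2).card : ℝ) * (2 * Real.pi * (1 / (32 * N))) ≤ 1 / 2 := by
          calc ((Finset.Icc N1 N2).card : ℝ) * (2 * Real.pi * (1 / (32 * N)))
              ≤ 2 * N * (2 * Real.pi * (1 / (32 * N))) := by gcongr
            _ = Real.pi / 8 := by field_simp; ring
            _ ≤ 1 / 2 := by linarith [Real.pi_le_four]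
        have h6 : ‖ES2 N (fj j 0) (qc c) (Finset.Icc N1 N2) u‖ =
            ‖∑ n ∈ Finset.Icc N1 N2, Complex.exp (2 * (Real.pi : ℂ) * Complex.I *
              ((fj j 0 (wv N n u.1 u.2) + qc c n : ℝ) : ℂ))‖ := rfl
        rw [h6]
        linarith
      · intro n hn
        have e1 : Q.eval (n : ℝ) = ∑ i : Fin (d + 1), Q.coeff i * (n : ℝ) ^ (i : ℕ) := by
          rw [Polynomial.eval_eq_sum_range' (Nat.lt_succ_of_le hQ),
            Finset.sum_range (fun i => Q.coeff i * (n : ℝ) ^ i)]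
        have e2 : ∀ i : Fin (d + 1), Q.coeff i * (n : ℝ) ^ (i : ℕ) =
            ((c i : ℝ) / M) * (n : ℝ) ^ (i : ℕ) +
            (Int.fract (Q.coeff i) - c i / M) * (n : ℝ) ^ (i : ℕ) +
            ((⌊Q.coeff i⌋ : ℤ) : ℝ) * (n : ℝ) ^ (i : ℕ) := by
          intro i
          have := Int.floor_add_fract (Q.coeff i)
          nth_rewrite 1 [← this]
          ring
        have e3 : fj j 0 (wv N n u.1 u.2) = (1 + j / H) * φ 0 (wv N n u.1 u.2) := rfl
        simp only [e1, hqc, e3]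
        rw [Finset.sum_congr rfl (fun i _ => e2 i), Finset.sum_add_distrib, Finset.sum_add_distrib]
        push_cast
        rw [hτ]
        ring
      · intro n hn
        obtain ⟨hn1, hn2⟩ := Finset.mem_Icc.mp hn
        have h4 : N < (n : ℝ) := h1.trans_le (by exact_mod_cast hn1)
        have hn2' : (n : ℝ) ≤ N2 := by exact_mod_cast hn2
        have h4' : (n : ℝ) + 4 < 2 * N := by linarith
        have h5 : (n : ℝ) ≤ 2 * N' := by linarith
        have h6 : |τ * φ 0 (wv N n u.1 u.2)| ≤ 1 / (64 * N) := by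
          rw [abs_mul, abs_of_nonneg hτ0]
          calc τ * |φ 0 (wv N n u.1 u.2)| ≤ 1 / H * (C * F) := by
                have := hφ0 _ (wv_mem hN h4 h4' hs hu)
                gcongr
            _ = 1 / (64 * N) := by
                rw [hH]
                field_simp
        have h7 : |∑ i : Fin (d + 1), (Int.fract (Q.coeff i) - c i / M) * (n : ℝ) ^ (i : ℕ)| ≤
            1 / (64 * N) := by
          have h8 : ∀ i : Fin (d + 1), |(Int.fract (Q.coeff i) - c i / M) * (n : ℝ) ^ (i : ℕ)| ≤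
              1 / M * (2 * N') ^ d := by
            intro i
            have h9 : 0 ≤ Int.fract (Q.coeff i) - c i / M := by
              rw [sub_nonneg, div_le_iff₀ hM0]
              exact hc1 i
            have h10 : Int.fract (Q.coeff i) - c i / M ≤ 1 / M := by
              have : Int.fract (Q.coeff i) < (c i + 1) / M := by
                rw [lt_div_iff₀ hM0]
                exact hc2 i
              rw [add_div] at this
              linarith
            have h11 : (n : ℝ) ^ (i : ℕ) ≤ (2 * N') ^ d := by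
              calc (n : ℝ) ^ (i : ℕ) ≤ (2 * N') ^ (i : ℕ) := pow_le_pow_left₀ (by linarith) h5 _
                _ ≤ (2 * N') ^ d := pow_le_pow_right₀ (by linarith) (by have := i.2; omega)
            rw [abs_of_nonneg (by positivity)]
            gcongr
          calc |∑ i : Fin (d + 1), (Int.fract (Q.coeff i) - c i / M) * (n : ℝ) ^ (i : ℕ)|
              ≤ ∑ i : Fin (d + 1), 1 / M * (2 * N' : ℝ) ^ d :=
                (Finset.abs_sum_le_sum_abs _ _).trans (Finset.sum_le_sum (fun i _ => h8 i))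
            _ = 1 / (64 * N') := by
                rw [Finset.sum_const, Finset.card_univ, Fintype.card_fin, nsmul_eq_mul, hMr, mul_pow]
                push_cast
                field_simp
                ring
            _ ≤ 1 / (64 * N) := by gcongr
        calc |τ * φ 0 (wv N n u.1 u.2) +
            ∑ i : Fin (d + 1), (Int.fract (Q.coeff i) - c i / M) * (n : ℝ) ^ (i : ℕ)|
            ≤ 1 / (64 * N) + 1 / (64 * N) := (abs_add_le _ _).trans (add_le_add h6 h7)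
          _ = 1 / (32 * N) := by field_simp; norm_num
  refine (measure_mono hsub).trans ((measure_biUnion_finset_le Idx _).trans ?_)
  have hsum : ∑ p ∈ Idx, volume {z : ℝ × ℝ | z.1 ∈ Icc (0 : ℝ) 1 ∧ z.2 ∈ Icc (0 : ℝ) 1 ∧
        ((Finset.Icc p.1.1 p.1.2).card : ℝ) ^ (1 / 2 : ℝ) * N ^ ε / 2 <
        ‖ES2 N (fj p.2.1 0) (qc p.2.2) (Finset.Icc p.1.1 p.1.2) z‖} ≤
      ∑ p ∈ Idx, ENNReal.ofReal (K / N ^ (B + (2 + (B + 1) + (d + 1) ^ 2))) := by
    refine Finset.sum_le_sum (fun p hp => ?_)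
    rw [hIdx, Finset.mem_product, Finset.mem_product, Finset.mem_filter] at hp
    have hTj0 : 0 ≤ (p.2.1 : ℝ) / H := by positivity
    have hTj : F ≤ (1 + (p.2.1 : ℝ) / H) * F := by
      nlinarith [mul_nonneg hTj0 hF0.le]
    exact hsing ((1 + (p.2.1 : ℝ) / H) * F) N (fj p.2.1) hN (hF.trans hTj)
      (adm_mul hφ hTj0) (qc p.2.2) p.1.1 p.1.2 hp.1.2.1 hp.1.2.2.1 hp.1.2.2.2
  refine hsum.trans ?_
  rw [Finset.sum_const, nsmul_eq_mul, ← ENNReal.ofReal_natCast, ← ENNReal.ofReal_mul (by positivity)]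
  apply ENNReal.ofReal_le_ofReal
  have hIc : (Idx.card : ℝ) ≤
      (25 * N ^ 2) * ((65 * C * N ^ (B + 1)) *
        (64 * (d + 1) * 2 ^ d * (2 * N) ^ (d + 1)) ^ (d + 1)) := by
    have h1 : Idx.card ≤ ((2 * N' + 1) * (2 * N' + 1)) * (J * M ^ (d + 1)) := by
      rw [hIdx, Finset.card_product, Finset.card_product,
        Finset.card_range, Fintype.card_piFinset_const, Finset.card_range]
      apply Nat.mul_le_mul_right
      refine (Finset.card_filter_le _ _).trans ?_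
      rw [Finset.card_product, Nat.card_Icc]
      simp
    have h1' : (Idx.card : ℝ) ≤ (((2 * N' + 1) * (2 * N' + 1)) * (J * M ^ (d + 1)) : ℕ) := by
      exact_mod_cast h1
    refine h1'.trans ?_
    push_cast
    have h2 : (2 * (N' : ℝ) + 1) * (2 * N' + 1) ≤ 25 * N ^ 2 := by nlinarith
    have h3 : (J : ℝ) ≤ 65 * C * N ^ (B + 1) := by
      rw [hJ]
      push_cast
      have h4 : (1 : ℝ) ≤ N ^ (B + 1) := one_le_pow₀ hN'
      have h5 : ((⌊64 * C * N ^ (B + 1)⌋₊ : ℕ) : ℝ) ≤ 64 * C * N ^ (B + 1) :=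
        Nat.floor_le (by positivity)
      have h6 : 1 ≤ C * N ^ (B + 1) := one_le_mul_of_one_le_of_one_le hC h4
      nlinarith
    have h7 : (M : ℝ) ≤ 64 * (d + 1) * 2 ^ d * (2 * N) ^ (d + 1) := by
      rw [hMr]
      gcongr
    gcongr
  have h9 : 0 ≤ K / N ^ (B + (2 + (B + 1) + (d + 1) ^ 2)) := by positivity
  refine (mul_le_mul_of_nonneg_right hIc h9).trans (le_of_eq ?_)
  have e1 : N ^ (B + (2 + (B + 1) + (d + 1) ^ 2)) =
      N ^ B * (N ^ 2 * N ^ (B + 1) * (N ^ (d + 1)) ^ (d + 1)) := by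
    rw [← pow_mul, ← pow_add, ← pow_add, ← pow_add]
    congr 1
    ring
  have e2 : (64 * ((d : ℝ) + 1) * 2 ^ d * (2 * N) ^ (d + 1)) ^ (d + 1) =
      (64 * ((d : ℝ) + 1) * 2 ^ d * 2 ^ (d + 1)) ^ (d + 1) * (N ^ (d + 1)) ^ (d + 1) := by
    rw [← mul_pow, mul_pow 2 N]
    congr 1
    ring
  rw [e1, e2]
  field_simp

end Pool.Agent.Helper91K9.EP
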