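import Pool.Agent.Helper91K9.EP.Stm3

/-!
# [NET1] all the polynomial phases and a window of multipliers at the same time, one parameter
-/

set_option autoImplicit false

namespace Pool.Agent.Helper91K9.EP

open Set MeasureTheory
open Pool.Agent.Y933.KI

theorem fam_mul {F N : ℝ} {b : ℕ} {a y : ℕ → ℝ} (h : Fam F N b a y) {s : ℝ} (hs : 0 ≤ s) :
    Fam ((1 + s) * F) N b (fun n => (1 + s) * a n) y := by
  have h1 : 0 < 1 + s := by linarith
  refine ⟨fun n hn hn' => ?_, fun n hn hn' => ?_, h.y_lo, h.y_up, h.sep⟩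
  · rw [abs_mul, abs_of_pos h1]
    exact mul_le_mul_of_nonneg_left (h.a_lo n hn hn') h1.le
  · rw [abs_mul, abs_of_pos h1]
    have := mul_le_mul_of_nonneg_left (h.a_up n hn hn') h1.le
    refine this.trans (le_of_eq ?_)
    ring

theorem val_le {F N : ℝ} {b : ℕ} {a y : ℕ → ℝ} (h : Fam F N b a y) (hF : 0 < F) (hN : 1 ≤ N)
    {n : ℕ} (h1 : N < n) (h2 : (n : ℝ) < 2 * N) {s : ℝ} (hs : s ∈ Icc (0 : ℝ) 1) :
    |a n * Real.exp (s * y n)| ≤ N ^ (2 * b) * F := by
  have hy : 0 ≤ y n := le_trans (by positivity) (h.y_lo n h1 h2)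
  have h3 : Real.exp (s * y n) ≤ N ^ b := by
    refine le_trans (Real.exp_le_exp.2 ?_) (h.y_up n h1 h2)
    nlinarith [hs.1, hs.2]
  rw [abs_mul, abs_of_pos (Real.exp_pos _)]
  calc |a n| * Real.exp (s * y n) ≤ (N ^ b * F) * N ^ b :=
        mul_le_mul (h.a_up n h1 h2) h3 (Real.exp_pos _).le (by positivity)
    _ = N ^ (2 * b) * F := by rw [two_mul, pow_add]; ring

/-- [NET1] -/
theorem net1 (hS : S_SNG1) : S_NET1 := by
  intro ε hε B d b
  obtain ⟨A, K, hK, hsing⟩ := hS ε hε (B + (2 + (2 * b + B + 1) + (d + 1) ^ 2)) b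
  refine ⟨A, 25 * 65 * (64 * (d + 1) * 2 ^ d * 2 ^ (d + 1)) ^ (d + 1) * K, ?_⟩
  intro F N a y hN hF hφ
  have hN' : (1 : ℝ) ≤ N := by linarith
  have hN0 : (0 : ℝ) < N := by linarith
  have hF0 : (0 : ℝ) < F := lt_of_lt_of_le (by positivity) hF
  set N' : ℕ := ⌈N⌉₊ with hNN
  have hNle : N ≤ N' := Nat.le_ceil N
  have hNge : (N' : ℝ) ≤ 2 * N := by
    have := Nat.ceil_lt_add_one hN0.le
    linarith
  have hN'0 : (0 : ℝ) < N' := by linarith
  set H : ℝ := 64 * N ^ (2 * b) * F * N with hH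
  set M : ℕ := 64 * (d + 1) * 2 ^ d * N' ^ (d + 1) with hM
  have hMr : (M : ℝ) = 64 * (d + 1) * 2 ^ d * (N' : ℝ) ^ (d + 1) := by rw [hM]; push_cast; ring
  have hH0 : (0 : ℝ) < H := by rw [hH]; positivity
  have hM0 : (0 : ℝ) < M := by rw [hMr]; positivity
  set J : ℕ := ⌊64 * N ^ (2 * b + B + 1)⌋₊ + 1 with hJ
  set qc : (Fin (d + 1) → ℕ) → ℕ → ℝ := fun c n => ∑ i, ((c i : ℝ) / M) * (n : ℝ) ^ (i : ℕ) with hqc
  set fj : ℕ → ℕ → ℝ := fun j n => (1 + j / H) * a n with hfj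
  set Idx : Finset ((ℕ × ℕ) × (ℕ × (Fin (d + 1) → ℕ))) :=
    ((Finset.Icc 0 (2 * N') ×ˢ Finset.Icc 0 (2 * N')).filter
      (fun p => N < (p.1 : ℝ) ∧ (p.2 : ℝ) < 2 * N ∧ p.1 ≤ p.2)) ×ˢ
      (Finset.range J ×ˢ Fintype.piFinset (fun _ : Fin (d + 1) => Finset.range M)) with hIdx
  have hsub : {s : ℝ | s ∈ Icc (0 : ℝ) 1 ∧ ∃ t : ℝ, 0 ≤ t ∧
      t * F ≤ N ^ B ∧ ∃ Q : Polynomial ℝ, Q.natDegree ≤ d ∧ ∃ N1 N2 : ℕ, N < (N1 : ℝ) ∧ N1 ≤ N2 ∧
      (N2 : ℝ) < 2 * N ∧ ((N2 : ℝ) - N1 + 1) ^ (1 / 2 : ℝ) * N ^ ε <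
      ‖∑ n ∈ Finset.Icc N1 N2, Complex.exp (2 * (Real.pi : ℂ) * Complex.I *
        (((1 + t) * (a n * Real.exp (s * y n)) + Q.eval (n : ℝ) : ℝ) : ℂ))‖} ⊆
      ⋃ p ∈ Idx, {z : ℝ | z ∈ Icc (0 : ℝ) 1 ∧
        ((Finset.Icc p.1.1 p.1.2).card : ℝ) ^ (1 / 2 : ℝ) * N ^ ε / 2 <
        ‖ES1 (fj p.2.1) y (qc p.2.2) (Finset.Icc p.1.1 p.1.2) z‖} := by
    rintro u ⟨hs, t, ht0, ht1, Q, hQ, N1, N2, h1, h, h2, h3⟩
    set j : ℕ := ⌊t * H⌋₊ with hj
    have hj1 : (j : ℝ) ≤ t * H := Nat.floor_le (mul_nonneg ht0 hH0.le)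
    have hj2 : t * H < j + 1 := Nat.lt_floor_add_one _
    have hj3 : j < J := by
      have h4 : t * H ≤ 64 * N ^ (2 * b + B + 1) := by
        calc t * H = 64 * N ^ (2 * b) * (t * F * N) := by rw [hH]; ring
          _ ≤ 64 * N ^ (2 * b) * (N ^ B * N) := by gcongr
          _ = 64 * N ^ (2 * b + B + 1) := by rw [pow_succ, pow_add]; ring
      have h5 : j ≤ ⌊64 * N ^ (2 * b + B + 1)⌋₊ := Nat.floor_le_floor h4
      omega
    set c : Fin (d + 1) → ℕ := fun i => ⌊Int.fract (Q.coeff i) * M⌋₊ with hc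
    have hc1 : ∀ i : Fin (d + 1), (c i : ℝ) ≤ Int.fract (Q.coeff i) * M := fun i =>
      Nat.floor_le (mul_nonneg (Int.fract_nonneg _) hM0.le)
    have hc2 : ∀ i : Fin (d + 1), Int.fract (Q.coeff i) * M < c i + 1 :=
      fun i => Nat.lt_floor_add_one _
    have hc3 : ∀ i : Fin (d + 1), c i < M := by
      intro i
      have h4 : Int.fract (Q.coeff i) * M < M := by
        have := Int.fract_lt_one (Q.coeff i)
        nlinarith
      exact_mod_cast (hc1 i).trans_lt h4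
    set τ : ℝ := t - j / H with hτ
    have hτ0 : 0 ≤ τ := by
      rw [hτ, sub_nonneg, div_le_iff₀ hH0]
      exact hj1
    have hτ1 : τ ≤ 1 / H := by
      have : t < (j + 1) / H := by rw [lt_div_iff₀ hH0]; exact hj2
      rw [add_div] at this
      rw [hτ]
      linarith
    have h12 : (N1 : ℝ) ≤ N2 := by exact_mod_cast h
    have hN1b : N1 ≤ 2 * N' := by
      have : (N1 : ℝ) ≤ ((2 * N' : ℕ) : ℝ) := by push_cast; linarith
      exact_mod_cast this
    have hN2b : N2 ≤ 2 * N' := by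
      have : (N2 : ℝ) ≤ ((2 * N' : ℕ) : ℝ) := by push_cast; linarith
      exact_mod_cast this
    rw [mem_iUnion₂]
    refine ⟨((N1, N2), (j, c)), ?_, hs, ?_⟩
    · rw [hIdx, Finset.mem_product, Finset.mem_product, Finset.mem_filter, Finset.mem_product,
        Finset.mem_Icc, Finset.mem_Icc, Finset.mem_range, Fintype.mem_piFinset]
      exact ⟨⟨⟨⟨Nat.zero_le _, hN1b⟩, ⟨Nat.zero_le _, hN2b⟩⟩, h1, h2, h⟩, hj3,
        fun i => Finset.mem_range.mpr (hc3 i)⟩
    · show ((Finset.Icc N1 N2).card : ℝ) ^ (1 / 2 : ℝ) * N ^ ε / 2 <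
        ‖ES1 (fj j) y (qc c) (Finset.Icc N1 N2) u‖
      have hcard' : ((Finset.Icc N1 N2).card : ℝ) = (N2 : ℝ) - N1 + 1 := by
        rw [Nat.card_Icc, Nat.cast_sub (by omega)]
        push_cast
        ring
      have hcard1 : 1 ≤ ((Finset.Icc N1 N2).card : ℝ) := by
        rw [hcard']
        linarith
      rw [← hcard'] at h3
      set V : ℝ := ((Finset.Icc N1 N2).card : ℝ) ^ (1 / 2 : ℝ) * N ^ ε with hV
      have hV1 : 1 ≤ V := by
        rw [hV]
        exact one_le_mul_of_one_le_of_one_le (Real.one_le_rpow hcard1 (by norm_num))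
          (Real.one_le_rpow hN' hε.le)
      have hcmp := compare (Finset.Icc N1 N2)
        (fun n => (1 + t) * (a n * Real.exp (u * y n)) + Q.eval (n : ℝ))
        (fun n => fj j n * Real.exp (u * y n) + qc c n)
        (fun n => τ * (a n * Real.exp (u * y n)) +
          ∑ i : Fin (d + 1), (Int.fract (Q.coeff i) - c i / M) * (n : ℝ) ^ (i : ℕ))
        0 (fun n => ∑ i : Fin (d + 1), ⌊Q.coeff i⌋ * (n : ℤ) ^ (i : ℕ))
        (r := 1 / (32 * N)) ?_ ?_
      · have hcard : ((Finset.Icc N1 N2).card : ℝ) ≤ 2 * N := by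
          rw [hcard']
          linarith
        have h5 : ((Finset.Icc N1 N2).card : ℝ) * (2 * Real.pi * (1 / (32 * N))) ≤ 1 / 2 := by
          calc ((Finset.Icc N1 N2).card : ℝ) * (2 * Real.pi * (1 / (32 * N)))
              ≤ 2 * N * (2 * Real.pi * (1 / (32 * N))) := by gcongr
            _ = Real.pi / 8 := by field_simp; ring
            _ ≤ 1 / 2 := by linarith [Real.pi_le_four]
        have h6 : ‖ES1 (fj j) y (qc c) (Finset.Icc N1 N2) u‖ =
            ‖∑ n ∈ Finset.Icc N1 N2, Complex.exp (2 * (Real.pi : ℂ) * Complex.I *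
              ((fj j n * Real.exp (u * y n) + qc c n : ℝ) : ℂ))‖ := rfl
        rw [h6]
        linarith
      · intro n hn
        have e1 : Q.eval (n : ℝ) = ∑ i : Fin (d + 1), Q.coeff i * (n : ℝ) ^ (i : ℕ) := by
          rw [Polynomial.eval_eq_sum_range' (Nat.lt_succ_of_le hQ),
            Finset.sum_range (fun i => Q.coeff i * (n : ℝ) ^ i)]
        have e2 : ∀ i : Fin (d + 1), Q.coeff i * (n : ℝ) ^ (i : ℕ) =
            ((c i : ℝ) / M) * (n : ℝ) ^ (i : ℕ) +
            (Int.fract (Q.coeff i) - c i / M) * (n : ℝ) ^ (i : ℕ) +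
            ((⌊Q.coeff i⌋ : ℤ) : ℝ) * (n : ℝ) ^ (i : ℕ) := by
          intro i
          have := Int.floor_add_fract (Q.coeff i)
          nth_rewrite 1 [← this]
          ring
        have e3 : fj j n = (1 + j / H) * a n := rfl
        simp only [e1, hqc, e3]
        rw [Finset.sum_congr rfl (fun i _ => e2 i), Finset.sum_add_distrib, Finset.sum_add_distrib]
        push_cast
        rw [hτ]
        ring
      · intro n hn
        obtain ⟨hn1, hn2⟩ := Finset.mem_Icc.mp hn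
        have h4 : N < (n : ℝ) := h1.trans_le (by exact_mod_cast hn1)
        have hn2' : (n : ℝ) ≤ N2 := by exact_mod_cast hn2
        have h4' : (n : ℝ) < 2 * N := by linarith
        have h5 : (n : ℝ) ≤ 2 * N' := by linarith
        have h6 : |τ * (a n * Real.exp (u * y n))| ≤ 1 / (64 * N) := by
          rw [abs_mul, abs_of_nonneg hτ0]
          calc τ * |a n * Real.exp (u * y n)| ≤ 1 / H * (N ^ (2 * b) * F) := by
                have := val_le hφ hF0 hN' h4 h4' hs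
                gcongr
            _ = 1 / (64 * N) := by
                rw [hH]
                field_simp
        have h7 : |∑ i : Fin (d + 1), (Int.fract (Q.coeff i) - c i / M) * (n : ℝ) ^ (i : ℕ)| ≤
            1 / (64 * N) := by
          have h8 : ∀ i : Fin (d + 1), |(Int.fract (Q.coeff i) - c i / M) * (n : ℝ) ^ (i : ℕ)| ≤
              1 / M * (2 * N') ^ d := by
            intro i
            have h9 : 0 ≤ Int.fract (Q.coeff i) - c i / M := by
              rw [sub_nonneg, div_le_iff₀ hM0]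
              exact hc1 i
            have h10 : Int.fract (Q.coeff i) - c i / M ≤ 1 / M := by
              have : Int.fract (Q.coeff i) < (c i + 1) / M := by
                rw [lt_div_iff₀ hM0]
                exact hc2 i
              rw [add_div] at this
              linarith
            have h11 : (n : ℝ) ^ (i : ℕ) ≤ (2 * N') ^ d := by
              calc (n : ℝ) ^ (i : ℕ) ≤ (2 * N') ^ (i : ℕ) := pow_le_pow_left₀ (by linarith) h5 _
                _ ≤ (2 * N') ^ d := pow_le_pow_right₀ (by linarith) (by have := i.2; omega)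
            rw [abs_of_nonneg (by positivity)]
            gcongr
          calc |∑ i : Fin (d + 1), (Int.fract (Q.coeff i) - c i / M) * (n : ℝ) ^ (i : ℕ)|
              ≤ ∑ i : Fin (d + 1), 1 / M * (2 * N' : ℝ) ^ d :=
                (Finset.abs_sum_le_sum_abs _ _).trans (Finset.sum_le_sum (fun i _ => h8 i))
            _ = 1 / (64 * N') := by
                rw [Finset.sum_const, Finset.card_univ, Fintype.card_fin, nsmul_eq_mul, hMr, mul_pow]
                push_cast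
                field_simp
                ring
            _ ≤ 1 / (64 * N) := by gcongr
        calc |τ * (a n * Real.exp (u * y n)) +
            ∑ i : Fin (d + 1), (Int.fract (Q.coeff i) - c i / M) * (n : ℝ) ^ (i : ℕ)|
            ≤ 1 / (64 * N) + 1 / (64 * N) := (abs_add_le _ _).trans (add_le_add h6 h7)
          _ = 1 / (32 * N) := by field_simp; norm_num
  refine (measure_mono hsub).trans ((measure_biUnion_finset_le Idx _).trans ?_)
  have hsum : ∑ p ∈ Idx, volume {z : ℝ | z ∈ Icc (0 : ℝ) 1 ∧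
        ((Finset.Icc p.1.1 p.1.2).card : ℝ) ^ (1 / 2 : ℝ) * N ^ ε / 2 <
        ‖ES1 (fj p.2.1) y (qc p.2.2) (Finset.Icc p.1.1 p.1.2) z‖} ≤
      ∑ p ∈ Idx, ENNReal.ofReal (K / N ^ (B + (2 + (2 * b + B + 1) + (d + 1) ^ 2))) := by
    refine Finset.sum_le_sum (fun p hp => ?_)
    rw [hIdx, Finset.mem_product, Finset.mem_product, Finset.mem_filter] at hp
    have hTj0 : 0 ≤ (p.2.1 : ℝ) / H := by positivity
    have hTj : F ≤ (1 + (p.2.1 : ℝ) / H) * F := by
      nlinarith [mul_nonneg hTj0 hF0.le]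
    exact hsing ((1 + (p.2.1 : ℝ) / H) * F) N (fj p.2.1) y hN (hF.trans hTj)
      (fam_mul hφ hTj0) (qc p.2.2) p.1.1 p.1.2 hp.1.2.1 hp.1.2.2.1 hp.1.2.2.2
  refine hsum.trans ?_
  rw [Finset.sum_const, nsmul_eq_mul, ← ENNReal.ofReal_natCast, ← ENNReal.ofReal_mul (by positivity)]
  apply ENNReal.ofReal_le_ofReal
  have hIc : (Idx.card : ℝ) ≤
      (25 * N ^ 2) * ((65 * N ^ (2 * b + B + 1)) *
        (64 * (d + 1) * 2 ^ d * (2 * N) ^ (d + 1)) ^ (d + 1)) := by
    have h1 : Idx.card ≤ ((2 * N' + 1) * (2 * N' + 1)) * (J * M ^ (d + 1)) := by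
      rw [hIdx, Finset.card_product, Finset.card_product,
        Finset.card_range, Fintype.card_piFinset_const, Finset.card_range]
      apply Nat.mul_le_mul_right
      refine (Finset.card_filter_le _ _).trans ?_
      rw [Finset.card_product, Nat.card_Icc]
      simp
    have h1' : (Idx.card : ℝ) ≤ (((2 * N' + 1) * (2 * N' + 1)) * (J * M ^ (d + 1)) : ℕ) := by
      exact_mod_cast h1
    refine h1'.trans ?_
    push_cast
    have h2 : (2 * (N' : ℝ) + 1) * (2 * N' + 1) ≤ 25 * N ^ 2 := by nlinarith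
    have h3 : (J : ℝ) ≤ 65 * N ^ (2 * b + B + 1) := by
      rw [hJ]
      push_cast
      have h4 : (1 : ℝ) ≤ N ^ (2 * b + B + 1) := one_le_pow₀ hN'
      have h5 : ((⌊64 * N ^ (2 * b + B + 1)⌋₊ : ℕ) : ℝ) ≤ 64 * N ^ (2 * b + B + 1) :=
        Nat.floor_le (by positivity)
      linarith
    have h7 : (M : ℝ) ≤ 64 * (d + 1) * 2 ^ d * (2 * N) ^ (d + 1) := by
      rw [hMr]
      gcongr
    gcongr
  have h9 : 0 ≤ K / N ^ (B + (2 + (2 * b + B + 1) + (d + 1) ^ 2)) := by positivity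
  refine (mul_le_mul_of_nonneg_right hIc h9).trans (le_of_eq ?_)
  have e1 : N ^ (B + (2 + (2 * b + B + 1) + (d + 1) ^ 2)) =
      N ^ B * (N ^ 2 * N ^ (2 * b + B + 1) * (N ^ (d + 1)) ^ (d + 1)) := by
    rw [← pow_mul, ← pow_add, ← pow_add, ← pow_add]
    congr 1
    ring
  have e2 : (64 * ((d : ℝ) + 1) * 2 ^ d * (2 * N) ^ (d + 1)) ^ (d + 1) =
      (64 * ((d : ℝ) + 1) * 2 ^ d * 2 ^ (d + 1)) ^ (d + 1) * (N ^ (d + 1)) ^ (d + 1) := by
    rw [← mul_pow, mul_pow 2 N]
    congr 1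
    ring
  rw [e1, e2]
  field_simp

end Pool.Agent.Helper91K9.EP
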