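import Pool.Agent.Helper91K9.EP.Stm

set_option autoImplicit false

namespace Pool.Agent.Helper91K9.EP

open Set MeasureTheory
open Pool.Agent.Y933.KI

lemma Adm.mono {c c' C F N : ℝ} {P : ℕ} {φ : ℕ → ℝ → ℝ} (h : Adm c C F N P φ) (hc : c' ≤ c)
    (hF : 0 ≤ F) (hN : 0 < N) : Adm c' C F N P φ :=
  ⟨h.cont, h.der, fun i hi x hx => le_trans (by gcongr) (h.low i hi x hx), h.up⟩

lemma ph_cont {N : ℝ} {φ : ℕ → ℝ → ℝ} (h : Continuous (φ 0)) (q : ℕ → ℝ) {k : ℕ} (x y : Fin k → ℕ) :
    Continuous (fun p : ℝ × ℝ => Real.cos (ph N φ q x y p.1 p.2)) := by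
  unfold ph wv
  fun_prop

theorem off (hLOW : S_LOW) (hLIP : S_LIP) (hLINE : S_LINE) (hGRID : S_GRID) : S_OFF := by
  intro k hk
  obtain ⟨K, hK1, hlow⟩ := hLOW k hk
  set D : ℕ := 20 * k ^ 2 + 13 * k with hD
  refine ⟨5 * k + 1 + 8 * k * D, fun c0 C hc0 hC => ?_⟩
  obtain ⟨E, hE0, hline⟩ := hLINE k hk C hC
  have hk' : (1 : ℝ) ≤ k := by exact_mod_cast hk
  have hk0 : (0 : ℝ) < k := by linarith
  set c : ℝ := min c0 1 with hc
  have hcpos : 0 < c := lt_min hc0 one_pos
  have hc1 : c ≤ 1 := min_le_right _ _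
  set L : ℝ := 24 * k * (4 * k + 1) ^ (2 * k) * C * K / c with hL
  have hK0 : 0 < K := by linarith
  have hC0 : 0 < C := by linarith
  have hL1 : 1 ≤ L := by
    rw [hL, le_div_iff₀ hcpos]
    have h1 : (1 : ℝ) ≤ (4 * (k : ℝ) + 1) ^ (2 * k) := one_le_pow₀ (by linarith)
    have h2 : (1 : ℝ) ≤ 24 * k := by linarith
    calc 1 * c ≤ 1 * 1 * 1 * 1 := by linarith
      _ ≤ 24 * k * (4 * k + 1) ^ (2 * k) * C * K := by gcongr
  have hL0 : 0 < L := by linarith
  set G : ℝ := 16 * k * L with hG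
  have hG1 : 1 ≤ G := by
    rw [hG]
    calc (1 : ℝ) = 1 * 1 := by ring
      _ ≤ 16 * k * L := by gcongr; linarith
  have hG0 : 0 < G := by linarith
  refine ⟨G + (1 + E * G ^ (4 * k + 1) * (2 * K / c) ^ 3), by positivity, ?_⟩
  intro F N φ hN hF hφ0 q x y hx hy hne
  have hN1 : 1 ≤ N := by linarith
  have hN0 : 0 < N := by linarith
  have hF0 : 0 < F := lt_of_lt_of_le (by positivity) hF
  have hφ : Adm c C F N (2 * k + 1) φ := hφ0.mono (min_le_left _ _) hF0.le hN0
  have hNk : 0 < N ^ k := by positivity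
  have hNk1 : 1 ≤ N ^ k := one_le_pow₀ hN1
  -- the grid
  set M : ℕ := ⌈L * N ^ (4 * k)⌉₊ with hM
  set m : ℕ := 4 * k * ⌈N ^ k⌉₊ with hm
  have hLN : 1 ≤ L * N ^ (4 * k) := one_le_mul_of_one_le_of_one_le hL1 (one_le_pow₀ hN1)
  have hM1 : L * N ^ (4 * k) ≤ M := Nat.le_ceil _
  have hM2 : (M : ℝ) ≤ 2 * (L * N ^ (4 * k)) := by
    have := Nat.ceil_lt_add_one (by positivity : 0 ≤ L * N ^ (4 * k))
    linarith
  have hMr : (1 : ℝ) ≤ M := hLN.trans hM1
  have hMn : 1 ≤ M := by exact_mod_cast hMr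
  have hM0 : (0 : ℝ) < M := by linarith
  have hm1 : 4 * k * N ^ k ≤ (m : ℝ) := by
    rw [hm]
    push_cast
    have := Nat.le_ceil (N ^ k)
    gcongr
  have hm2 : (m : ℝ) ≤ 8 * k * N ^ k := by
    rw [hm]
    push_cast
    have := Nat.ceil_lt_add_one hNk.le
    have h2 : (⌈N ^ k⌉₊ : ℝ) ≤ 2 * N ^ k := by linarith
    calc 4 * (k : ℝ) * ⌈N ^ k⌉₊ ≤ 4 * k * (2 * N ^ k) := by gcongr
      _ = _ := by ring
  have hm4 : 4 * (k : ℝ) ≤ m := by
    refine le_trans ?_ hm1
    nlinarith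
  have hmr : (1 : ℝ) ≤ m := by linarith
  have hm0 : (0 : ℝ) < m := by linarith
  have hmn : 1 ≤ m := by exact_mod_cast hmr
  have hM'n : 1 ≤ M * m := Nat.one_le_iff_ne_zero.mpr (Nat.mul_ne_zero (by omega) (by omega))
  set h : ℝ := 1 / ((M * m : ℕ) : ℝ) with hh
  have hMm : ((M * m : ℕ) : ℝ) = M * m := by push_cast; ring
  have hh0 : 0 < h := by rw [hh, hMm]; positivity
  have hMmG : (M : ℝ) * m ≤ G * N ^ (5 * k) := by
    calc (M : ℝ) * m ≤ 2 * (L * N ^ (4 * k)) * (8 * k * N ^ k) := by gcongr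
      _ = G * N ^ (5 * k) := by
          rw [hG, show 5 * k = 4 * k + k by ring, pow_add]
          ring
  have hinv : 1 / h = M * m := by rw [hh, one_div_one_div, hMm]
  -- the trivial case
  by_cases hbig : N ≤ h * F
  swap
  · push Not at hbig
    have h1 : F < N * (M * m) := by
      rw [hh, hMm, one_div_mul_eq_div, div_lt_iff₀ (by positivity)] at hbig
      exact hbig
    have h2 : N ^ (5 * k + 1 + 8 * k * D) < N * (G * N ^ (5 * k)) := by
      refine (hF.trans_lt h1).trans_le ?_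
      gcongr
    have h3 : N ^ (8 * k * D) < G := by
      have e1 : N ^ (5 * k + 1 + 8 * k * D) = N ^ (5 * k + 1) * N ^ (8 * k * D) := pow_add _ _ _
      have e2 : N * (G * N ^ (5 * k)) = N ^ (5 * k + 1) * G := by rw [pow_succ]; ring
      rw [e1, e2] at h2
      exact lt_of_mul_lt_mul_left h2 (by positivity)
    have h4 : N ^ k ≤ N ^ (8 * k * D) := by
      apply pow_le_pow_right₀ hN1
      have : 1 ≤ D := by rw [hD]; omega
      nlinarith
    have h5 : |∫ p in (Icc (0 : ℝ) 1) ×ˢ (Icc (0 : ℝ) 1), Real.cos (ph N φ q x y p.1 p.2)| ≤ 1 := by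
      have h6 := norm_setIntegral_le_of_norm_le_const (μ := (volume : Measure (ℝ × ℝ)))
        (s := (Icc (0 : ℝ) 1) ×ˢ (Icc (0 : ℝ) 1)) (C := 1)
        (f := fun p : ℝ × ℝ => Real.cos (ph N φ q x y p.1 p.2))
        (by
          rw [Measure.volume_eq_prod, Measure.prod_prod]
          simp)
        (fun p _ => Real.abs_cos_le_one _)
      have h7 : (volume : Measure (ℝ × ℝ)).real ((Icc (0 : ℝ) 1) ×ˢ (Icc (0 : ℝ) 1)) = 1 := by
        rw [Measure.real, Measure.volume_eq_prod, Measure.prod_prod]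
        simp
      rw [h7, mul_one] at h6
      exact h6
    refine h5.trans ?_
    rw [le_div_iff₀ hNk, one_mul]
    have : 0 ≤ 1 + E * G ^ (4 * k + 1) * (2 * K / c) ^ 3 := by positivity
    linarith
  -- the main case
  set lam : ℝ := c / (2 * K * N ^ (4 * k)) with hlam
  have hlam0 : 0 < lam := by rw [hlam]; positivity
  have hlam1 : lam ≤ 1 := by
    rw [hlam, div_le_one (by positivity)]
    have h1 : 1 ≤ N ^ (4 * k) := one_le_pow₀ hN1
    calc c ≤ 1 * 1 * 1 := by linarith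
      _ ≤ 2 * K * N ^ (4 * k) := by gcongr; linarith
  set X : ℝ := h * F / N with hX
  have hX1 : 1 ≤ X := by rw [hX, le_div_iff₀ hN0]; linarith
  set E1 : ℝ := E / (h ^ (4 * k) * lam ^ 3) * X ^ (-(1 / (8 * (k : ℝ)))) with hE1
  have hE10 : 0 ≤ E1 := by rw [hE1]; positivity
  have hgrid := hGRID (fun s u => Real.cos (ph N φ q x y s u)) (ph_cont hφ.cont q x y)
    (fun s u => Real.abs_cos_le_one _) M (M * m) hMn hM'n (2 * k) E1 (by positivity) hE10 ?_
  · refine hgrid.trans ?_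
    have hA : 2 * (2 * (k : ℝ)) * M / ((M * m : ℕ) : ℝ) ≤ 1 / N ^ k := by
      rw [hMm, div_le_div_iff₀ (by positivity) hNk]
      calc 2 * (2 * (k : ℝ)) * M * N ^ k = M * (4 * k * N ^ k) := by ring
        _ ≤ M * m := by gcongr
        _ = 1 * (M * m) := by ring
    have hB : E1 ≤ E * G ^ (4 * k + 1) * (2 * K / c) ^ 3 / N ^ k := by
      have hb1 : 1 / h ^ (4 * k) ≤ G ^ (4 * k) * N ^ (20 * k ^ 2) := by
        rw [← one_div_pow, hinv]
        calc ((M : ℝ) * m) ^ (4 * k) ≤ (G * N ^ (5 * k)) ^ (4 * k) :=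
              pow_le_pow_left₀ (by positivity) hMmG _
          _ = G ^ (4 * k) * N ^ (20 * k ^ 2) := by
              rw [mul_pow, ← pow_mul]
              congr 2
              ring
      have hb2 : 1 / lam ^ 3 = (2 * K / c) ^ 3 * N ^ (12 * k) := by
        rw [hlam, show 12 * k = 4 * k * 3 by ring, pow_mul N (4 * k) 3]
        field_simp
      have hb3 : X ^ (-(1 / (8 * (k : ℝ)))) ≤ G / N ^ D := by
        have h1 : N ^ (8 * k * D) / G ≤ X := by
          rw [hX, hh, hMm, div_le_div_iff₀ hG0 hN0]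
          rw [one_div_mul_eq_div, div_mul_eq_mul_div, le_div_iff₀ (by positivity)]
          calc N ^ (8 * k * D) * N * ((M : ℝ) * m) ≤ N ^ (8 * k * D) * N * (G * N ^ (5 * k)) := by
                gcongr
            _ = N ^ (5 * k + 1 + 8 * k * D) * G := by
                rw [pow_add, pow_succ]
                ring
            _ ≤ F * G := by gcongr
        have h2 : (N ^ (8 * k * D) / G) ^ (-(1 / (8 * (k : ℝ)))) = G ^ (1 / (8 * (k : ℝ))) / N ^ D := by
          rw [Real.rpow_neg (by positivity), Real.div_rpow (by positivity) hG0.le, inv_div]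
          congr 1
          rw [← Real.rpow_natCast N (8 * k * D), ← Real.rpow_mul hN0.le, ← Real.rpow_natCast N D]
          congr 1
          push_cast
          field_simp
        have h3 : X ^ (-(1 / (8 * (k : ℝ)))) ≤ (N ^ (8 * k * D) / G) ^ (-(1 / (8 * (k : ℝ)))) := by
          apply Real.rpow_le_rpow_of_nonpos (by positivity) h1
          have : 0 ≤ 1 / (8 * (k : ℝ)) := by positivity
          linarith
        refine h3.trans ?_
        rw [h2]
        have h4 : G ^ (1 / (8 * (k : ℝ))) ≤ G ^ (1 : ℝ) := by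
          apply Real.rpow_le_rpow_of_exponent_le hG1
          rw [div_le_one (by positivity)]
          linarith
        rw [Real.rpow_one] at h4
        gcongr
      have hsplit : E1 = E * (1 / h ^ (4 * k)) * (1 / lam ^ 3) * X ^ (-(1 / (8 * (k : ℝ)))) := by
        rw [hE1]
        field_simp
      rw [hsplit, hb2]
      calc E * (1 / h ^ (4 * k)) * ((2 * K / c) ^ 3 * N ^ (12 * k)) * X ^ (-(1 / (8 * (k : ℝ))))
          ≤ E * (G ^ (4 * k) * N ^ (20 * k ^ 2)) * ((2 * K / c) ^ 3 * N ^ (12 * k)) * (G / N ^ D) := by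
            gcongr
        _ = E * G ^ (4 * k + 1) * (2 * K / c) ^ 3 / N ^ k := by
            have hND : N ^ D = N ^ (20 * k ^ 2) * N ^ (12 * k) * N ^ k := by
              rw [hD, ← pow_add, ← pow_add]
              congr 1
              ring
            rw [hND, pow_succ G]
            field_simp
    have hsum : E * G ^ (4 * k + 1) * (2 * K / c) ^ 3 / N ^ k + 1 / N ^ k ≤
        (G + (1 + E * G ^ (4 * k + 1) * (2 * K / c) ^ 3)) / N ^ k := by
      rw [← add_div]
      apply div_le_div_of_nonneg_right _ hNk.le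
      linarith
    linarith
  · intro i hi j hj
    have hi' : (i : ℝ) + 1 ≤ M := by exact_mod_cast hi
    have hj' : (j : ℝ) + 1 ≤ ((M * m : ℕ) : ℝ) := by exact_mod_cast hj
    have hi0 : (0 : ℝ) ≤ i := Nat.cast_nonneg i
    have hj0 : (0 : ℝ) ≤ j := Nat.cast_nonneg j
    have hM'0 : (0 : ℝ) < ((M * m : ℕ) : ℝ) := by rw [hMm]; positivity
    have hs0 : (i : ℝ) / M ∈ Icc (0 : ℝ) (3 / 2) := by
      refine ⟨by positivity, ?_⟩
      rw [div_le_iff₀ hM0]
      linarith
    have hu0 : (j : ℝ) / ((M * m : ℕ) : ℝ) ∈ Icc (0 : ℝ) 1 := by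
      refine ⟨by positivity, ?_⟩
      rw [div_le_one hM'0]
      linarith
    obtain ⟨a, ha, hav⟩ := hlow c C F N φ hcpos hF0 hN hφ x y hx hy hne _ hs0 _ hu0
    have ha' : (a : ℝ) ≤ 2 * k := by exact_mod_cast ha
    have ha0 : (0 : ℝ) ≤ a := Nat.cast_nonneg a
    refine ⟨a, ha0, ha', fun σ hσ => ?_⟩
    have h2k : 2 * (k : ℝ) * h ≤ 1 / (2 * M) := by
      rw [hh, hMm, mul_one_div, div_le_div_iff₀ (by positivity) (by positivity)]
      calc 2 * (k : ℝ) * (2 * M) = M * (4 * k) := by ring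
        _ ≤ M * m := by gcongr
        _ = 1 * (M * m) := by ring
    have hhM : h ≤ 1 / M := by
      rw [hh, hMm]
      apply one_div_le_one_div_of_le hM0
      nlinarith
    have hM11 : 1 / (M : ℝ) ≤ 1 := by rw [div_le_one hM0]; exact hMr
    have hσ0 : 0 ≤ σ := le_trans (by positivity) hσ.1
    have hσ1 : σ ≤ 1 := hσ.2.trans (by rw [div_le_one hM0]; exact hi')
    have hav2 : ∀ v ∈ Icc (0 : ℝ) h, (a : ℝ) * v ≤ 1 / (2 * M) := by
      intro v hv
      calc (a : ℝ) * v ≤ 2 * k * h := mul_le_mul ha' hv.2 hv.1 (by positivity)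
        _ ≤ _ := h2k
    have hhalf : 1 / (2 * (M : ℝ)) ≤ 1 / 2 := by
      apply one_div_le_one_div_of_le (by norm_num)
      linarith
    have hu1 : (j : ℝ) / ((M * m : ℕ) : ℝ) + h ≤ 1 := by
      rw [hh, ← add_div, div_le_one hM'0]
      exact hj'
    have key := hline c F N φ hF0 hN hφ q x y hx hy a ha σ h ((j : ℝ) / ((M * m : ℕ) : ℝ)) hh0
      (hhM.trans hM11) hσ0 (by
        have := hav2 h ⟨hh0.le, le_rfl⟩
        linarith) hu0.1 hu1 hbig lam hlam0 hlam1 ?_
    · have e1 : E1 / ((M * m : ℕ) : ℝ) = h * (E / (h ^ (4 * k) * lam ^ 3) *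
          (h * F / N) ^ (-(1 / (8 * (k : ℝ))))) := by
        rw [hE1, hh]
        ring
      rw [e1]
      exact key
    · intro v hv
      have hav3 := hav2 v hv
      have hs : σ + a * v ∈ Icc (0 : ℝ) (3 / 2) := by
        refine ⟨by have := hv.1; positivity, by linarith⟩
      have hu : (j : ℝ) / ((M * m : ℕ) : ℝ) + v ∈ Icc (0 : ℝ) 1 :=
        ⟨add_nonneg hu0.1 hv.1, by linarith [hv.2]⟩
      have hd1 : |σ + a * v - (i : ℝ) / M| ≤ 2 / M := by
        have h1 : (i : ℝ) / M ≤ σ := hσ.1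
        have h2 : σ ≤ (i : ℝ) / M + 1 / M := by
          have := hσ.2
          rw [add_div] at this
          exact this
        have h3 : 1 / (2 * (M : ℝ)) ≤ 1 / M := by
          apply one_div_le_one_div_of_le hM0
          linarith
        have h4 : 0 ≤ (a : ℝ) * v := mul_nonneg ha0 hv.1
        have h5 : 2 / (M : ℝ) = 1 / M + 1 / M := by ring
        rw [abs_of_nonneg (by linarith)]
        linarith
      have hd2 : |(j : ℝ) / ((M * m : ℕ) : ℝ) + v - (j : ℝ) / ((M * m : ℕ) : ℝ)| ≤ 2 / M := by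
        rw [add_sub_cancel_left, abs_of_nonneg hv.1]
        have h5 : 2 / (M : ℝ) = 1 / M + 1 / M := by ring
        have h6 : 0 ≤ 1 / (M : ℝ) := by positivity
        linarith [hv.2]
      have hlip := hLIP k hk c C F N φ hF0 hN hC0.le hφ x y hx hy a ha _ hs _ hs0 _ hu _ hu0 (2 / M)
        hd1 hd2
      have hsm : 6 * k * (4 * k + 1) ^ (2 * k) * C * F / N ^ (2 * k + 1) * (2 / M) ≤
          c * F / (2 * K * N ^ (4 * k)) := by
        have h1 : N ^ (4 * k) ≤ N ^ (4 * k) * N ^ (2 * k + 1) :=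
          le_mul_of_one_le_right (by positivity) (one_le_pow₀ hN1)
        rw [div_mul_div_comm, div_le_div_iff₀ (by positivity) (by positivity)]
        calc 6 * (k : ℝ) * (4 * k + 1) ^ (2 * k) * C * F * 2 * (2 * K * N ^ (4 * k))
            = c * F * (L * N ^ (4 * k)) := by
              rw [hL]
              field_simp
              ring
          _ ≤ c * F * M := by gcongr
          _ = c * F * (1 * M) := by ring
          _ ≤ c * F * (N ^ (2 * k + 1) * M) := by
              have : 1 ≤ N ^ (2 * k + 1) := one_le_pow₀ hN1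
              gcongr
      have htot : c * F / (K * N ^ (4 * k)) = c * F / (2 * K * N ^ (4 * k)) +
          c * F / (2 * K * N ^ (4 * k)) := by
        field_simp
        norm_num
      have hrev := abs_sub_abs_le_abs_sub
        (VV N φ x y a (2 * k) ((i : ℝ) / M) ((j : ℝ) / ((M * m : ℕ) : ℝ)))
        (VV N φ x y a (2 * k) (σ + a * v) ((j : ℝ) / ((M * m : ℕ) : ℝ) + v))
      rw [abs_sub_comm] at hrev
      have hfin : lam * F / N ≤ c * F / (2 * K * N ^ (4 * k)) := by
        rw [hlam, div_mul_eq_mul_div, div_div]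
        apply div_le_div_of_nonneg_left (by positivity) (by positivity)
        exact le_mul_of_one_le_right (by positivity) hN1
      linarith

end Pool.Agent.Helper91K9.EP
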