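import Pool.Agent.Helper91K9.EP.Stm3

set_option autoImplicit false

namespace Pool.Agent.Helper91K9.EP

open Set MeasureTheory
open Pool.Agent.Y933.KI

namespace Off1L

/-- the normalized derivatives of the phase -/
noncomputable def DE (F : ℝ) (a y : ℕ → ℝ) {k : ℕ} (x z : Fin k → ℕ) (i : ℕ) (s : ℝ) : ℝ :=
  ∑ l, (a (x l) / F) * y (x l) ^ (i + 1) * Real.exp (s * y (x l)) -
    ∑ l, (a (z l) / F) * y (z l) ^ (i + 1) * Real.exp (s * y (z l))

lemma exp_der (v s : ℝ) : HasDerivAt (fun s : ℝ => Real.exp (s * v)) (Real.exp (s * v) * v) s := by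
  have h := ((hasDerivAt_id s).mul_const v).exp
  simp only [id_eq, one_mul] at h
  exact h

lemma DE_der (F : ℝ) (a y : ℕ → ℝ) {k : ℕ} (x z : Fin k → ℕ) (i : ℕ) (s : ℝ) :
    HasDerivAt (DE F a y x z i) (1 * DE F a y x z (i + 1) s) s := by
  have h1 : ∀ w : Fin k → ℕ, HasDerivAt
      (fun s => ∑ l, (a (w l) / F) * y (w l) ^ (i + 1) * Real.exp (s * y (w l)))
      (∑ l, (a (w l) / F) * y (w l) ^ (i + 1 + 1) * Real.exp (s * y (w l))) s := by
    intro w
    refine HasDerivAt.fun_sum (fun l _ => ?_)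
    refine ((exp_der (y (w l)) s).const_mul ((a (w l) / F) * y (w l) ^ (i + 1))).congr_deriv ?_
    rw [pow_succ (y (w l)) (i + 1)]
    ring
  rw [one_mul]
  exact (h1 x).sub (h1 z)

variable {F N : ℝ} {b : ℕ} {a y : ℕ → ℝ}

lemma y_pos (h : Fam F N b a y) (hN : 2 ≤ N) {n : ℕ} (h1 : N < n) (h2 : (n : ℝ) < 2 * N) :
    0 < y n := lt_of_lt_of_le (by positivity) (h.y_lo n h1 h2)

lemma y_le (h : Fam F N b a y) {n : ℕ} (h1 : N < n) (h2 : (n : ℝ) < 2 * N) :
    y n ≤ N ^ b := by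
  have := Real.add_one_le_exp (y n)
  linarith [h.y_up n h1 h2]

lemma exp_le (h : Fam F N b a y) (hN : 2 ≤ N) {n : ℕ} (h1 : N < n) (h2 : (n : ℝ) < 2 * N) {s : ℝ}
    (hs : s ∈ Icc (0 : ℝ) 1) : Real.exp (s * y n) ≤ N ^ b := by
  refine le_trans ?_ (h.y_up n h1 h2)
  apply Real.exp_le_exp.mpr
  have := y_pos h hN h1 h2
  nlinarith [hs.2]

lemma exp_ge (h : Fam F N b a y) (hN : 2 ≤ N) {n : ℕ} (h1 : N < n) (h2 : (n : ℝ) < 2 * N) {s : ℝ}
    (hs : s ∈ Icc (0 : ℝ) 1) : 1 ≤ Real.exp (s * y n) := by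
  apply Real.one_le_exp
  exact mul_nonneg hs.1 (y_pos h hN h1 h2).le

lemma DE_bd (h : Fam F N b a y) (hN : 2 ≤ N) (hF : 0 < F) {k : ℕ} (x z : Fin k → ℕ)
    (hx : ∀ l, N < x l ∧ (x l : ℝ) < 2 * N) (hz : ∀ l, N < z l ∧ (z l : ℝ) < 2 * N) (i : ℕ)
    (hi : i ≤ 2 * k) {s : ℝ} (hs : s ∈ Icc (0 : ℝ) 1) :
    |DE F a y x z i s| ≤ 2 * k * N ^ (b * (2 * k + 3)) := by
  have hN1 : 1 ≤ N := by linarith
  have h1 : ∀ w : Fin k → ℕ, (∀ l, N < w l ∧ (w l : ℝ) < 2 * N) →
      |∑ l, (a (w l) / F) * y (w l) ^ (i + 1) * Real.exp (s * y (w l))| ≤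
        k * N ^ (b * (2 * k + 3)) := by
    intro w hw
    calc |∑ l, (a (w l) / F) * y (w l) ^ (i + 1) * Real.exp (s * y (w l))|
        ≤ ∑ l : Fin k, N ^ (b * (2 * k + 3)) := by
          refine (Finset.abs_sum_le_sum_abs _ _).trans (Finset.sum_le_sum (fun l _ => ?_))
          obtain ⟨w1, w2⟩ := hw l
          have e1 : |a (w l) / F| ≤ N ^ b := by
            rw [abs_div, abs_of_pos hF, div_le_iff₀ hF]
            exact h.a_up _ w1 w2
          have e2 : |y (w l) ^ (i + 1)| ≤ (N ^ b) ^ (2 * k + 1) := by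
            rw [abs_of_pos (pow_pos (y_pos h hN w1 w2) _)]
            calc y (w l) ^ (i + 1) ≤ (N ^ b) ^ (i + 1) :=
                  pow_le_pow_left₀ (y_pos h hN w1 w2).le (y_le h w1 w2) _
              _ ≤ (N ^ b) ^ (2 * k + 1) := pow_le_pow_right₀ (one_le_pow₀ hN1) (by omega)
          have e3 : |Real.exp (s * y (w l))| ≤ N ^ b := by
            rw [abs_of_pos (Real.exp_pos _)]
            exact exp_le h hN w1 w2 hs
          rw [abs_mul, abs_mul]
          calc |a (w l) / F| * |y (w l) ^ (i + 1)| * |Real.exp (s * y (w l))|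
              ≤ N ^ b * (N ^ b) ^ (2 * k + 1) * N ^ b := by gcongr
            _ = N ^ (b * (2 * k + 3)) := by
                rw [← pow_mul, ← pow_add, ← pow_add]
                congr 1
                ring
      _ = k * N ^ (b * (2 * k + 3)) := by
          rw [Finset.sum_const, Finset.card_univ, Fintype.card_fin, nsmul_eq_mul]
  rw [DE]
  refine (abs_sub _ _).trans ?_
  have := h1 x hx
  have := h1 z hz
  linarith

lemma DE_low (h : Fam F N b a y) (hN : 2 ≤ N) (hF : 0 < F) {k : ℕ} (x z : Fin k → ℕ)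
    (hx : ∀ l, N < x l ∧ (x l : ℝ) < 2 * N) (hz : ∀ l, N < z l ∧ (z l : ℝ) < 2 * N)
    (hne : ∃ j, mu x z j ≠ 0) {s : ℝ} (hs : s ∈ Icc (0 : ℝ) 1) :
    ∃ i < 2 * k, 1 / N ^ b * (1 / (2 * N ^ (2 * b))) ^ (2 * k) ≤ |DE F a y x z i s| := by
  classical
  have hN1 : (1 : ℝ) ≤ N := by linarith
  set A : Finset ℕ := Finset.univ.image x ∪ Finset.univ.image z with hA
  set J : Finset ℕ := A.filter (fun j => mu x z j ≠ 0) with hJ
  obtain ⟨j0, hj0⟩ := hne
  have hmemA : ∀ j ∈ A, N < (j : ℝ) ∧ (j : ℝ) < 2 * N := by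
    intro j hj
    rcases Finset.mem_union.mp hj with h | h
    · obtain ⟨l, _, rfl⟩ := Finset.mem_image.mp h
      exact hx l
    · obtain ⟨l, _, rfl⟩ := Finset.mem_image.mp h
      exact hz l
  have hj0A : j0 ∈ A := by
    by_contra hcon
    apply hj0
    have h1 : Finset.univ.filter (fun l => x l = j0) = ∅ := by
      rw [Finset.filter_eq_empty_iff]
      intro l _ hl
      exact hcon (Finset.mem_union_left _ (hl ▸ Finset.mem_image_of_mem x (Finset.mem_univ l)))
    have h2 : Finset.univ.filter (fun l => z l = j0) = ∅ := by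
      rw [Finset.filter_eq_empty_iff]
      intro l _ hl
      exact hcon (Finset.mem_union_right _ (hl ▸ Finset.mem_image_of_mem z (Finset.mem_univ l)))
    rw [mu, h1, h2]
    simp
  have hj0J : j0 ∈ J := Finset.mem_filter.mpr ⟨hj0A, hj0⟩
  have hcard : J.card ≤ 2 * k := by
    calc J.card ≤ A.card := Finset.card_filter_le _ _
      _ ≤ (Finset.univ.image x).card + (Finset.univ.image z).card := Finset.card_union_le _ _
      _ ≤ (Finset.univ : Finset (Fin k)).card + (Finset.univ : Finset (Fin k)).card :=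
          add_le_add Finset.card_image_le Finset.card_image_le
      _ = 2 * k := by rw [Finset.card_univ, Fintype.card_fin]; ring
  have hNb : (1 : ℝ) ≤ N ^ b := one_le_pow₀ hN1
  have hNb0 : (0 : ℝ) < N ^ b := by linarith
  set w : ℕ → ℝ := fun j => (mu x z j : ℝ) * ((a j / F) * y j * Real.exp (s * y j)) with hw
  have hexp : ∀ i, DE F a y x z i s = (N ^ b) ^ i * ∑ j ∈ J, w j * (y j / N ^ b) ^ i := by
    intro i
    rw [DE, sum_fib x A (fun l => Finset.mem_union_left _ (Finset.mem_image_of_mem x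
        (Finset.mem_univ l))) (fun j => (a j / F) * y j ^ (i + 1) * Real.exp (s * y j)),
      sum_fib z A (fun l => Finset.mem_union_right _ (Finset.mem_image_of_mem z
        (Finset.mem_univ l))) (fun j => (a j / F) * y j ^ (i + 1) * Real.exp (s * y j)),
      ← Finset.sum_sub_distrib, Finset.mul_sum]
    have e1 : ∀ j ∈ A, ((Finset.univ.filter (fun l => x l = j)).card : ℝ) *
          ((a j / F) * y j ^ (i + 1) * Real.exp (s * y j)) -
        ((Finset.univ.filter (fun l => z l = j)).card : ℝ) *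
          ((a j / F) * y j ^ (i + 1) * Real.exp (s * y j)) =
        (N ^ b) ^ i * (w j * (y j / N ^ b) ^ i) := by
      intro j hj
      rw [hw]
      simp only [mu]
      push_cast
      rw [div_pow]
      field_simp
      ring
    rw [Finset.sum_congr rfl e1, hJ]
    refine (Finset.sum_subset (Finset.filter_subset _ _) (fun j hj hj2 => ?_)).symm
    have : mu x z j = 0 := by
      by_contra hcon
      exact hj2 (Finset.mem_filter.mpr ⟨hj, hcon⟩)
    rw [hw]
    simp only [this]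
    simp
  have hjb : ∀ j ∈ J, N < (j : ℝ) ∧ (j : ℝ) < 2 * N := fun j hj => hmemA j (Finset.filter_subset _ _ hj)
  obtain ⟨i, hi, hi2⟩ := vand (fun j => y j / N ^ b) (δ := 1 / N ^ (2 * b)) (by positivity)
    (j0 := j0) (J.erase j0) (Finset.notMem_erase j0 J)
    (fun j hj => by
      obtain ⟨h1, h2⟩ := hjb j (Finset.mem_of_mem_erase hj)
      have h3 := y_pos h hN h1 h2
      rw [abs_of_pos (by positivity), div_le_one hNb0]
      exact y_le h h1 h2)
    (fun j hj => by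
      obtain ⟨h1, h2⟩ := hjb j (Finset.mem_of_mem_erase hj)
      obtain ⟨h3, h4⟩ := hjb j0 hj0J
      have h5 : j0 ≠ j := (Finset.ne_of_mem_erase hj).symm
      have h6 := h.sep j0 j h3 h4 h1 h2 h5
      rw [← sub_div, abs_div, abs_of_pos hNb0, le_div_iff₀ hNb0]
      refine le_trans (le_of_eq ?_) h6
      rw [show 2 * b = b + b by ring, pow_add]
      field_simp)
    w
  rw [Finset.insert_erase hj0J] at hi2
  have hce : (J.erase j0).card = J.card - 1 := Finset.card_erase_of_mem hj0J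
  have hJpos : 0 < J.card := Finset.card_pos.mpr ⟨j0, hj0J⟩
  refine ⟨i, by omega, ?_⟩
  obtain ⟨h3, h4⟩ := hjb j0 hj0J
  have h7 : (1 : ℝ) ≤ |(mu x z j0 : ℝ)| := by exact_mod_cast Int.one_le_abs hj0
  have h8 : 1 / N ^ b ≤ |w j0| := by
    have e1 : 1 ≤ |a j0 / F| := by
      rw [abs_div, abs_of_pos hF, le_div_iff₀ hF, one_mul]
      exact h.a_lo _ h3 h4
    have e2 : 1 / N ^ b ≤ |y j0| := (h.y_lo _ h3 h4).trans (le_abs_self _)
    have e3 : 1 ≤ |Real.exp (s * y j0)| := by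
      rw [abs_of_pos (Real.exp_pos _)]
      exact exp_ge h hN h3 h4 hs
    rw [hw]
    simp only
    rw [abs_mul, abs_mul, abs_mul]
    calc 1 / N ^ b = 1 * (1 * (1 / N ^ b) * 1) := by ring
      _ ≤ |(mu x z j0 : ℝ)| * (|a j0 / F| * |y j0| * |Real.exp (s * y j0)|) := by gcongr
  have h9 : (1 / (2 * N ^ (2 * b))) ^ (2 * k) ≤ (1 / N ^ (2 * b) / 2) ^ (J.erase j0).card := by
    have e2 : (1 : ℝ) / N ^ (2 * b) / 2 = 1 / (2 * N ^ (2 * b)) := by
      rw [div_div]
      congr 1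
      ring
    rw [e2]
    apply pow_le_pow_of_le_one (by positivity) _ (by omega)
    rw [div_le_one (by positivity)]
    have : 1 ≤ N ^ (2 * b) := one_le_pow₀ hN1
    linarith
  rw [hexp, abs_mul, abs_of_pos (by positivity : 0 < (N ^ b) ^ i)]
  calc 1 / N ^ b * (1 / (2 * N ^ (2 * b))) ^ (2 * k)
      ≤ |w j0| * (1 / N ^ (2 * b) / 2) ^ (J.erase j0).card := by gcongr
    _ ≤ |∑ j ∈ J, w j * (y j / N ^ b) ^ i| := hi2
    _ = 1 * |∑ j ∈ J, w j * (y j / N ^ b) ^ i| := (one_mul _).symm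
    _ ≤ (N ^ b) ^ i * |∑ j ∈ J, w j * (y j / N ^ b) ^ i| := by
        have : 1 ≤ (N ^ b) ^ i := one_le_pow₀ hNb
        gcongr

end Off1L

open Off1L in
theorem off1 : S_OFF1 := by
  intro k hk b
  set D : ℕ := b * (16 * k + 9) + k with hD
  refine ⟨8 * k * D, 30 * 2 ^ (2 * k) * (4 * k ^ 2) * 2 ^ (6 * k), by positivity, ?_⟩
  intro F N a y hN hF h q x z hx hz hne
  have hN1 : 1 ≤ N := by linarith
  have hN0 : 0 < N := by linarith
  have hF1 : 1 ≤ F := (one_le_pow₀ hN1).trans hF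
  have hF0 : 0 < F := by linarith
  have hk' : (1 : ℝ) ≤ k := by exact_mod_cast hk
  set lam : ℝ := 1 / N ^ b * (1 / (2 * N ^ (2 * b))) ^ (2 * k) with hlam
  have hlam0 : 0 < lam := by rw [hlam]; positivity
  have hlam1 : lam ≤ 1 := by
    have e1 : 1 / N ^ b ≤ 1 := by
      rw [div_le_one (by positivity)]
      exact one_le_pow₀ hN1
    have e2 : (1 / (2 * N ^ (2 * b))) ^ (2 * k) ≤ 1 := by
      apply pow_le_one₀ (by positivity)
      rw [div_le_one (by positivity)]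
      have : 1 ≤ N ^ (2 * b) := one_le_pow₀ hN1
      linarith
    calc lam ≤ 1 * 1 := by rw [hlam]; gcongr
      _ = 1 := one_mul 1
  have hU1 : 1 ≤ 2 * (k : ℝ) * N ^ (b * (2 * k + 3)) := by
    have e1 : 1 ≤ N ^ (b * (2 * k + 3)) := one_le_pow₀ hN1
    calc (1 : ℝ) = 1 * 1 := by ring
      _ ≤ 2 * (k : ℝ) * N ^ (b * (2 * k + 3)) := by gcongr; linarith
  have hph : ∀ (w : Fin k → ℕ) (s : ℝ), HasDerivAt
      (fun s => ∑ l, (a (w l) * Real.exp (s * y (w l)) + q (w l)))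
      (∑ l, a (w l) * (Real.exp (s * y (w l)) * y (w l))) s := by
    intro w s
    exact HasDerivAt.fun_sum (fun l _ => ((exp_der (y (w l)) s).const_mul (a (w l))).add_const _)
  have hch : Chain (DE F a y x z) (fun _ => 1)
      (fun s => 2 * Real.pi * ∑ l, (a (x l) * Real.exp (s * y (x l)) + q (x l)) -
        2 * Real.pi * ∑ l, (a (z l) * Real.exp (s * y (z l)) + q (z l)))
      (2 * k) 1 1 (2 * k * N ^ (b * (2 * k + 3))) F := by
    refine ⟨by omega, one_pos, le_rfl, le_rfl, hU1, hF1, ?_, ?_, ?_, ?_, ?_⟩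
    · intro i _
      simp
    · intro i _
      simp
    · intro i hi s hs
      exact DE_bd h hN hF0 x z hx hz i hi hs
    · intro i _ s _
      exact DE_der F a y x z i s
    · intro s _
      refine (((hph x s).const_mul (2 * Real.pi)).sub ((hph z s).const_mul (2 * Real.pi))).congr_deriv ?_
      rw [DE, mul_sub, Finset.mul_sum, Finset.mul_sum, Finset.mul_sum, Finset.mul_sum]
      congr 1
      · refine Finset.sum_congr rfl (fun l _ => ?_)
        rw [zero_add, pow_one]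
        field_simp
      · refine Finset.sum_congr rfl (fun l _ => ?_)
        rw [zero_add, pow_one]
        field_simp
  have key := total hch hlam0 hlam1 (fun s hs => DE_low h hN hF0 x z hx hz hne hs)
  refine key.trans ?_
  have hFD : F ^ (-(1 / (4 * ((2 * k : ℕ) : ℝ)))) ≤ 1 / N ^ D := by
    have e1 : (N ^ (8 * k * D)) ^ (-(1 / (4 * ((2 * k : ℕ) : ℝ)))) = 1 / N ^ D := by
      rw [← Real.rpow_natCast N (8 * k * D), ← Real.rpow_mul hN0.le, ← Real.rpow_natCast N D,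
        one_div (N ^ ((D : ℕ) : ℝ)), ← Real.rpow_neg hN0.le]
      congr 1
      push_cast
      field_simp
      ring
    rw [← e1]
    apply Real.rpow_le_rpow_of_nonpos (by positivity) hF
    have : (0 : ℝ) ≤ 1 / (4 * ((2 * k : ℕ) : ℝ)) := by positivity
    linarith
  have hlam3 : 1 / lam ^ 3 = N ^ (3 * b) * (2 ^ (6 * k) * N ^ (12 * b * k)) := by
    rw [hlam]
    have a1 : N ^ (3 * b) = (N ^ b) ^ 3 := by rw [← pow_mul]; congr 1; ring
    have a2 : (2 : ℝ) ^ (6 * k) * N ^ (12 * b * k) = ((2 * N ^ (2 * b)) ^ (2 * k)) ^ 3 := by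
      rw [← pow_mul, mul_pow, ← pow_mul]
      congr 2 <;> ring
    rw [a1, a2, one_div_pow (2 * N ^ (2 * b)) (2 * k)]
    field_simp
  have hcoef : 30 * 2 ^ (2 * k) * (1 : ℝ) ^ 2 * (2 * k * N ^ (b * (2 * k + 3))) ^ 2 /
      (1 ^ (2 * (2 * k)) * lam ^ 3) = 30 * 2 ^ (2 * k) * (4 * k ^ 2) * 2 ^ (6 * k) *
        (N ^ (2 * (b * (2 * k + 3))) * N ^ (3 * b) * N ^ (12 * b * k)) := by
    have a1 : 30 * 2 ^ (2 * k) * (1 : ℝ) ^ 2 * (2 * k * N ^ (b * (2 * k + 3))) ^ 2 /
      (1 ^ (2 * (2 * k)) * lam ^ 3) = 30 * 2 ^ (2 * k) * (2 * k * N ^ (b * (2 * k + 3))) ^ 2 *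
        (1 / lam ^ 3) := by
      rw [one_pow, one_pow]
      ring
    rw [a1, hlam3, mul_pow, mul_pow, ← pow_mul N (b * (2 * k + 3)) 2,
      mul_comm (b * (2 * k + 3)) 2]
    ring
  rw [hcoef]
  have hND : N ^ D = N ^ (2 * (b * (2 * k + 3))) * N ^ (3 * b) * N ^ (12 * b * k) * N ^ k := by
    rw [← pow_add, ← pow_add, ← pow_add]
    congr 1
    rw [hD]
    ring
  refine (mul_le_mul_of_nonneg_left hFD (by positivity)).trans (le_of_eq ?_)
  rw [hND]
  field_simp

end Pool.Agent.Helper91K9.EP
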