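import Pool.Agent.Helper91K9.EP.Stm2
import Pool.Agent.Helper91K9.EP.Mom
import Pool.Agent.Helper91K9.EP.Fina

/-! # EP: a positive proportion of the affine changes of variable gives a large sum -/

set_option autoImplicit false

namespace Pool.Agent.Helper91K9.EP

open Set MeasureTheory
open Pool.Agent.Y933.KI

namespace PosL

open MomL

theorem pz {g : ℝ × ℝ → ℝ} (hg : Continuous g) (hg0 : ∀ p, 0 ≤ g p) {X K : ℝ} (hX : 0 < X)
    (hXK : 9 * K ≤ X) (h1 : X - K ≤ ∫ p in Sq, g p) (h2 : ∫ p in Sq, g p ^ 2 ≤ 2 * X ^ 2 + K * X) :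
    1 / 16 ≤ volume.real (Sq ∩ {p | X ≤ 2 * g p}) := by
  set E : Set (ℝ × ℝ) := {p | X ≤ 2 * g p} with hE
  have hEm : MeasurableSet E := (isClosed_le continuous_const (continuous_const.mul hg)).measurableSet
  have hI1 : IntegrableOn g Sq := hg.continuousOn.integrableOn_compact Sq_compact
  have hI2 : IntegrableOn (fun p => X / 2 + g p ^ 2 / (8 * X)) Sq :=
    (Continuous.continuousOn (by fun_prop)).integrableOn_compact Sq_compact
  have hI3 : IntegrableOn (E.indicator fun _ => 2 * X) Sq :=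
    ((continuous_const.continuousOn (s := Sq)).integrableOn_compact Sq_compact).indicator hEm
  have hle : ∫ p in Sq, g p ≤ ∫ p in Sq, ((X / 2 + g p ^ 2 / (8 * X)) + E.indicator (fun _ => 2 * X) p) := by
    apply setIntegral_mono_on hI1 (hI2.add hI3) Sq_meas
    intro p _
    show g p ≤ (X / 2 + g p ^ 2 / (8 * X)) + E.indicator (fun _ => 2 * X) p
    by_cases hp : p ∈ E
    · rw [Set.indicator_of_mem hp]
      have h3 : 0 ≤ (g p - 4 * X) ^ 2 / (8 * X) := by positivity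
      have h4 : (g p - 4 * X) ^ 2 / (8 * X) = g p ^ 2 / (8 * X) - g p + 2 * X := by
        field_simp
        ring
      linarith
    · rw [Set.indicator_of_notMem hp]
      have h3 : 2 * g p < X := by
        by_contra hcon
        exact hp (not_lt.mp hcon)
      have h4 : 0 ≤ g p ^ 2 / (8 * X) := by positivity
      linarith
  have hval : ∫ p in Sq, ((X / 2 + g p ^ 2 / (8 * X)) + E.indicator (fun _ => 2 * X) p) =
      X / 2 + (∫ p in Sq, g p ^ 2) / (8 * X) + 2 * X * volume.real (Sq ∩ E) := by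
    have hI4 : IntegrableOn (fun p => g p ^ 2 / (8 * X)) Sq :=
      (Continuous.continuousOn (by fun_prop)).integrableOn_compact Sq_compact
    have hI5 : IntegrableOn (fun _ : ℝ × ℝ => X / 2) Sq :=
      (continuous_const.continuousOn).integrableOn_compact Sq_compact
    rw [integral_add hI2 hI3, integral_add hI5 hI4, setIntegral_indicator hEm, setIntegral_const,
      setIntegral_const, integral_div]
    have h3 : volume.real Sq = 1 := by rw [Measure.real, Sq_vol, ENNReal.toReal_one]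
    rw [h3, one_smul, smul_eq_mul]
    ring
  rw [hval] at hle
  have h5 : (∫ p in Sq, g p ^ 2) / (8 * X) ≤ X / 4 + K / 8 := by
    rw [div_le_iff₀ (by positivity)]
    refine h2.trans (le_of_eq ?_)
    ring
  have h6 : X / 8 ≤ 2 * X * volume.real (Sq ∩ E) := by linarith
  have h7 : 2 * X * (1 / 16) ≤ 2 * X * volume.real (Sq ∩ E) := by linarith
  exact le_of_mul_le_mul_left h7 (by positivity)

end PosL

open MomL PosL in
theorem posa (hASY : S_ASY) : ∃ A : ℕ, ∀ c C : ℝ, 0 < c → 1 ≤ C → ∃ K : ℝ, 0 < K ∧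
    ∀ (F N : ℝ) (φ : ℕ → ℝ → ℝ), 2 ≤ N → N ^ A ≤ F → Adm c C F N 5 φ →
    ∀ (q : ℕ → ℝ) (N1 N2 : ℕ), N < (N1 : ℝ) → N1 ≤ N2 → (N2 : ℝ) + 4 < 2 * N →
    9 * K ≤ ((Finset.Icc N1 N2).card : ℝ) →
    1 / 16 ≤ volume.real (Sq ∩ {p | ((Finset.Icc N1 N2).card : ℝ) ≤
      2 * ‖ES2 N (φ 0) q (Finset.Icc N1 N2) p‖ ^ 2}) := by
  obtain ⟨A1, h1⟩ := hASY 1 le_rfl
  obtain ⟨A2, h2⟩ := hASY 2 (by norm_num)
  refine ⟨max A1 A2, fun c C hc hC => ?_⟩
  obtain ⟨K1, hK1, h1'⟩ := h1 c C hc hC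
  obtain ⟨K2, hK2, h2'⟩ := h2 c C hc hC
  refine ⟨K1 + K2, by positivity, fun F N φ hN hF hφ q N1 N2 hN1 hN12 hN2 hcard => ?_⟩
  have hN1' : 1 ≤ N := by linarith
  have hφ3 : Adm c C F N (2 * 1 + 1) φ :=
    ⟨hφ.cont, fun i hi => hφ.der i (by omega), fun i hi => hφ.low i (by omega),
      fun i hi => hφ.up i (by omega)⟩
  have a1 := h1' F N φ hN ((pow_le_pow_right₀ hN1' (le_max_left _ _)).trans hF) hφ3 q N1 N2 hN1 hN12 hN2
  have a2 := h2' F N φ hN ((pow_le_pow_right₀ hN1' (le_max_right _ _)).trans hF) hφ q N1 N2 hN1 hN12 hN2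
  set X : ℝ := ((Finset.Icc N1 N2).card : ℝ) with hX
  have hX0 : 0 < X := by
    rw [hX, Nat.card_Icc]
    have : 0 < N2 + 1 - N1 := by omega
    exact_mod_cast this
  have hc1 : Continuous (fun p : ℝ × ℝ => ‖ES2 N (φ 0) q (Finset.Icc N1 N2) p‖ ^ 2) := by
    have := ES2_cont N hφ.cont q (Finset.Icc N1 N2)
    fun_prop
  refine pz hc1 (fun p => by positivity) hX0 hcard ?_ ?_
  · rw [abs_le] at a1
    have e1 : (∫ p in Sq, ‖ES2 N (φ 0) q (Finset.Icc N1 N2) p‖ ^ (2 * 1)) =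
      ∫ p in (Icc (0 : ℝ) 1) ×ˢ (Icc (0 : ℝ) 1), ‖ES2 N (φ 0) q (Finset.Icc N1 N2) p‖ ^ (2 * 1) := rfl
    have e2 : (∫ p in Sq, ‖ES2 N (φ 0) q (Finset.Icc N1 N2) p‖ ^ 2) =
      ∫ p in Sq, ‖ES2 N (φ 0) q (Finset.Icc N1 N2) p‖ ^ (2 * 1) := by rw [mul_one]
    rw [e2, e1]
    have h3 := a1.1
    rw [Nat.factorial_one, Nat.cast_one, one_mul, pow_one, Nat.sub_self, pow_zero, mul_one] at h3
    linarith
  · rw [abs_le] at a2
    have e2 : (∫ p in Sq, (‖ES2 N (φ 0) q (Finset.Icc N1 N2) p‖ ^ 2) ^ 2) =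
      ∫ p in (Icc (0 : ℝ) 1) ×ˢ (Icc (0 : ℝ) 1), ‖ES2 N (φ 0) q (Finset.Icc N1 N2) p‖ ^ (2 * 2) := by
      rw [Sq]
      refine integral_congr_ae (Filter.Eventually.of_forall fun p => ?_)
      simp only
      rw [← pow_mul]
    rw [e2]
    have h3 := a2.2
    rw [Nat.factorial_two, Nat.cast_ofNat, show 2 - 1 = 1 by norm_num, pow_one] at h3
    have h4 : K2 * X ≤ (K1 + K2) * X := by
      have := mul_pos hK1 hX0
      nlinarith
    linarith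

/-- The functions of the class of the problem, extended. -/
theorem toAdm (P : ℕ) (c C : ℕ → ℝ) (hc : ∀ j, 0 < c j) : ∃ c' C' : ℝ, 0 < c' ∧ 1 ≤ C' ∧
    ∀ N F : ℝ, ∀ f : ℝ → ℝ, 2 ≤ N → 0 < F → ContDiffOn ℝ (⊤ : ℕ∞) f (Icc N (2 * N)) →
    (∀ j ≤ P + 1, ∀ x ∈ Icc N (2 * N), c j * F / N ^ j ≤ |iteratedDerivWithin j f (Icc N (2 * N)) x| ∧
      |iteratedDerivWithin j f (Icc N (2 * N)) x| ≤ C j * F / N ^ j) →
    ∃ φ : ℕ → ℝ → ℝ, Adm c' C' F N P φ ∧ ∀ n : ℕ, N < (n : ℝ) → (n : ℝ) + 4 < 2 * N →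
      ∀ p : ℝ × ℝ, p.1 ∈ Icc (0 : ℝ) 1 → p.2 ∈ Icc (0 : ℝ) 1 →
      φ 0 (wv N n p.1 p.2) = f ((n : ℝ) + p.1 * ((n : ℝ) / N) + p.2) := by
  obtain ⟨c', C', hc', hC', hcC⟩ := FinaL.minmax (P + 1) c C hc
  refine ⟨c', C', hc', hC', fun N F f hN hF0 hf hb => ?_⟩
  have hN0 : 0 < N := by linarith
  have hlt : N < 2 * N := by linarith
  have hU : UniqueDiffOn ℝ (Icc N (2 * N)) := uniqueDiffOn_Icc hlt
  set S := Icc N (2 * N) with hS
  have hder : ∀ j : ℕ, ∀ x ∈ Ioo N (2 * N),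
      HasDerivAt (iteratedDerivWithin j f S) (iteratedDerivWithin (j + 1) f S x) x := by
    intro j x hx
    have h1 : DifferentiableOn ℝ (iteratedDerivWithin j f S) S :=
      hf.differentiableOn_iteratedDerivWithin (by exact_mod_cast ENat.natCast_lt_top j) hU
    have h2 := (h1 x (Ioo_subset_Icc_self hx)).hasDerivWithinAt
    rw [iteratedDerivWithin_succ]
    exact h2.hasDerivAt (Icc_mem_nhds hx.1 hx.2)
  have hfc : ContinuousOn f S := hf.continuousOn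
  set g : ℝ → ℝ := IccExtend hlt.le (S.domRestrict f) with hg
  have hgc : Continuous g := (continuousOn_iff_continuous_domRestrict.mp hfc).Icc_extend'
  have hgf : ∀ x ∈ S, g x = f x := by
    intro x hx
    rw [hg, IccExtend_of_mem hlt.le _ hx]
    rfl
  set φ : ℕ → ℝ → ℝ := fun i => if i = 0 then g else iteratedDerivWithin i f S with hφ
  have hφ0 : φ 0 = g := by rw [hφ]; simp
  have hφs : ∀ i, φ (i + 1) = iteratedDerivWithin (i + 1) f S := by intro i; rw [hφ]; simp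
  refine ⟨φ, ⟨by rw [hφ0]; exact hgc, ?_, ?_, ?_⟩, ?_⟩
  · intro i hi x hx
    rcases i with _ | i
    · rw [hφ0, hφs]
      have h1 := hder 0 x hx
      rw [iteratedDerivWithin_zero] at h1
      refine h1.congr_of_eventuallyEq ?_
      filter_upwards [Icc_mem_nhds hx.1 hx.2] with y hy
      exact hgf y hy
    · rw [hφs, hφs]
      exact hder (i + 1) x hx
  · intro i hi x hx
    rw [hφs]
    refine le_trans ?_ (hb (i + 1) (by omega) x (Ioo_subset_Icc_self hx)).1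
    have := (hcC (i + 1) (by omega)).1
    gcongr
  · intro i hi x hx
    rw [hφs]
    refine (hb (i + 1) (by omega) x (Ioo_subset_Icc_self hx)).2.trans ?_
    have := (hcC (i + 1) (by omega)).2
    gcongr
  · intro n hn1 hn2 p hp1 hp2
    have h7 : wv N n p.1 p.2 ∈ S := by
      have h8 : 0 ≤ (n : ℝ) / N := by positivity
      have h9 : (n : ℝ) / N ≤ 2 := by
        rw [div_le_iff₀ hN0]
        linarith
      have h10 : p.1 * ((n : ℝ) / N) ≤ 2 := by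
        calc p.1 * ((n : ℝ) / N) ≤ 1 * 2 := mul_le_mul hp1.2 h9 h8 zero_le_one
          _ = 2 := one_mul 2
      have h11 : 0 ≤ p.1 * ((n : ℝ) / N) := mul_nonneg hp1.1 h8
      rw [wv]
      exact ⟨by linarith [hp2.1], by linarith [hp2.2]⟩
    rw [hφ0, hgf _ h7]
    rfl

open MomL in
/-- The final form. -/
theorem finp (hASY : S_ASY) : ∃ A P : ℕ, ∀ c C : ℕ → ℝ, (∀ j, 0 < c j) →
    ∃ n0 : ℕ, ∀ N F : ℝ, ∀ f : ℝ → ℝ, 2 ≤ N → N ^ A ≤ F →
    ContDiffOn ℝ (⊤ : ℕ∞) f (Icc N (2 * N)) →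
    (∀ j ≤ P, ∀ x ∈ Icc N (2 * N), c j * F / N ^ j ≤ |iteratedDerivWithin j f (Icc N (2 * N)) x| ∧
      |iteratedDerivWithin j f (Icc N (2 * N)) x| ≤ C j * F / N ^ j) →
    ∀ (r : ℕ → ℝ) (N1 N2 : ℕ), N < (N1 : ℝ) → N1 + n0 ≤ N2 → (N2 : ℝ) + 4 < 2 * N →
    ENNReal.ofReal (1 / 16) ≤ volume {p : ℝ × ℝ | p.1 ∈ Icc (0 : ℝ) 1 ∧ p.2 ∈ Icc (0 : ℝ) 1 ∧
      ((N2 : ℝ) - N1 + 1) ≤ 2 * ‖∑ n ∈ Finset.Icc N1 N2, Complex.exp (2 * (Real.pi : ℂ) * Complex.I *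
        ((f ((n : ℝ) + p.1 * ((n : ℝ) / N) + p.2) + r n : ℝ) : ℂ))‖ ^ 2} := by
  obtain ⟨A, hA⟩ := posa hASY
  refine ⟨A, 6, fun c C hc => ?_⟩
  obtain ⟨c', C', hc', hC', hadm⟩ := toAdm 5 c C hc
  obtain ⟨K, hK0, hK⟩ := hA c' C' hc' hC'
  refine ⟨⌈9 * K⌉₊, fun N F f hN hF hf hb r N1 N2 h1 h2 h3 => ?_⟩
  have hF0 : 0 < F := lt_of_lt_of_le (by positivity) hF
  obtain ⟨φ, hφ, hφf⟩ := hadm N F f hN hF0 hf hb
  have hcard : ((Finset.Icc N1 N2).card : ℝ) = (N2 : ℝ) - N1 + 1 := by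
    rw [Nat.card_Icc, Nat.cast_sub (by omega)]
    push_cast
    ring
  have h4 : 9 * K ≤ ((Finset.Icc N1 N2).card : ℝ) := by
    rw [hcard]
    have h5 : (N1 : ℝ) + ⌈9 * K⌉₊ ≤ N2 := by exact_mod_cast h2
    have h6 := Nat.le_ceil (9 * K)
    linarith
  have key := hK F N φ hN hF hφ r N1 N2 h1 (by omega) h3 h4
  have hset : Sq ∩ {p : ℝ × ℝ | ((Finset.Icc N1 N2).card : ℝ) ≤
      2 * ‖ES2 N (φ 0) r (Finset.Icc N1 N2) p‖ ^ 2} ⊆
      {p : ℝ × ℝ | p.1 ∈ Icc (0 : ℝ) 1 ∧ p.2 ∈ Icc (0 : ℝ) 1 ∧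
      ((N2 : ℝ) - N1 + 1) ≤ 2 * ‖∑ n ∈ Finset.Icc N1 N2, Complex.exp (2 * (Real.pi : ℂ) * Complex.I *
        ((f ((n : ℝ) + p.1 * ((n : ℝ) / N) + p.2) + r n : ℝ) : ℂ))‖ ^ 2} := by
    rintro p ⟨hp, hp2⟩
    obtain ⟨hp3, hp4⟩ := Set.mem_prod.mp hp
    refine ⟨hp3, hp4, ?_⟩
    have hp5 : ((Finset.Icc N1 N2).card : ℝ) ≤ 2 * ‖ES2 N (φ 0) r (Finset.Icc N1 N2) p‖ ^ 2 := hp2
    rw [hcard] at hp5
    refine hp5.trans (le_of_eq ?_)
    congr 3
    rw [ES2]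
    refine Finset.sum_congr rfl (fun n hn => ?_)
    obtain ⟨hn1, hn2⟩ := Finset.mem_Icc.mp hn
    have h5 : (N1 : ℝ) ≤ n := by exact_mod_cast hn1
    have h6 : (n : ℝ) ≤ N2 := by exact_mod_cast hn2
    rw [hφf n (by linarith) (by linarith) p hp3 hp4]
  refine le_trans ?_ (measure_mono hset)
  have hfin : volume (Sq ∩ {p : ℝ × ℝ | ((Finset.Icc N1 N2).card : ℝ) ≤
      2 * ‖ES2 N (φ 0) r (Finset.Icc N1 N2) p‖ ^ 2}) ≠ ⊤ := by
    refine ne_top_of_le_ne_top ?_ (measure_mono inter_subset_left)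
    rw [Sq_vol]
    exact ENNReal.one_ne_top
  rw [← ENNReal.ofReal_toReal hfin]
  exact ENNReal.ofReal_le_ofReal key

end Pool.Agent.Helper91K9.EP
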