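import Pool.Agent.Helper91K9.EP.Stm

/-!
# RECT: one thin rectangle
-/

set_option autoImplicit false

namespace Pool.Agent.Helper91K9.EP

open Set MeasureTheory

theorem rect : S_RECT := by
  intro H hH hH1 s0 u0 h h' a W hh hh' ha hW
  have hcs : ∀ u, Continuous (fun s => H s u) := fun u =>
    hH.comp (continuous_id.prodMk continuous_const)
  have hint : ∀ (u p q : ℝ), IntervalIntegrable (fun s => H s u) volume p q := fun u p q =>
    (hcs u).intervalIntegrable p q
  -- the two inner integrals
  set I : ℝ → ℝ := fun u => ∫ s in s0..(s0 + h), H s u with hI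
  set J : ℝ → ℝ := fun u => ∫ σ in s0..(s0 + h), H (σ + a * (u - u0)) u with hJ
  have hIc : Continuous I := by
    have h1 : Continuous (Function.uncurry (fun u s : ℝ => H s u)) :=
      hH.comp (continuous_snd.prodMk continuous_fst)
    exact intervalIntegral.continuous_parametric_intervalIntegral_of_continuous' h1 s0 (s0 + h)
  have hJc0 : Continuous (Function.uncurry (fun u σ : ℝ => H (σ + a * (u - u0)) u)) := by
    refine hH.comp (Continuous.prodMk ?_ continuous_fst)
    fun_prop
  have hJc : Continuous J :=
    intervalIntegral.continuous_parametric_intervalIntegral_of_continuous' hJc0 s0 (s0 + h)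
  -- the difference
  have hdiff : ∀ u ∈ Icc u0 (u0 + h'), |I u - J u| ≤ 2 * a * h' := by
    intro u hu
    have hδ : 0 ≤ a * (u - u0) := mul_nonneg ha (by linarith [hu.1])
    have hδ' : a * (u - u0) ≤ a * h' := mul_le_mul_of_nonneg_left (by linarith [hu.2]) ha
    have h1 : J u = ∫ s in (s0 + a * (u - u0))..(s0 + h + a * (u - u0)), H s u := by
      rw [hJ]
      exact intervalIntegral.integral_comp_add_right (fun s => H s u) (a * (u - u0))
    have h2 : I u - J u = (∫ s in s0..(s0 + a * (u - u0)), H s u) -
        ∫ s in (s0 + h)..(s0 + h + a * (u - u0)), H s u := by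
      rw [h1]
      exact intervalIntegral.integral_interval_sub_interval_comm (hint u _ _) (hint u _ _) (hint u _ _)
    have h3 : ∀ p : ℝ, |∫ s in p..(p + a * (u - u0)), H s u| ≤ a * (u - u0) := by
      intro p
      have h4 := intervalIntegral.norm_integral_le_of_norm_le_const (a := p)
        (b := p + a * (u - u0)) (C := 1) (f := fun s => H s u) (fun s _ => hH1 s u)
      rw [Real.norm_eq_abs, add_sub_cancel_left, abs_of_nonneg hδ, one_mul] at h4
      exact h4
    rw [h2]
    have h5 := h3 s0
    have h6 := h3 (s0 + h)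
    calc |(∫ s in s0..(s0 + a * (u - u0)), H s u) - ∫ s in (s0 + h)..(s0 + h + a * (u - u0)), H s u|
        ≤ |∫ s in s0..(s0 + a * (u - u0)), H s u| +
          |∫ s in (s0 + h)..(s0 + h + a * (u - u0)), H s u| := abs_sub _ _
      _ ≤ 2 * a * h' := by linarith
  have hdiffint : |∫ u in u0..(u0 + h'), (I u - J u)| ≤ 2 * a * h' ^ 2 := by
    have h4 := intervalIntegral.norm_integral_le_of_norm_le_const (a := u0)
      (b := u0 + h') (C := 2 * a * h') (f := fun u => I u - J u) (fun u hu => by
        rw [uIoc_of_le (by linarith)] at hu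
        exact hdiff u ⟨hu.1.le, hu.2⟩)
    rw [Real.norm_eq_abs, add_sub_cancel_left, abs_of_nonneg hh'] at h4
    calc _ ≤ 2 * a * h' * h' := h4
      _ = 2 * a * h' ^ 2 := by ring
  -- the main term
  have hswap : ∫ u in u0..(u0 + h'), J u =
      ∫ σ in s0..(s0 + h), ∫ v in (0 : ℝ)..h', H (σ + a * v) (u0 + v) := by
    have h1 : ∫ u in u0..(u0 + h'), J u =
        ∫ σ in s0..(s0 + h), ∫ u in u0..(u0 + h'), H (σ + a * (u - u0)) u := by
      rw [hJ]
      refine intervalIntegral_intervalIntegral_swap ?_
      exact (hJc0.continuousOn.integrableOn_compact (isCompact_uIcc.prod isCompact_uIcc)).mono_set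
        (prod_mono uIoc_subset_uIcc uIoc_subset_uIcc)
    rw [h1]
    refine intervalIntegral.integral_congr (fun σ _ => ?_)
    have h2 := intervalIntegral.integral_comp_add_left
      (fun u => H (σ + a * (u - u0)) u) u0 (a := 0) (b := h')
    simp only [add_zero, add_sub_cancel_left] at h2
    exact h2.symm
  have hmain : |∫ u in u0..(u0 + h'), J u| ≤ h * W := by
    rw [hswap]
    have h4 := intervalIntegral.norm_integral_le_of_norm_le_const (a := s0)
      (b := s0 + h) (C := W) (f := fun σ => ∫ v in (0 : ℝ)..h', H (σ + a * v) (u0 + v))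
      (fun σ hσ => by
        rw [uIoc_of_le (by linarith)] at hσ
        exact hW σ ⟨hσ.1.le, hσ.2⟩)
    rw [Real.norm_eq_abs, add_sub_cancel_left, abs_of_nonneg hh] at h4
    linarith
  have hsum : ∫ u in u0..(u0 + h'), I u =
      (∫ u in u0..(u0 + h'), J u) + ∫ u in u0..(u0 + h'), (I u - J u) := by
    have h5 := intervalIntegral.integral_sub (μ := volume) (hIc.intervalIntegrable u0 (u0 + h'))
      (hJc.intervalIntegrable u0 (u0 + h'))
    linarith
  show |∫ u in u0..(u0 + h'), I u| ≤ _
  rw [hsum]
  exact (abs_add_le _ _).trans (add_le_add hmain hdiffint)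

end Pool.Agent.Helper91K9.EP
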