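import Pool.Agent.Helper91K9.EP.Mom

/-! # EP: [SNG] -/

set_option autoImplicit false

namespace Pool.Agent.Helper91K9.EP

open Set MeasureTheory
open Pool.Agent.Y933.KI

open MomL in
theorem sng (hmom0 : S_MOM) : S_SNG := by
  intro ε hε B
  obtain ⟨k0, hk0⟩ := exists_nat_ge ((B : ℝ) / (2 * ε))
  set k := k0 + 1 with hk
  have hkε : (B : ℝ) ≤ 2 * k * ε := by
    have h1 : (B : ℝ) / (2 * ε) ≤ (k : ℝ) := by
      rw [hk]
      push_cast
      linarith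
    rw [div_le_iff₀ (by positivity)] at h1
    linarith
  obtain ⟨A, hA⟩ := hmom0 k (by omega)
  refine ⟨A, 2 * k + 1, fun c C hc hC => ?_⟩
  obtain ⟨K, hK, hmom⟩ := hA c C hc hC
  refine ⟨2 ^ (2 * k) * K, by positivity, fun F N φ hN hF hφ q N1 N2 h1 h2 h12 => ?_⟩
  have hN' : (1 : ℝ) ≤ N := by linarith
  have hN0 : (0 : ℝ) < N := by linarith
  set X : ℝ := ((Finset.Icc N1 N2).card : ℝ) with hX
  have hX0 : 0 < X := by
    rw [hX, Nat.card_Icc]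
    have : 0 < N2 + 1 - N1 := by omega
    exact_mod_cast this
  set V : ℝ := X ^ (1 / 2 : ℝ) * N ^ ε with hV
  have hV0 : 0 < V := by positivity
  have hVk : X ^ k * N ^ B ≤ 2 ^ (2 * k) * (V / 2) ^ (2 * k) := by
    rw [← mul_pow, mul_div_cancel₀ _ (by norm_num : (2 : ℝ) ≠ 0), hV, mul_pow]
    have e1 : (X ^ (1 / 2 : ℝ)) ^ (2 * k) = X ^ k := by
      rw [pow_mul, ← Real.rpow_natCast (X ^ (1 / 2 : ℝ)) 2, ← Real.rpow_mul hX0.le]
      norm_num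
    have e2 : N ^ B ≤ (N ^ ε) ^ (2 * k) := by
      rw [← Real.rpow_natCast (N ^ ε), ← Real.rpow_mul hN0.le, ← Real.rpow_natCast N B]
      apply Real.rpow_le_rpow_of_exponent_le hN'
      push_cast
      linarith
    rw [e1]
    gcongr
  have hc1 : Continuous (fun p => ‖ES2 N (φ 0) q (Finset.Icc N1 N2) p‖ ^ (2 * k)) :=
    (ES2_cont N hφ.cont q _).norm.pow _
  have hint : Integrable (fun p => ‖ES2 N (φ 0) q (Finset.Icc N1 N2) p‖ ^ (2 * k))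
      (volume.restrict Sq) := hc1.continuousOn.integrableOn_compact Sq_compact
  have hmk := mul_meas_ge_le_integral_of_nonneg (μ := volume.restrict Sq)
    (f := fun p => ‖ES2 N (φ 0) q (Finset.Icc N1 N2) p‖ ^ (2 * k))
    (Filter.Eventually.of_forall (fun p => by
      show (0 : ℝ) ≤ ‖ES2 N (φ 0) q (Finset.Icc N1 N2) p‖ ^ (2 * k)
      positivity)) hint ((V / 2) ^ (2 * k))
  have h3 := hmk.trans (hmom F N φ hN hF hφ q N1 N2 h1 h2)
  have : IsFiniteMeasure (volume.restrict Sq) :=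
    ⟨by rw [Measure.restrict_apply_univ, Sq_vol]; exact ENNReal.one_lt_top⟩
  have hsub : {p : ℝ × ℝ | p.1 ∈ Icc (0 : ℝ) 1 ∧ p.2 ∈ Icc (0 : ℝ) 1 ∧
      V / 2 < ‖ES2 N (φ 0) q (Finset.Icc N1 N2) p‖} ⊆
      {p | (V / 2) ^ (2 * k) ≤ ‖ES2 N (φ 0) q (Finset.Icc N1 N2) p‖ ^ (2 * k)} ∩ Sq := by
    rintro p ⟨hp1, hp2, hp3⟩
    exact ⟨pow_le_pow_left₀ (by positivity) hp3.le _, ⟨hp1, hp2⟩⟩
  refine (measure_mono hsub).trans ?_
  rw [← Measure.restrict_apply' Sq_meas, ← ofReal_measureReal]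
  apply ENNReal.ofReal_le_ofReal
  have hm0 : 0 ≤ (volume.restrict Sq).real
    {p | (V / 2) ^ (2 * k) ≤ ‖ES2 N (φ 0) q (Finset.Icc N1 N2) p‖ ^ (2 * k)} := measureReal_nonneg
  generalize (volume.restrict Sq).real
    {p | (V / 2) ^ (2 * k) ≤ ‖ES2 N (φ 0) q (Finset.Icc N1 N2) p‖ ^ (2 * k)} = μ0 at h3 hm0 ⊢
  have h5 : 0 < N ^ B := by positivity
  have h6 : 0 < X ^ k := by positivity
  rw [le_div_iff₀ h5]
  have h7 : X ^ k * (μ0 * N ^ B) ≤ X ^ k * (2 ^ (2 * k) * K) := by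
    calc X ^ k * (μ0 * N ^ B) = (X ^ k * N ^ B) * μ0 := by ring
      _ ≤ (2 ^ (2 * k) * (V / 2) ^ (2 * k)) * μ0 := mul_le_mul_of_nonneg_right hVk hm0
      _ = 2 ^ (2 * k) * ((V / 2) ^ (2 * k) * μ0) := by ring
      _ ≤ 2 ^ (2 * k) * (K * X ^ k) := mul_le_mul_of_nonneg_left h3 (by positivity)
      _ = X ^ k * (2 ^ (2 * k) * K) := by ring
  exact le_of_mul_le_mul_left h7 h6

end Pool.Agent.Helper91K9.EP
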