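import Pool.Agent.Helper91K9.EP.Mom1

/-! # EP: [SNG1] -/

set_option autoImplicit false

namespace Pool.Agent.Helper91K9.EP

open Set MeasureTheory
open Pool.Agent.Y933.KI

open Mom1L in
theorem sng1 (hmom0 : S_MOM1) : S_SNG1 := by
  intro ε hε B b
  obtain ⟨k0, hk0⟩ := exists_nat_ge ((B : ℝ) / (2 * ε))
  set k := k0 + 1 with hk
  have hkε : (B : ℝ) ≤ 2 * k * ε := by
    have h1 : (B : ℝ) / (2 * ε) ≤ (k : ℝ) := by
      rw [hk]
      push_cast
      linarith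
    rw [div_le_iff₀ (by positivity)] at h1
    linarith
  obtain ⟨A, K, hK, hmom⟩ := hmom0 k (by omega) b
  refine ⟨A, 2 ^ (2 * k) * K, by positivity, fun F N a y hN2' hF h q N1 N2 h1 h2 h12 => ?_⟩
  have hN' : (1 : ℝ) ≤ N := by linarith
  have hN0 : (0 : ℝ) < N := by linarith
  set X : ℝ := ((Finset.Icc N1 N2).card : ℝ) with hX
  have hX0 : 0 < X := by
    rw [hX, Nat.card_Icc]
    have : 0 < N2 + 1 - N1 := by omega
    exact_mod_cast this
  set V : ℝ := X ^ (1 / 2 : ℝ) * N ^ ε with hV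
  have hV0 : 0 < V := by positivity
  have hVk : X ^ k * N ^ B ≤ 2 ^ (2 * k) * (V / 2) ^ (2 * k) := by
    rw [← mul_pow, mul_div_cancel₀ _ (by norm_num : (2 : ℝ) ≠ 0), hV, mul_pow]
    have e1 : (X ^ (1 / 2 : ℝ)) ^ (2 * k) = X ^ k := by
      rw [pow_mul, ← Real.rpow_natCast (X ^ (1 / 2 : ℝ)) 2, ← Real.rpow_mul hX0.le]
      norm_num
    have e2 : N ^ B ≤ (N ^ ε) ^ (2 * k) := by
      rw [← Real.rpow_natCast (N ^ ε), ← Real.rpow_mul hN0.le, ← Real.rpow_natCast N B]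
      apply Real.rpow_le_rpow_of_exponent_le hN'
      push_cast
      linarith
    rw [e1]
    gcongr
  have hc : Continuous (fun s => ‖ES1 a y q (Finset.Icc N1 N2) s‖ ^ (2 * k)) :=
    (ES1_cont a y q (Finset.Icc N1 N2)).norm.pow _
  have hint : Integrable (fun s => ‖ES1 a y q (Finset.Icc N1 N2) s‖ ^ (2 * k))
      (volume.restrict (Icc 0 1)) := hc.continuousOn.integrableOn_Icc
  have hmk := mul_meas_ge_le_integral_of_nonneg (μ := volume.restrict (Icc (0 : ℝ) 1))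
    (f := fun s => ‖ES1 a y q (Finset.Icc N1 N2) s‖ ^ (2 * k))
    (Filter.Eventually.of_forall (fun s => by
      show (0 : ℝ) ≤ ‖ES1 a y q (Finset.Icc N1 N2) s‖ ^ (2 * k)
      positivity)) hint ((V / 2) ^ (2 * k))
  rw [integral_Icc_eq_integral_Ioc, ← intervalIntegral.integral_of_le zero_le_one] at hmk
  have h3 := hmk.trans (hmom F N a y hN2' hF h q N1 N2 h1 h2)
  have : IsFiniteMeasure (volume.restrict (Icc (0 : ℝ) 1)) :=
    ⟨by rw [Measure.restrict_apply_univ]; exact measure_Icc_lt_top⟩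
  have hsub : {s : ℝ | s ∈ Icc (0 : ℝ) 1 ∧ V / 2 < ‖ES1 a y q (Finset.Icc N1 N2) s‖} ⊆
      {s | (V / 2) ^ (2 * k) ≤ ‖ES1 a y q (Finset.Icc N1 N2) s‖ ^ (2 * k)} ∩ Icc 0 1 := by
    rintro s ⟨hs, hs2⟩
    exact ⟨pow_le_pow_left₀ (by positivity) hs2.le _, hs⟩
  refine (measure_mono hsub).trans ?_
  rw [← Measure.restrict_apply' measurableSet_Icc, ← ofReal_measureReal]
  apply ENNReal.ofReal_le_ofReal
  have hm0 : 0 ≤ (volume.restrict (Icc (0 : ℝ) 1)).real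
    {s | (V / 2) ^ (2 * k) ≤ ‖ES1 a y q (Finset.Icc N1 N2) s‖ ^ (2 * k)} := measureReal_nonneg
  generalize (volume.restrict (Icc (0 : ℝ) 1)).real
    {s | (V / 2) ^ (2 * k) ≤ ‖ES1 a y q (Finset.Icc N1 N2) s‖ ^ (2 * k)} = m at h3 hm0 ⊢
  have h5 : 0 < N ^ B := by positivity
  have h6 : 0 < X ^ k := by positivity
  rw [le_div_iff₀ h5]
  have h7 : X ^ k * (m * N ^ B) ≤ X ^ k * (2 ^ (2 * k) * K) := by
    calc X ^ k * (m * N ^ B) = X ^ k * N ^ B * m := by ring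
      _ ≤ 2 ^ (2 * k) * (V / 2) ^ (2 * k) * m := mul_le_mul_of_nonneg_right hVk hm0
      _ = 2 ^ (2 * k) * ((V / 2) ^ (2 * k) * m) := by ring
      _ ≤ 2 ^ (2 * k) * (K * X ^ k) := by gcongr
      _ = _ := by ring
  exact le_of_mul_le_mul_left h7 h6

end Pool.Agent.Helper91K9.EP
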