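import Pool.Agent.Y933.KI.General
import Pool.Agent.Y933.KI.Net

/-!
# EP (MP_493793_nt, the exponent pair conjecture): almost all affine changes of variable of EVERY admissible
function. Statements of the leaves.

Final theorem: for `ε > 0` and `B, d` there are `A, P` such that for EVERY `f` with
`c_j F / N^j ≤ |f^(j)| ≤ C_j F / N^j` on `[N, 2N]` (`j ≤ P`), `F ≥ N^A`, and for all `(s, u)` in `[0, 1]²`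
outside a set of measure `K / N^B`: all the sums of `e((1 + t) f(n + s n/N + u) + Q(n))` over all intervals
are `≤ |I|^(1/2) N^ε` (`t F ≤ N^B`, `deg Q ≤ d`).

Proof. 2k-th moment over `(s, u)`. For two tuples `x, y` the phase is `G = Σ_j μ_j φ_0(w_j)`,
`w_j = j + s j/N + u`; its `p`-th derivative in the direction `(a, 1)` is
`VV a p = Σ_j μ_j (1 + a j/N)^p φ_p(w_j)`; for `p = 2k` FIXED one of `a = 0, ..., 2k` gives a large value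
(Vandermonde twice): LOW. Then van der Corput along the lines of direction `(a, 1)` in thin rectangles.
-/

set_option autoImplicit false

namespace Pool.Agent.Helper91K9.EP

open Set MeasureTheory
open Pool.Agent.Y933.KI

/-- the affine change of variable -/
noncomputable def wv (N : ℝ) (n : ℕ) (s u : ℝ) : ℝ := (n : ℝ) + s * ((n : ℝ) / N) + u

/-- `φ 0` has the derivatives `φ 1`, `φ 2`, ..., of the size of an admissible function. -/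
structure Adm (c C F N : ℝ) (P : ℕ) (φ : ℕ → ℝ → ℝ) : Prop where
  cont : Continuous (φ 0)
  der : ∀ i ≤ P, ∀ x ∈ Ioo N (2 * N), HasDerivAt (φ i) (φ (i + 1) x) x
  low : ∀ i ≤ P, ∀ x ∈ Ioo N (2 * N), c * F / N ^ (i + 1) ≤ |φ (i + 1) x|
  up : ∀ i ≤ P, ∀ x ∈ Ioo N (2 * N), |φ (i + 1) x| ≤ C * F / N ^ (i + 1)

/-- the integers allowed: for `s ∈ [0, 3/2]`, `u ∈ [0, 1]` the point `wv N n s u` is in `(N, 2N)` -/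
def Ok (N : ℝ) {k : ℕ} (x : Fin k → ℕ) : Prop := ∀ l, N < (x l : ℝ) ∧ (x l : ℝ) + 4 < 2 * N

/-- the `p`-th derivative of the phase in the direction `(a, 1)` -/
noncomputable def VV (N : ℝ) (φ : ℕ → ℝ → ℝ) {k : ℕ} (x y : Fin k → ℕ) (a p : ℕ) (s u : ℝ) : ℝ :=
  ∑ l, (1 + (a : ℝ) * ((x l : ℝ) / N)) ^ p * φ p (wv N (x l) s u) -
    ∑ l, (1 + (a : ℝ) * ((y l : ℝ) / N)) ^ p * φ p (wv N (y l) s u)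

/-- the phase -/
noncomputable def ph (N : ℝ) (φ : ℕ → ℝ → ℝ) (q : ℕ → ℝ) {k : ℕ} (x y : Fin k → ℕ) (s u : ℝ) : ℝ :=
  2 * Real.pi * ∑ l, (φ 0 (wv N (x l) s u) + q (x l)) -
    2 * Real.pi * ∑ l, (φ 0 (wv N (y l) s u) + q (y l))

/-- [COEF] the coefficients of a real polynomial of degree `≤ R` are bounded by its values at `0, ..., R`
(inverse of the Vandermonde matrix; `Matrix.det_vandermonde_ne_zero_iff`, or an injective linear map in finite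
dimension). -/
def S_COEF : Prop := ∀ R : ℕ, ∃ K : ℝ, 1 ≤ K ∧ ∀ a : ℕ → ℝ, ∀ i ≤ R, ∃ t : ℕ, t ≤ R ∧
  |a i| ≤ K * |∑ l ∈ Finset.range (R + 1), a l * (t : ℝ) ^ l|

/-- [LOW] model: `DD_low` in `Pool/Agent/Y933/KI/Mom.lean` (copy its beginning: `A`, `J`, `sum_fib`).
With `w_j = μ_j φ_(2k)(wv N j s u)` and the nodes `y_j = j/(2N)` (`|y_j| ≤ 1`, spacing `1/(2N)`) `vand` gives
`i ≤ 2k - 1` with `|Σ w_j y_j^i| ≥ c F N^(-2k) (1/(4N))^(2k)`; the value `VV a` is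
`Σ_l binom(2k, l) (2a)^l Σ_j w_j y_j^l` (binomial theorem for `(1 + 2a y_j)^(2k)`), so COEF with the
coefficients `a_l = binom(2k, l) 2^l Σ_j w_j y_j^l` gives `a`. -/
def S_LOW : Prop := ∀ k : ℕ, 1 ≤ k → ∃ K : ℝ, 1 ≤ K ∧ ∀ (c C F N : ℝ) (φ : ℕ → ℝ → ℝ),
  0 < c → 0 < F → 2 ≤ N → Adm c C F N (2 * k + 1) φ → ∀ x y : Fin k → ℕ, Ok N x → Ok N y →
  (∃ j, mu x y j ≠ 0) → ∀ s ∈ Icc (0 : ℝ) (3 / 2), ∀ u ∈ Icc (0 : ℝ) 1,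
  ∃ a : ℕ, a ≤ 2 * k ∧ c * F / (K * N ^ (4 * k)) ≤ |VV N φ x y a (2 * k) s u|

/-- [LIP] mean value theorem for `φ (2k)` on `(N, 2N)`, `0 ≤ a x/N ≤ 4k`, `|Δ wv| ≤ 3 δ`. -/
def S_LIP : Prop := ∀ k : ℕ, 1 ≤ k → ∀ (c C F N : ℝ) (φ : ℕ → ℝ → ℝ),
  0 < F → 2 ≤ N → 0 ≤ C → Adm c C F N (2 * k + 1) φ → ∀ x y : Fin k → ℕ, Ok N x → Ok N y →
  ∀ a : ℕ, a ≤ 2 * k → ∀ s ∈ Icc (0 : ℝ) (3 / 2), ∀ s' ∈ Icc (0 : ℝ) (3 / 2),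
  ∀ u ∈ Icc (0 : ℝ) 1, ∀ u' ∈ Icc (0 : ℝ) 1, ∀ δ : ℝ, |s - s'| ≤ δ → |u - u'| ≤ δ →
  |VV N φ x y a (2 * k) s u - VV N φ x y a (2 * k) s' u'| ≤
    6 * k * (4 * k + 1) ^ (2 * k) * C * F / N ^ (2 * k + 1) * δ

/-- [LINE] one line: `Chain` and `total` of `Pool/Agent/Y933/KI/Chain.lean` (`R = 2k`) for the functions of
`τ ∈ [0, 1]`, `v = h τ`: `θ τ = ph .. (σ + a h τ) (u0 + h τ)`,
`D i τ = VV N φ x y a (i + 1) (σ + a h τ) (u0 + h τ) * (N / F)`, `κ i = h`, `κ0 = h`, `κ1 = 1`,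
`U = 2k (4k + 1)^(2k + 1) C`, `T = h F / N`; then `E = 30 * 2^(2k) * U^2`. (`total` with `i = 2k - 1`.)
Model: `offdiag` in `Pool/Agent/Y933/KI/Mom.lean`. -/
def S_LINE : Prop := ∀ k : ℕ, 1 ≤ k → ∀ C : ℝ, 1 ≤ C → ∃ E : ℝ, 0 < E ∧
  ∀ (c F N : ℝ) (φ : ℕ → ℝ → ℝ), 0 < F → 2 ≤ N → Adm c C F N (2 * k + 1) φ →
  ∀ (q : ℕ → ℝ) (x y : Fin k → ℕ), Ok N x → Ok N y → ∀ a : ℕ, a ≤ 2 * k →
  ∀ σ h u0 : ℝ, 0 < h → h ≤ 1 → 0 ≤ σ → σ + a * h ≤ 3 / 2 → 0 ≤ u0 → u0 + h ≤ 1 → N ≤ h * F →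
  ∀ lam : ℝ, 0 < lam → lam ≤ 1 →
  (∀ v ∈ Icc (0 : ℝ) h, lam * F / N ≤ |VV N φ x y a (2 * k) (σ + a * v) (u0 + v)|) →
  |∫ v in (0 : ℝ)..h, Real.cos (ph N φ q x y (σ + a * v) (u0 + v))| ≤
    h * (E / (h ^ (4 * k) * lam ^ 3) * (h * F / N) ^ (-(1 / (8 * (k : ℝ)))))

/-- [RECT] one thin rectangle. For fixed `u` substitute `s = σ + a (u - u0)` in the inner integral, move the
limits back to `[s0, s0 + h]` (error `≤ 2 a (u - u0) ≤ 2 a h'`), swap the two integrals (continuous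
integrand on a rectangle). -/
def S_RECT : Prop := ∀ H : ℝ → ℝ → ℝ, Continuous (fun p : ℝ × ℝ => H p.1 p.2) →
  (∀ s u, |H s u| ≤ 1) → ∀ s0 u0 h h' a W : ℝ, 0 ≤ h → 0 ≤ h' → 0 ≤ a →
  (∀ σ ∈ Icc s0 (s0 + h), |∫ v in (0 : ℝ)..h', H (σ + a * v) (u0 + v)| ≤ W) →
  |∫ u in u0..(u0 + h'), ∫ s in s0..(s0 + h), H s u| ≤ h * W + 2 * a * h' ^ 2

/-- [GRID] from RECT: the unit square in `M × M'` rectangles. -/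
def S_GRID : Prop := ∀ H : ℝ → ℝ → ℝ, Continuous (fun p : ℝ × ℝ => H p.1 p.2) →
  (∀ s u, |H s u| ≤ 1) → ∀ M M' : ℕ, 1 ≤ M → 1 ≤ M' → ∀ R E : ℝ, 0 ≤ R → 0 ≤ E →
  (∀ i < M, ∀ j < M', ∃ a : ℝ, 0 ≤ a ∧ a ≤ R ∧
    ∀ σ ∈ Icc ((i : ℝ) / M) (((i : ℝ) + 1) / M),
      |∫ v in (0 : ℝ)..(1 / (M' : ℝ)), H (σ + a * v) ((j : ℝ) / M' + v)| ≤ E / M') →
  |∫ p in (Icc (0 : ℝ) 1) ×ˢ (Icc (0 : ℝ) 1), H p.1 p.2| ≤ E + 2 * R * M / M'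

/-- [OFF] (assembly: LOW, LIP, LINE, GRID) -/
def S_OFF : Prop := ∀ k : ℕ, 1 ≤ k → ∃ A : ℕ, ∀ c C : ℝ, 0 < c → 1 ≤ C → ∃ K : ℝ, 0 < K ∧
  ∀ (F N : ℝ) (φ : ℕ → ℝ → ℝ), 2 ≤ N → N ^ A ≤ F → Adm c C F N (2 * k + 1) φ →
  ∀ (q : ℕ → ℝ) (x y : Fin k → ℕ), Ok N x → Ok N y → (∃ j, mu x y j ≠ 0) →
  |∫ p in (Icc (0 : ℝ) 1) ×ˢ (Icc (0 : ℝ) 1), Real.cos (ph N φ q x y p.1 p.2)| ≤ K / N ^ k

/-- the exponential sum -/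
noncomputable def ES2 (N : ℝ) (f : ℝ → ℝ) (q : ℕ → ℝ) (I : Finset ℕ) (p : ℝ × ℝ) : ℂ :=
  ∑ n ∈ I, Complex.exp (2 * (Real.pi : ℂ) * Complex.I * ((f (wv N n p.1 p.2) + q n : ℝ) : ℂ))

/-- [MOM] from OFF; model: `ES_pow` and `moment` in `Pool/Agent/Y933/KI/Spec.lean` (the integrands are
continuous on the whole plane here, by `Adm.cont`). -/
def S_MOM : Prop := ∀ k : ℕ, 1 ≤ k → ∃ A : ℕ, ∀ c C : ℝ, 0 < c → 1 ≤ C → ∃ K : ℝ, 0 < K ∧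
  ∀ (F N : ℝ) (φ : ℕ → ℝ → ℝ), 2 ≤ N → N ^ A ≤ F → Adm c C F N (2 * k + 1) φ →
  ∀ (q : ℕ → ℝ) (N1 N2 : ℕ), N < (N1 : ℝ) → (N2 : ℝ) + 4 < 2 * N →
  ∫ p in (Icc (0 : ℝ) 1) ×ˢ (Icc (0 : ℝ) 1), ‖ES2 N (φ 0) q (Finset.Icc N1 N2) p‖ ^ (2 * k) ≤
    K * ((Finset.Icc N1 N2).card : ℝ) ^ k

/-- [SNG] from MOM (Markov); model: `single` in `Pool/Agent/Y933/KI/Spec.lean`. -/
def S_SNG : Prop := ∀ ε : ℝ, 0 < ε → ∀ B : ℕ, ∃ A P : ℕ, ∀ c C : ℝ, 0 < c → 1 ≤ C →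
  ∃ K : ℝ, 0 < K ∧ ∀ (F N : ℝ) (φ : ℕ → ℝ → ℝ), 2 ≤ N → N ^ A ≤ F → Adm c C F N P φ →
  ∀ (q : ℕ → ℝ) (N1 N2 : ℕ), N < (N1 : ℝ) → (N2 : ℝ) + 4 < 2 * N → N1 ≤ N2 →
  volume {p : ℝ × ℝ | p.1 ∈ Icc (0 : ℝ) 1 ∧ p.2 ∈ Icc (0 : ℝ) 1 ∧
    ((Finset.Icc N1 N2).card : ℝ) ^ (1 / 2 : ℝ) * N ^ ε / 2 <
      ‖ES2 N (φ 0) q (Finset.Icc N1 N2) p‖} ≤ ENNReal.ofReal (K / N ^ B)

/-- [NET] from SNG; model: `special` in `Pool/Agent/Y933/KI/Net.lean` (use its `compare`): the net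
`t ∈ {j / (F H)}` for the multiplier (the functions `(1 + t) φ` are `Adm c C ((1 + t) F) N P`) and the net for
the coefficients of `Q` modulo 1, with `⌈N⌉₊` for `N`. -/
def S_NET : Prop := ∀ ε : ℝ, 0 < ε → ∀ B d : ℕ, ∃ A P : ℕ, ∀ c C : ℝ, 0 < c → 1 ≤ C →
  ∃ K : ℝ, ∀ (F N : ℝ) (φ : ℕ → ℝ → ℝ), 2 ≤ N → N ^ A ≤ F → Adm c C F N P φ →
  (∀ x ∈ Ioo N (2 * N), |φ 0 x| ≤ C * F) →
  volume {p : ℝ × ℝ | p.1 ∈ Icc (0 : ℝ) 1 ∧ p.2 ∈ Icc (0 : ℝ) 1 ∧ ∃ t : ℝ, 0 ≤ t ∧ t * F ≤ N ^ B ∧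
    ∃ Q : Polynomial ℝ, Q.natDegree ≤ d ∧ ∃ N1 N2 : ℕ, N < (N1 : ℝ) ∧ N1 ≤ N2 ∧
    (N2 : ℝ) + 4 < 2 * N ∧ ((N2 : ℝ) - N1 + 1) ^ (1 / 2 : ℝ) * N ^ ε <
      ‖∑ n ∈ Finset.Icc N1 N2, Complex.exp (2 * (Real.pi : ℂ) * Complex.I *
        (((1 + t) * φ 0 (wv N n p.1 p.2) + Q.eval (n : ℝ) : ℝ) : ℂ))‖} ≤
    ENNReal.ofReal (K / N ^ B)

/-- [FIN] from NET: the class of the problem; model: `reg_of_adm` in `Pool/Agent/Y933/KI/General.lean`. -/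
def S_FIN : Prop := ∀ ε : ℝ, 0 < ε → ∀ B d : ℕ, ∃ A P : ℕ, ∀ c C : ℕ → ℝ, (∀ j, 0 < c j) →
  ∃ K : ℝ, ∀ N F : ℝ, ∀ f : ℝ → ℝ, 2 ≤ N → N ^ A ≤ F →
  ContDiffOn ℝ (⊤ : ℕ∞) f (Icc N (2 * N)) →
  (∀ j ≤ P, ∀ x ∈ Icc N (2 * N), c j * F / N ^ j ≤ |iteratedDerivWithin j f (Icc N (2 * N)) x| ∧
    |iteratedDerivWithin j f (Icc N (2 * N)) x| ≤ C j * F / N ^ j) →
  volume {p : ℝ × ℝ | p.1 ∈ Icc (0 : ℝ) 1 ∧ p.2 ∈ Icc (0 : ℝ) 1 ∧ ∃ t : ℝ, 0 ≤ t ∧ t * F ≤ N ^ B ∧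
    ∃ Q : Polynomial ℝ, Q.natDegree ≤ d ∧ ∃ N1 N2 : ℕ, N < (N1 : ℝ) ∧ N1 ≤ N2 ∧
    (N2 : ℝ) + 4 < 2 * N ∧ ((N2 : ℝ) - N1 + 1) ^ (1 / 2 : ℝ) * N ^ ε <
      ‖∑ n ∈ Finset.Icc N1 N2, Complex.exp (2 * (Real.pi : ℂ) * Complex.I *
        (((1 + t) * f ((n : ℝ) + p.1 * ((n : ℝ) / N) + p.2) + Q.eval (n : ℝ) : ℝ) : ℂ))‖} ≤
    ENNReal.ofReal (K / N ^ B)

end Pool.Agent.Helper91K9.EP
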