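import Pool.Agent.Helper91K9.EP.Stm

/-!
# EP, part 2: the moments over the affine changes of variable are those of a complex Gaussian
-/

set_option autoImplicit false

namespace Pool.Agent.Helper91K9.EP

open Set MeasureTheory
open Pool.Agent.Y933.KI

/-- [OFFB] `S_OFF` with an arbitrary power of `N` (written by helper91) -/
def S_OFFB : Prop := ∀ k : ℕ, 1 ≤ k → ∀ b : ℕ, ∃ A : ℕ, ∀ c C : ℝ, 0 < c → 1 ≤ C → ∃ K : ℝ, 0 < K ∧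
  ∀ (F N : ℝ) (φ : ℕ → ℝ → ℝ), 2 ≤ N → N ^ A ≤ F → Adm c C F N (2 * k + 1) φ →
  ∀ (q : ℕ → ℝ) (x y : Fin k → ℕ), Ok N x → Ok N y → (∃ j, mu x y j ≠ 0) →
  |∫ p in (Icc (0 : ℝ) 1) ×ˢ (Icc (0 : ℝ) 1), Real.cos (ph N φ q x y p.1 p.2)| ≤ K / N ^ b

/-- [CNT] the number of pairs of `k`-tuples from `I` which are permutations of each other is
`k! |I|^k + O(|I|^(k - 1))`. For injective `x` (all but `k^2 |I|^(k-1)` tuples) the `y` with `mu x y = 0` are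
exactly the `k!` tuples `x ∘ π`; for the other `x` there are at most `k^k` of them (as in the proof of
`moment` in `Pool/Agent/Y933/KI/Spec.lean`, `hDgc`). -/
def S_CNT : Prop := ∀ k : ℕ, 1 ≤ k → ∃ K : ℝ, 0 ≤ K ∧ ∀ I : Finset ℕ, I.Nonempty →
  |(∑ x ∈ Fintype.piFinset (fun _ : Fin k => I), ∑ y ∈ Fintype.piFinset (fun _ : Fin k => I),
    (if (∀ j ∈ I, mu x y j = 0) then (1 : ℝ) else 0)) - (k.factorial : ℝ) * (I.card : ℝ) ^ k| ≤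
    K * (I.card : ℝ) ^ (k - 1)

/-- [ASY] asy : S_OFFB → S_CNT → S_ASY. Take `b = 2k` in OFFB; the phase is 0 if `mu x y = 0` on `I`
(`sum_fib`), and there are at most `|I|^(2k) ≤ N^(2k)` other pairs. Model: `Mom.lean` of this folder. -/
def S_ASY : Prop := ∀ k : ℕ, 1 ≤ k → ∃ A : ℕ, ∀ c C : ℝ, 0 < c → 1 ≤ C → ∃ K : ℝ, 0 < K ∧
  ∀ (F N : ℝ) (φ : ℕ → ℝ → ℝ), 2 ≤ N → N ^ A ≤ F → Adm c C F N (2 * k + 1) φ →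
  ∀ (q : ℕ → ℝ) (N1 N2 : ℕ), N < (N1 : ℝ) → N1 ≤ N2 → (N2 : ℝ) + 4 < 2 * N →
  |(∫ p in (Icc (0 : ℝ) 1) ×ˢ (Icc (0 : ℝ) 1), ‖ES2 N (φ 0) q (Finset.Icc N1 N2) p‖ ^ (2 * k)) -
    (k.factorial : ℝ) * ((Finset.Icc N1 N2).card : ℝ) ^ k| ≤
    K * ((Finset.Icc N1 N2).card : ℝ) ^ (k - 1)

/-- [FINA] fina : S_ASY → S_FINA, the class of the problem; copy the proof of `fin` (`Fin.lean` of this
folder), with `setIntegral_congr_fun` instead of `measure_mono`. -/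
def S_FINA : Prop := ∀ k : ℕ, 1 ≤ k → ∃ A P : ℕ, ∀ c C : ℕ → ℝ, (∀ j, 0 < c j) →
  ∃ K : ℝ, ∀ N F : ℝ, ∀ f : ℝ → ℝ, 2 ≤ N → N ^ A ≤ F →
  ContDiffOn ℝ (⊤ : ℕ∞) f (Icc N (2 * N)) →
  (∀ j ≤ P, ∀ x ∈ Icc N (2 * N), c j * F / N ^ j ≤ |iteratedDerivWithin j f (Icc N (2 * N)) x| ∧
    |iteratedDerivWithin j f (Icc N (2 * N)) x| ≤ C j * F / N ^ j) →
  ∀ (r : ℕ → ℝ) (N1 N2 : ℕ), N < (N1 : ℝ) → N1 ≤ N2 → (N2 : ℝ) + 4 < 2 * N →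
  |(∫ p in (Icc (0 : ℝ) 1) ×ˢ (Icc (0 : ℝ) 1), ‖∑ n ∈ Finset.Icc N1 N2,
      Complex.exp (2 * (Real.pi : ℂ) * Complex.I *
        ((f ((n : ℝ) + p.1 * ((n : ℝ) / N) + p.2) + r n : ℝ) : ℂ))‖ ^ (2 * k)) -
    (k.factorial : ℝ) * ((N2 : ℝ) - N1 + 1) ^ k| ≤ K * ((N2 : ℝ) - N1 + 1) ^ (k - 1)

end Pool.Agent.Helper91K9.EP
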