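import Pool.Agent.Y933.KI.Net

/-!
# EP, part 3 (MP_493793_nt): multiplicative deformations `a_n exp(s y_n)`, `s ∈ [0, 1]`

NO smoothness at all: `a_n` arbitrary of size between `F` and `N^b F`, `y_n > 0` separated. It contains: the
monomials `T n^α` for almost all exponents `α`; `f(x) (x/N)^s` and `f(x) exp(s x/N)` for EVERY function `f`
(admissible or not) and almost all `s`; `T h(x)^s` for every strictly monotone `h`.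
One parameter only: everything is one-dimensional.
-/

set_option autoImplicit false

namespace Pool.Agent.Helper91K9.EP

open Set MeasureTheory
open Pool.Agent.Y933.KI

/-- the families -/
structure Fam (F N : ℝ) (b : ℕ) (a y : ℕ → ℝ) : Prop where
  a_lo : ∀ n : ℕ, N < n → (n : ℝ) < 2 * N → F ≤ |a n|
  a_up : ∀ n : ℕ, N < n → (n : ℝ) < 2 * N → |a n| ≤ N ^ b * F
  y_lo : ∀ n : ℕ, N < n → (n : ℝ) < 2 * N → 1 / N ^ b ≤ y n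
  y_up : ∀ n : ℕ, N < n → (n : ℝ) < 2 * N → Real.exp (y n) ≤ N ^ b
  sep : ∀ n m : ℕ, N < n → (n : ℝ) < 2 * N → N < m → (m : ℝ) < 2 * N → n ≠ m →
    1 / N ^ b ≤ |y n - y m|

/-- the exponential sum -/
noncomputable def ES1 (a y q : ℕ → ℝ) (I : Finset ℕ) (s : ℝ) : ℂ :=
  ∑ n ∈ I, Complex.exp (2 * (Real.pi : ℂ) * Complex.I * ((a n * Real.exp (s * y n) + q n : ℝ) : ℂ))

/-- [OFF1] (helper91) -/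
def S_OFF1 : Prop := ∀ k : ℕ, 1 ≤ k → ∀ b : ℕ, ∃ A : ℕ, ∃ K : ℝ, 0 < K ∧
  ∀ (F N : ℝ) (a y : ℕ → ℝ), 2 ≤ N → N ^ A ≤ F → Fam F N b a y →
  ∀ (q : ℕ → ℝ) (x z : Fin k → ℕ), (∀ l, N < x l ∧ (x l : ℝ) < 2 * N) →
  (∀ l, N < z l ∧ (z l : ℝ) < 2 * N) → (∃ j, mu x z j ≠ 0) →
  |∫ s in (0 : ℝ)..1, Real.cos (2 * Real.pi * ∑ l, (a (x l) * Real.exp (s * y (x l)) + q (x l)) -
    2 * Real.pi * ∑ l, (a (z l) * Real.exp (s * y (z l)) + q (z l)))| ≤ K / N ^ k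

/-- [MOM1] mom1 : S_OFF1 → S_MOM1; model: `Mom.lean` of this folder, or `moment` in
`Pool/Agent/Y933/KI/Spec.lean` (one-dimensional). -/
def S_MOM1 : Prop := ∀ k : ℕ, 1 ≤ k → ∀ b : ℕ, ∃ A : ℕ, ∃ K : ℝ, 0 < K ∧
  ∀ (F N : ℝ) (a y : ℕ → ℝ), 2 ≤ N → N ^ A ≤ F → Fam F N b a y →
  ∀ (q : ℕ → ℝ) (N1 N2 : ℕ), N < (N1 : ℝ) → (N2 : ℝ) < 2 * N →
  ∫ s in (0 : ℝ)..1, ‖ES1 a y q (Finset.Icc N1 N2) s‖ ^ (2 * k) ≤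
    K * ((Finset.Icc N1 N2).card : ℝ) ^ k

/-- [SNG1] sng1 : S_MOM1 → S_SNG1; model: `single` in `Pool/Agent/Y933/KI/Spec.lean`. -/
def S_SNG1 : Prop := ∀ ε : ℝ, 0 < ε → ∀ B b : ℕ, ∃ A : ℕ, ∃ K : ℝ, 0 < K ∧
  ∀ (F N : ℝ) (a y : ℕ → ℝ), 2 ≤ N → N ^ A ≤ F → Fam F N b a y →
  ∀ (q : ℕ → ℝ) (N1 N2 : ℕ), N < (N1 : ℝ) → (N2 : ℝ) < 2 * N → N1 ≤ N2 →
  volume {s : ℝ | s ∈ Icc (0 : ℝ) 1 ∧
    ((Finset.Icc N1 N2).card : ℝ) ^ (1 / 2 : ℝ) * N ^ ε / 2 < ‖ES1 a y q (Finset.Icc N1 N2) s‖} ≤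
  ENNReal.ofReal (K / N ^ B)

/-- [NET1] net1 : S_SNG1 → S_NET1; model: `Net.lean` of this folder. The multiplier: `(1 + t) a` is
`Fam ((1 + t) F) N b`; `|a_n exp(s y_n)| ≤ N^(2b) F`. -/
def S_NET1 : Prop := ∀ ε : ℝ, 0 < ε → ∀ B d b : ℕ, ∃ A : ℕ, ∃ K : ℝ,
  ∀ (F N : ℝ) (a y : ℕ → ℝ), 2 ≤ N → N ^ A ≤ F → Fam F N b a y →
  volume {s : ℝ | s ∈ Icc (0 : ℝ) 1 ∧ ∃ t : ℝ, 0 ≤ t ∧ t * F ≤ N ^ B ∧
    ∃ Q : Polynomial ℝ, Q.natDegree ≤ d ∧ ∃ N1 N2 : ℕ, N < (N1 : ℝ) ∧ N1 ≤ N2 ∧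
    (N2 : ℝ) < 2 * N ∧ ((N2 : ℝ) - N1 + 1) ^ (1 / 2 : ℝ) * N ^ ε <
      ‖∑ n ∈ Finset.Icc N1 N2, Complex.exp (2 * (Real.pi : ℂ) * Complex.I *
        (((1 + t) * (a n * Real.exp (s * y n)) + Q.eval (n : ℝ) : ℝ) : ℂ))‖} ≤
  ENNReal.ofReal (K / N ^ B)

end Pool.Agent.Helper91K9.EP
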